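import Mathlib
import Pool.Agent.TH113.TXS_AA
import Pool.Agent.W189.TP.Land

/-! The integrals `I_k(s) = ∫ A(u) u^k e^{-su} du` of the summatory function `A` of a general Dirichlet series. -/

set_option autoImplicit false

open Complex MeasureTheory Set Filter Topology
open Pool.Agent.W189.TP (DS)
open Pool.Agent.TH949.TX (AA)

namespace Pool.Agent.Q18.W

variable {ι : Type*} [Countable ι] {d L : ι → ℝ}

/-- interchange of summation and integration -/
theorem fubini (hL : ∀ i, 0 ≤ L i) (h2 : Summable fun i => |d i| * Real.exp (-(2 * L i))) {φ : ℝ → ℂ}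
    (hφ : Continuous φ) {C : ℝ} (hC : ∀ u : ℝ, 0 ≤ u → ‖φ u‖ ≤ C * Real.exp (-(3 * u))) :
    IntegrableOn (fun u : ℝ => (AA d L u : ℂ) * φ u) (Ioi 0) ∧
    ∫ u in Ioi (0 : ℝ), (AA d L u : ℂ) * φ u = ∑' i, (d i : ℂ) * ∫ u in Ioi (L i), φ u := by
  classical
  obtain ⟨m1, -, m3⟩ := Pool.Agent.TH113.TXS_AA.t_AA hL h2
  have hC0 : 0 ≤ C := by
    have := (norm_nonneg _).trans (hC 0 le_rfl)
    simpa using this
  set M : ℝ := ∑' i, |d i| * Real.exp (-(2 * L i)) with hM
  have hM0 : 0 ≤ M := tsum_nonneg fun i => by positivity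
  have hexp : IntegrableOn (fun u : ℝ => Real.exp (-(3 * u))) (Ioi 0) := by
    have := exp_neg_integrableOn_Ioi 0 (show (0 : ℝ) < 3 by norm_num)
    simpa [neg_mul] using this
  have hexp1 : IntegrableOn (fun u : ℝ => Real.exp (-u)) (Ioi 0) := by
    have := exp_neg_integrableOn_Ioi 0 (show (0 : ℝ) < 1 by norm_num)
    simpa [neg_mul] using this
  have hφi : ∀ a : ℝ, 0 ≤ a → IntegrableOn φ (Ioi a) := by
    intro a ha
    refine Integrable.mono' (g := fun u => C * Real.exp (-(3 * u))) ?_ hφ.aestronglyMeasurable ?_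
    · exact (hexp.mono_set (Ioi_subset_Ioi ha)).const_mul C
    · refine (ae_restrict_iff' measurableSet_Ioi).2 (ae_of_all _ fun u hu => ?_)
      have hu' : a < u := hu
      exact hC u (by linarith)
  refine ⟨?_, ?_⟩
  · refine Integrable.mono' (g := fun u => M * C * Real.exp (-u)) (hexp1.const_mul _)
      ((Complex.measurable_ofReal.comp m1).aestronglyMeasurable.mul hφ.aestronglyMeasurable) ?_
    refine (ae_restrict_iff' measurableSet_Ioi).2 (ae_of_all _ fun u hu => ?_)
    have hu' : (0 : ℝ) < u := hu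
    rw [norm_mul, Complex.norm_real, Real.norm_eq_abs]
    calc |AA d L u| * ‖φ u‖ ≤ (M * Real.exp (2 * u)) * (C * Real.exp (-(3 * u))) := by
          gcongr
          · exact m3 u
          · exact hC u hu'.le
      _ = M * C * (Real.exp (2 * u) * Real.exp (-(3 * u))) := by ring
      _ = _ := by rw [← Real.exp_add]; ring_nf
  · set Fi : ι → ℝ → ℂ := fun i u => if L i ≤ u then (d i : ℂ) * φ u else 0 with hFi
    have e1 : ∀ i, ∀ u, Fi i u = (Ici (L i)).indicator (fun u => (d i : ℂ) * φ u) u := by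
      intro i u
      rw [hFi]
      simp only [Set.indicator, mem_Ici]
    have i1 : ∀ i, IntegrableOn (Fi i) (Ioi 0) := by
      intro i
      have : Fi i = (Ici (L i)).indicator (fun u => (d i : ℂ) * φ u) := funext (e1 i)
      rw [this]
      exact ((hφi 0 le_rfl).const_mul _).indicator measurableSet_Ici
    have i2 : ∀ i, ∫ u in Ioi (0 : ℝ), Fi i u = (d i : ℂ) * ∫ u in Ioi (L i), φ u := by
      intro i
      have : Fi i = (Ici (L i)).indicator (fun u => (d i : ℂ) * φ u) := funext (e1 i)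
      rw [this, setIntegral_indicator measurableSet_Ici, ← integral_const_mul]
      refine setIntegral_congr_set ?_
      have h1 : (Ioi (0 : ℝ) ∩ Ici (L i) : Set ℝ) =ᵐ[volume] (Ici (0 : ℝ) ∩ Ici (L i) : Set ℝ) :=
        ae_eq_set_inter Ioi_ae_eq_Ici (ae_eq_refl _)
      refine h1.trans ?_
      have h2 : Ici (0 : ℝ) ∩ Ici (L i) = Ici (L i) := by
        rw [Ici_inter_Ici, sup_of_le_right (hL i)]
      rw [h2]
      exact Ioi_ae_eq_Ici.symm
    have i3 : ∀ i, ∫ u in Ioi (0 : ℝ), ‖Fi i u‖ ≤ C * (|d i| * Real.exp (-(2 * L i))) := by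
      intro i
      have hle : ∀ u ∈ Ioi (0 : ℝ), ‖Fi i u‖ ≤ C * (|d i| * Real.exp (-(2 * L i))) * Real.exp (-u) := by
        intro u hu
        have hu' : (0 : ℝ) < u := hu
        simp only [hFi]
        split_ifs with h
        · rw [norm_mul, Complex.norm_real, Real.norm_eq_abs]
          calc |d i| * ‖φ u‖ ≤ |d i| * (C * Real.exp (-(3 * u))) := by gcongr; exact hC u hu'.le
            _ = C * (|d i| * Real.exp (-(2 * u))) * Real.exp (-u) := by
                rw [show -(3 * u) = -(2 * u) + -u by ring, Real.exp_add]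
                ring
            _ ≤ C * (|d i| * Real.exp (-(2 * L i))) * Real.exp (-u) := by gcongr
        · rw [norm_zero]
          positivity
      calc ∫ u in Ioi (0 : ℝ), ‖Fi i u‖ ≤
          ∫ u in Ioi (0 : ℝ), C * (|d i| * Real.exp (-(2 * L i))) * Real.exp (-u) :=
            setIntegral_mono_on (i1 i).norm (hexp1.const_mul _) measurableSet_Ioi hle
        _ = C * (|d i| * Real.exp (-(2 * L i))) := by
            rw [integral_const_mul, integral_exp_neg_Ioi_zero, mul_one]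
    have hs : Summable fun i => ∫ u in Ioi (0 : ℝ), ‖Fi i u‖ :=
      Summable.of_nonneg_of_le (fun i => integral_nonneg fun u => norm_nonneg _) i3 (h2.mul_left C)
    have h := hasSum_integral_of_summable_integral_norm (F := Fi) (μ := volume.restrict (Ioi (0 : ℝ))) i1 hs
    have h3 : ∀ u : ℝ, ∑' i, Fi i u = (AA d L u : ℂ) * φ u := by
      intro u
      unfold AA
      rw [Complex.ofReal_tsum, ← tsum_mul_right]
      refine tsum_congr fun i => ?_
      simp only [hFi]
      split_ifs with h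
      · rfl
      · simp
    simp only [i2, h3] at h
    exact h.tsum_eq.symm

/-- `I_k(s) = ∫ A(u) u^k e^{-su} du` -/
noncomputable def Ik (d L : ι → ℝ) (k : ℕ) (s : ℂ) : ℂ :=
  ∫ u in Ioi (0 : ℝ), (AA d L u : ℂ) * ((u : ℂ) ^ k * cexp (-(s * u)))

/-- `B_k(s) = ∑ d(x) L(x)^k e^{-s L(x)}` -/
noncomputable def Bk (d L : ι → ℝ) (k : ℕ) (s : ℂ) : ℂ := DS (fun i => d i * L i ^ k) L s

theorem ker_bound (k : ℕ) {s : ℂ} (hs : 4 ≤ s.re) {u : ℝ} (hu : 0 ≤ u) :
    ‖(u : ℂ) ^ k * cexp (-(s * u))‖ ≤ (k.factorial : ℝ) * Real.exp (-(3 * u)) := by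
  have h1 := Real.pow_div_factorial_le_exp u hu k
  have hk : (0 : ℝ) < k.factorial := by positivity
  rw [div_le_iff₀ hk] at h1
  rw [norm_mul, norm_pow, Complex.norm_real, Real.norm_eq_abs, abs_of_nonneg hu, Complex.norm_exp]
  have h2 : (-(s * (u : ℂ))).re = -(s.re * u) := by simp
  rw [h2]
  calc u ^ k * Real.exp (-(s.re * u)) ≤ (Real.exp u * k.factorial) * Real.exp (-(4 * u)) := by
        gcongr
    _ = k.factorial * (Real.exp u * Real.exp (-(4 * u))) := by ring
    _ = _ := by rw [← Real.exp_add]; ring_nf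

theorem ker_cont (k : ℕ) (s : ℂ) : Continuous fun u : ℝ => (u : ℂ) ^ k * cexp (-(s * u)) := by fun_prop

theorem Ik_int (hL : ∀ i, 0 ≤ L i) (h2 : Summable fun i => |d i| * Real.exp (-(2 * L i))) (k : ℕ) {s : ℂ}
    (hs : 4 ≤ s.re) : IntegrableOn (fun u : ℝ => (AA d L u : ℂ) * ((u : ℂ) ^ k * cexp (-(s * u)))) (Ioi 0) :=
  (fubini hL h2 (ker_cont k s) (fun _ hu => ker_bound k hs hu)).1

theorem ker_deriv (k : ℕ) (s : ℂ) (u : ℝ) : HasDerivAt (fun u : ℝ => -((u : ℂ) ^ (k + 1) * cexp (-(s * u))))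
    (s * ((u : ℂ) ^ (k + 1) * cexp (-(s * u))) - (k + 1) * ((u : ℂ) ^ k * cexp (-(s * u)))) u := by
  have h0 : HasDerivAt (fun u : ℝ => (u : ℂ)) 1 u := Complex.ofRealCLM.hasDerivAt
  have h1 : HasDerivAt (fun u : ℝ => (u : ℂ) ^ (k + 1)) (((k + 1 : ℕ) : ℂ) * (u : ℂ) ^ k * 1) u := by
    have := h0.fun_pow (k + 1)
    simpa using this
  have h2 : HasDerivAt (fun u : ℝ => cexp (-(s * u))) (cexp (-(s * u)) * (-(s * 1))) u :=
    ((h0.const_mul s).fun_neg).cexp
  refine ((h1.fun_mul h2).fun_neg).congr_deriv ?_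
  push_cast
  ring

theorem ker_tendsto (k : ℕ) {s : ℂ} (hs : 4 ≤ s.re) :
    Tendsto (fun u : ℝ => -((u : ℂ) ^ k * cexp (-(s * u)))) atTop (𝓝 0) := by
  rw [tendsto_zero_iff_norm_tendsto_zero]
  have h1 : Tendsto (fun u : ℝ => (k.factorial : ℝ) * Real.exp (-(3 * u))) atTop (𝓝 0) := by
    rw [show (0 : ℝ) = k.factorial * 0 by ring]
    refine Tendsto.const_mul _ (Real.tendsto_exp_neg_atTop_nhds_zero.comp ?_)
    exact tendsto_id.const_mul_atTop (by norm_num : (0 : ℝ) < 3)
  refine squeeze_zero' (Eventually.of_forall fun _ => norm_nonneg _) ?_ h1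
  filter_upwards [eventually_ge_atTop (0 : ℝ)] with u hu
  rw [norm_neg]
  exact ker_bound k hs hu

/-- **the recursion** `s I_{k+1}(s) - (k + 1) I_k(s) = B_{k+1}(s)` -/
theorem Ik_rec (hL : ∀ i, 0 ≤ L i) (h2 : Summable fun i => |d i| * Real.exp (-(2 * L i))) (k : ℕ) {s : ℂ}
    (hs : 4 ≤ s.re) : s * Ik d L (k + 1) s - (k + 1) * Ik d L k s = Bk d L (k + 1) s := by
  have hk : (0 : ℝ) < (k + 1).factorial := by positivity
  set φ : ℝ → ℂ := fun u => s * ((u : ℂ) ^ (k + 1) * cexp (-(s * u))) -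
    (k + 1) * ((u : ℂ) ^ k * cexp (-(s * u))) with hφ
  have hc : Continuous φ := by fun_prop
  have hb : ∀ u : ℝ, 0 ≤ u → ‖φ u‖ ≤ (‖s‖ * (k + 1).factorial + (k + 1) * k.factorial) *
      Real.exp (-(3 * u)) := by
    intro u hu
    rw [hφ]
    refine (norm_sub_le _ _).trans ?_
    rw [norm_mul, norm_mul (_ + _)]
    have e1 := ker_bound (k + 1) hs hu
    have e2 := ker_bound k hs hu
    have e3 : ‖((k : ℂ) + 1)‖ = k + 1 := by
      rw [show ((k : ℂ) + 1) = (((k + 1 : ℕ) : ℝ) : ℂ) by push_cast; rfl, Complex.norm_real]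
      rw [Real.norm_eq_abs, abs_of_nonneg (by positivity)]
      push_cast; rfl
    rw [e3]
    have e4 := norm_nonneg s
    have e5 : (0 : ℝ) ≤ k := Nat.cast_nonneg k
    nlinarith [mul_le_mul_of_nonneg_left e1 e4, mul_le_mul_of_nonneg_left e2 (by linarith : (0 : ℝ) ≤ k + 1)]
  have h := (fubini hL h2 hc hb).2
  have e1 : ∫ u in Ioi (0 : ℝ), (AA d L u : ℂ) * φ u = s * Ik d L (k + 1) s - (k + 1) * Ik d L k s := by
    unfold Ik
    rw [← integral_const_mul, ← integral_const_mul, ← integral_sub]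
    · refine integral_congr_ae (ae_of_all _ fun u => ?_)
      simp only [hφ]
      ring
    · exact (Ik_int hL h2 (k + 1) hs).const_mul s
    · exact (Ik_int hL h2 k hs).const_mul _
  rw [← e1, h]
  unfold Bk DS
  refine tsum_congr fun i => ?_
  have hint : IntegrableOn φ (Ioi (L i)) := by
    refine Integrable.mono' (g := fun u => (‖s‖ * (k + 1).factorial + (k + 1) * k.factorial) *
      Real.exp (-(3 * u))) ?_ hc.aestronglyMeasurable ?_
    · have := exp_neg_integrableOn_Ioi (L i) (show (0 : ℝ) < 3 by norm_num)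
      have h3 : IntegrableOn (fun u : ℝ => Real.exp (-(3 * u))) (Ioi (L i)) := by simpa [neg_mul] using this
      exact h3.const_mul _
    · refine (ae_restrict_iff' measurableSet_Ioi).2 (ae_of_all _ fun u hu => ?_)
      have hu' : L i < u := hu
      exact hb u (by linarith [hL i])
  have h3 := integral_Ioi_of_hasDerivAt_of_tendsto (f := fun u : ℝ => -((u : ℂ) ^ (k + 1) * cexp (-(s * u))))
    (f' := φ) (a := L i) (m := 0) (by fun_prop) (fun u _ => ker_deriv k s u) hint (ker_tendsto (k + 1) hs)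
  rw [h3]
  push_cast
  ring

/-- `s I_0(s) = D(s)` -/
theorem Ik_zero (hL : ∀ i, 0 ≤ L i) (h2 : Summable fun i => |d i| * Real.exp (-(2 * L i))) {s : ℂ}
    (hs : 4 ≤ s.re) : s * Ik d L 0 s = DS d L s := by
  set φ : ℝ → ℂ := fun u => s * cexp (-(s * u)) with hφ
  have hc : Continuous φ := by fun_prop
  have hb : ∀ u : ℝ, 0 ≤ u → ‖φ u‖ ≤ ‖s‖ * Real.exp (-(3 * u)) := by
    intro u hu
    rw [hφ, norm_mul]
    have e1 := ker_bound 0 hs hu
    simp only [pow_zero, one_mul, Nat.factorial_zero, Nat.cast_one] at e1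
    gcongr
  have h := (fubini hL h2 hc hb).2
  have e1 : ∫ u in Ioi (0 : ℝ), (AA d L u : ℂ) * φ u = s * Ik d L 0 s := by
    unfold Ik
    rw [← integral_const_mul]
    refine integral_congr_ae (ae_of_all _ fun u => ?_)
    simp only [hφ]
    ring
  rw [← e1, h]
  unfold DS
  refine tsum_congr fun i => ?_
  have hint : IntegrableOn φ (Ioi (L i)) := by
    refine Integrable.mono' (g := fun u => ‖s‖ * Real.exp (-(3 * u))) ?_ hc.aestronglyMeasurable ?_
    · have := exp_neg_integrableOn_Ioi (L i) (show (0 : ℝ) < 3 by norm_num)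
      have h3 : IntegrableOn (fun u : ℝ => Real.exp (-(3 * u))) (Ioi (L i)) := by simpa [neg_mul] using this
      exact h3.const_mul _
    · refine (ae_restrict_iff' measurableSet_Ioi).2 (ae_of_all _ fun u hu => ?_)
      have hu' : L i < u := hu
      exact hb u (by linarith [hL i])
  have hd : ∀ u : ℝ, HasDerivAt (fun u : ℝ => -(cexp (-(s * u)))) (φ u) u := by
    intro u
    have h0 : HasDerivAt (fun u : ℝ => (u : ℂ)) 1 u := Complex.ofRealCLM.hasDerivAt
    refine ((((h0.const_mul s).fun_neg).cexp).fun_neg).congr_deriv ?_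
    simp only [hφ]
    ring
  have ht : Tendsto (fun u : ℝ => -(cexp (-(s * u)))) atTop (𝓝 0) := by
    have := ker_tendsto 0 hs
    simpa using this
  have h3 := integral_Ioi_of_hasDerivAt_of_tendsto (f := fun u : ℝ => -(cexp (-(s * u))))
    (f' := φ) (a := L i) (m := 0) (by fun_prop) (fun u _ => hd u) hint ht
  rw [h3]
  push_cast
  ring

end Pool.Agent.Q18.W
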