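import Mathlib
import Pool.Agent.TH443.TX.Extract
import Pool.Agent.Q18.W.Fub

/-! The Taylor coefficients of the logarithmic derivative and the singularities in a disc. -/

set_option autoImplicit false

open Complex MeasureTheory Set Filter Topology
open Pool.Agent.W189.TP (DS)
open Pool.Agent.TH949.TX (AA ZZ)
open Pool.Agent.TH443.TXExtract (ds_deriv near_exp)

namespace Pool.Agent.Q18.W

variable {ι : Type*} {d L : ι → ℝ}

theorem summ_pow (hL : ∀ i, 0 ≤ L i)
    (habs : ∀ t : ℝ, 1 < t → Summable fun i => |d i| * Real.exp (-(t * L i))) (k : ℕ) {t : ℝ} (ht : 1 < t) :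
    Summable fun i => |d i * L i ^ k| * Real.exp (-(t * L i)) := by
  set ε : ℝ := (t - 1) / 2 with hε
  have hε0 : 0 < ε := by rw [hε]; linarith
  have h1 := (habs (1 + ε) (by linarith)).mul_left (k.factorial / ε ^ k)
  refine Summable.of_nonneg_of_le (fun i => by positivity) (fun i => ?_) h1
  have h2 := Real.pow_div_factorial_le_exp (ε * L i) (mul_nonneg hε0.le (hL i)) k
  have hk : (0 : ℝ) < k.factorial := by positivity
  rw [div_le_iff₀ hk, mul_pow] at h2
  have h3 : L i ^ k ≤ k.factorial / ε ^ k * Real.exp (ε * L i) := by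
    rw [div_mul_eq_mul_div, le_div_iff₀ (by positivity)]
    linarith
  rw [abs_mul, abs_of_nonneg (pow_nonneg (hL i) k)]
  calc |d i| * L i ^ k * Real.exp (-(t * L i)) ≤
      |d i| * (k.factorial / ε ^ k * Real.exp (ε * L i)) * Real.exp (-(t * L i)) := by gcongr
    _ = k.factorial / ε ^ k * (|d i| * (Real.exp (ε * L i) * Real.exp (-(t * L i)))) := by ring
    _ = _ := by
        rw [← Real.exp_add]
        congr 3
        rw [hε]
        ring

theorem bk_deriv (hL : ∀ i, 0 ≤ L i)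
    (habs : ∀ t : ℝ, 1 < t → Summable fun i => |d i| * Real.exp (-(t * L i))) (k : ℕ) {s : ℂ} (hs : 1 < s.re) :
    deriv (Bk d L k) s = -Bk d L (k + 1) s := by
  unfold Bk
  rw [ds_deriv hL (fun t ht => summ_pow hL habs k ht) hs]
  unfold ZZ
  simp only [pow_succ, mul_assoc]

theorem bk_diff (hL : ∀ i, 0 ≤ L i)
    (habs : ∀ t : ℝ, 1 < t → Summable fun i => |d i| * Real.exp (-(t * L i))) (k : ℕ) :
    DifferentiableOn ℂ (Bk d L k) {s | 1 < s.re} :=
  Pool.Agent.W189.TP.DS_diff hL fun _ ht => summ_pow hL habs k ht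

theorem bk_iter (hL : ∀ i, 0 ≤ L i)
    (habs : ∀ t : ℝ, 1 < t → Summable fun i => |d i| * Real.exp (-(t * L i))) (j k : ℕ) {s : ℂ}
    (hs : 1 < s.re) : iteratedDeriv k (Bk d L j) s = (-1) ^ k * Bk d L (j + k) s := by
  induction k generalizing s with
  | zero => simp
  | succ k ih =>
    rw [iteratedDeriv_succ]
    have h1 : iteratedDeriv k (Bk d L j) =ᶠ[𝓝 s] fun w => (-1) ^ k * Bk d L (j + k) w := by
      filter_upwards [(isOpen_lt continuous_const Complex.continuous_re).mem_nhds hs] with w hw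
      exact ih hw
    rw [h1.deriv_eq, deriv_const_mul_field, bk_deriv hL habs (j + k) hs]
    rw [show j + (k + 1) = j + k + 1 by ring]
    ring

/-- the orders are finite -/
theorem order_ne_top {V : Set ℂ} (hVc : IsPreconnected V) {F : ℂ → ℂ} (hF : MeromorphicOn F V)
    (hL : ∀ i, 0 ≤ L i) (habs : ∀ t : ℝ, 1 < t → Summable fun i => |d i| * Real.exp (-(t * L i)))
    (hE : ∀ s : ℂ, 1 < s.re → F s = cexp (DS d L s)) {s1 : ℂ} (hs1 : 1 < s1.re) (hsV : s1 ∈ V) {u : ℂ}
    (hu : u ∈ V) : meromorphicOrderAt F u ≠ ⊤ := by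
  have hdiff := Pool.Agent.W189.TP.DS_diff hL habs
  have hop : IsOpen {s : ℂ | 1 < s.re} := isOpen_lt continuous_const Complex.continuous_re
  have h1 : AnalyticAt ℂ (fun w => cexp (DS d L w)) s1 := (hdiff.cexp).analyticAt (hop.mem_nhds hs1)
  have h2 : AnalyticAt ℂ F s1 := h1.congr (near_exp hE hs1).symm
  refine MeromorphicOn.meromorphicOrderAt_ne_top_of_isPreconnected hF hVc hsV hu ?_
  rw [h2.meromorphicOrderAt_eq, h2.analyticOrderAt_eq_zero.2 (by rw [hE s1 hs1]; exact Complex.exp_ne_zero _)]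
  simp

theorem order_zero {F : ℂ → ℂ}
    (hL : ∀ i, 0 ≤ L i) (habs : ∀ t : ℝ, 1 < t → Summable fun i => |d i| * Real.exp (-(t * L i)))
    (hE : ∀ s : ℂ, 1 < s.re → F s = cexp (DS d L s)) {s1 : ℂ} (hs1 : 1 < s1.re) :
    AnalyticAt ℂ F s1 ∧ meromorphicOrderAt F s1 = 0 := by
  have hdiff := Pool.Agent.W189.TP.DS_diff hL habs
  have hop : IsOpen {s : ℂ | 1 < s.re} := isOpen_lt continuous_const Complex.continuous_re
  have h1 : AnalyticAt ℂ (fun w => cexp (DS d L w)) s1 := (hdiff.cexp).analyticAt (hop.mem_nhds hs1)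
  have h2 : AnalyticAt ℂ F s1 := h1.congr (near_exp hE hs1).symm
  refine ⟨h2, ?_⟩
  rw [h2.meromorphicOrderAt_eq, h2.analyticOrderAt_eq_zero.2 (by rw [hE s1 hs1]; exact Complex.exp_ne_zero _)]
  simp

theorem iter_inv (k : ℕ) (u : ℂ) {s : ℂ} (hs : s - u ≠ 0) :
    iteratedDeriv k (fun w : ℂ => (w - u)⁻¹) s = (-1) ^ k * (k.factorial : ℂ) / (s - u) ^ (k + 1) := by
  have h := congrFun (iter_deriv_inv_linear_sub k (1 : ℂ) u) s
  rw [iteratedDeriv_eq_iterate]
  simp only [one_mul, one_pow, mul_one] at h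
  rw [h, div_eq_mul_inv]
  congr 1
  rw [show (-1 - (k : ℤ)) = -((k + 1 : ℕ) : ℤ) by push_cast; ring, zpow_neg, zpow_natCast]

/-- **the Taylor coefficients of `F'/F` and the singularities in a disc** -/
theorem ext_disc (hL : ∀ i, 0 ≤ L i) (habs : ∀ t : ℝ, 1 < t → Summable fun i => |d i| * Real.exp (-(t * L i)))
    {F : ℂ → ℂ} (hE : ∀ s : ℂ, 1 < s.re → F s = cexp (DS d L s)) {V : Set ℂ}
    (hVc : IsPreconnected V) (hF : MeromorphicOn F V) {s1 : ℂ} (hs1 : 1 < s1.re) {R : ℝ} (hR : 0 < R)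
    (hsub : Metric.closedBall s1 R ⊆ V) :
    ∃ (Z : Finset ℂ) (M : ℝ), 0 ≤ M ∧
      (∀ ρ ∈ Z, ρ ∈ Metric.closedBall s1 R ∧ meromorphicOrderAt F ρ ≠ 0) ∧
      (∀ ρ ∈ Metric.closedBall s1 R, meromorphicOrderAt F ρ ≠ 0 → ρ ∈ Z) ∧
      ∀ k : ℕ, ‖Bk d L (k + 1) s1 + ∑ ρ ∈ Z, ((meromorphicOrderAt F ρ).untop₀ : ℂ) *
        (k.factorial / (s1 - ρ) ^ (k + 1))‖ ≤ k.factorial * M / R ^ k := by
  classical
  have hdiff := Pool.Agent.W189.TP.DS_diff hL habs
  have hop : IsOpen {s : ℂ | 1 < s.re} := isOpen_lt continuous_const Complex.continuous_re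
  set U : Set ℂ := Metric.closedBall s1 R with hU
  have hs1U : s1 ∈ U := Metric.mem_closedBall_self hR.le
  have hUn : ∀ s ∈ Metric.ball s1 R, U ∈ 𝓝 s := fun s hs =>
    mem_of_superset (Metric.isOpen_ball.mem_nhds hs) Metric.ball_subset_closedBall
  have hFU : MeromorphicOn F U := fun z hz => hF z (hsub hz)
  have htop : ∀ u ∈ U, meromorphicOrderAt F u ≠ ⊤ := fun u hu =>
    order_ne_top hVc hF hL habs hE hs1 (hsub hs1U) (hsub hu)
  set D := MeromorphicOn.divisor F U with hD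
  have hfin : D.support.Finite := D.finiteSupport (isCompact_closedBall s1 R)
  have hDv : ∀ u ∈ U, D u = (meromorphicOrderAt F u).untop₀ := fun u hu => by
    rw [hD, MeromorphicOn.divisor_apply hFU hu]
  have hDc : ∀ u ∈ U, ((D u : ℤ) : WithTop ℤ) = meromorphicOrderAt F u := fun u hu => by
    rw [hDv u hu]
    exact WithTop.coe_untop₀_of_ne_top (htop u hu)
  obtain ⟨g, hg1, hg2, hg3⟩ := hFU.extract_zeros_poles (fun u => htop u u.2) hfin
  set S : Finset ℂ := hfin.toFinset with hS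
  have hSU : ∀ u ∈ S, u ∈ U ∧ D u ≠ 0 := fun u hu => by
    rw [hS, Set.Finite.mem_toFinset] at hu
    exact ⟨D.supportWithinDomain hu, hu⟩
  have hre : ∀ u ∈ S, u.re ≤ 1 := fun u hu => by
    by_contra hlt
    push Not at hlt
    have h1 := hDc u (hSU u hu).1
    rw [(order_zero hL habs hE hlt).2] at h1
    exact (hSU u hu).2 (by exact_mod_cast h1)
  have hφ : (∏ᶠ u, (fun z : ℂ => z - u) ^ D u) = ∏ u ∈ S, (fun z : ℂ => z - u) ^ D u := by
    refine finprod_eq_prod_of_mulSupport_subset _ fun u hu => ?_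
    rw [Finset.mem_coe, hS, Set.Finite.mem_toFinset, Function.mem_support]
    intro h0
    apply hu
    simp only
    rw [h0, zpow_zero]
  -- the logarithmic derivative near the centre
  have hlog : ∀ s ∈ Metric.ball s1 R, 1 < s.re →
      Bk d L 1 s = -(∑ u ∈ S, (D u : ℂ) * (s - u)⁻¹) - logDeriv g s := by
    intro s hsb h1
    have hsU : s ∈ U := Metric.ball_subset_closedBall hsb
    have hsN := hUn s hsb
    have hne : ∀ u ∈ S, s - u ≠ 0 := fun u hu h0 => by
      have h4 : s = u := sub_eq_zero.1 h0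
      have h5 := hre u hu
      rw [← h4] at h5
      linarith
    have hg0 := hg2 ⟨s, hsU⟩
    have hga := hg1 s hsU
    set P : ℂ → ℂ := fun z => ∏ u ∈ S, (fun w : ℂ => (w - u) ^ D u) z with hP
    have hfac : ∀ u ∈ S, DifferentiableAt ℂ (fun w : ℂ => (w - u) ^ D u) s := fun u hu =>
      (differentiableAt_id.sub_const u).zpow (Or.inl (hne u hu))
    have hfa : ∀ u ∈ S, AnalyticAt ℂ (fun w : ℂ => (w - u) ^ D u) s := fun u hu =>
      (analyticAt_id.sub analyticAt_const).fun_zpow (hne u hu)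
    have hPa : AnalyticAt ℂ P s := Finset.analyticAt_fun_prod S hfa
    have hfne : ∀ u ∈ S, (s - u) ^ D u ≠ 0 := fun u hu => zpow_ne_zero _ (hne u hu)
    have hPne : P s ≠ 0 := Finset.prod_ne_zero_iff.2 hfne
    have hev : ∀ᶠ z in 𝓝[≠] s, F z = P z * g z := by
      have h4 := (mem_codiscreteWithin.1 hg3) s hsU
      rw [Filter.disjoint_principal_right] at h4
      filter_upwards [h4, mem_nhdsWithin_of_mem_nhds hsN] with z hz hzU
      by_contra hcon
      apply hz
      refine ⟨hzU, fun hz2 => hcon ?_⟩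
      have h5 : F z = ((∏ᶠ u, (fun z : ℂ => z - u) ^ D u) • g) z := hz2
      rw [hφ] at h5
      rw [h5, Pi.smul_apply', smul_eq_mul, Finset.prod_apply]
      rfl
    have hev2 : F =ᶠ[𝓝 s] fun z => P z * g z :=
      (((order_zero hL habs hE h1).1).frequently_eq_iff_eventually_eq (hPa.mul hga)).1 hev.frequently
    have e1 : logDeriv F s = -Bk d L 1 s := by
      rw [logDeriv_apply, (near_exp hE h1).deriv_eq, hE s h1]
      have h4 : HasDerivAt (DS d L) (-Bk d L 1 s) s := by
        have h5 : -Bk d L 1 s = deriv (DS d L) s := by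
          rw [ds_deriv hL habs h1]
          unfold Bk ZZ
          simp
        rw [h5]
        exact (hdiff.differentiableAt (hop.mem_nhds h1)).hasDerivAt
      rw [h4.cexp.deriv]
      field_simp
    have e2 : logDeriv F s = ∑ u ∈ S, (D u : ℂ) / (s - u) + logDeriv g s := by
      have h4 : logDeriv F s = logDeriv (fun z => P z * g z) s := by
        rw [logDeriv_apply, logDeriv_apply, hev2.deriv_eq, hev2.eq_of_nhds]
      rw [h4, logDeriv_mul s hPne hg0 hPa.differentiableAt hga.differentiableAt]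
      congr 1
      rw [hP, logDeriv_prod (f := fun (u : ℂ) (w : ℂ) => (w - u) ^ D u) hfne hfac]
      refine Finset.sum_congr rfl fun u hu => ?_
      have h5 : HasDerivAt (fun w : ℂ => w - u) 1 s := (hasDerivAt_id s).sub_const u
      rw [logDeriv_fun_zpow (f := fun w : ℂ => w - u) h5.differentiableAt, logDeriv_apply,
        h5.deriv]
      ring
    simp only [div_eq_mul_inv] at e2
    rw [e1] at e2
    linear_combination -e2
  -- the function `logDeriv g` is analytic in the closed disc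
  have hga : AnalyticOnNhd ℂ (logDeriv g) U := by
    intro s hs
    have : logDeriv g = fun s => deriv g s / g s := by
      funext w; rw [logDeriv_apply]
    rw [this]
    exact (hg1 s hs).deriv.fun_div (hg1 s hs) (hg2 ⟨s, hs⟩)
  obtain ⟨M0, hM0⟩ := (isCompact_closedBall s1 R).exists_bound_of_continuousOn hga.continuousOn
  have hM0' : 0 ≤ M0 := (norm_nonneg _).trans (hM0 s1 hs1U)
  refine ⟨S, M0, hM0', fun ρ hρ => ⟨(hSU ρ hρ).1, ?_⟩, fun ρ hρ ho => ?_, fun k => ?_⟩
  · rw [← hDc ρ (hSU ρ hρ).1]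
    exact_mod_cast (hSU ρ hρ).2
  · rw [hS, Set.Finite.mem_toFinset, Function.mem_support]
    intro h0
    have h5 := hDc ρ hρ
    rw [h0] at h5
    exact ho (by rw [← h5]; rfl)
  · have hne : ∀ u ∈ S, s1 - u ≠ 0 := fun u hu h0 => by
      have h4 : s1 = u := sub_eq_zero.1 h0
      have h5 := hre u hu
      rw [← h4] at h5
      linarith
    have hev : Bk d L 1 =ᶠ[𝓝 s1] fun s => -(∑ u ∈ S, (D u : ℂ) * (s - u)⁻¹) - logDeriv g s := by
      filter_upwards [hop.mem_nhds hs1, Metric.ball_mem_nhds s1 hR] with s h1 h2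
      exact hlog s h2 h1
    have e1 : iteratedDeriv k (Bk d L 1) s1 = (-1) ^ k * Bk d L (k + 1) s1 := by
      rw [bk_iter hL habs 1 k hs1, add_comm 1 k]
    have hinv : ∀ u ∈ S, ContDiffAt ℂ k (fun s : ℂ => (s - u)⁻¹) s1 := fun u hu =>
      (contDiffAt_id.sub contDiffAt_const).inv (hne u hu)
    have e2 : iteratedDeriv k (Bk d L 1) s1 =
        -(∑ u ∈ S, (D u : ℂ) * ((-1) ^ k * (k.factorial : ℂ) / (s1 - u) ^ (k + 1))) -
          iteratedDeriv k (logDeriv g) s1 := by
      rw [hev.iteratedDeriv_eq k]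
      have hsum : ContDiffAt ℂ k (fun s : ℂ => ∑ u ∈ S, (D u : ℂ) * (s - u)⁻¹) s1 :=
        ContDiffAt.sum fun u hu => contDiffAt_const.mul (hinv u hu)
      have hgc : ContDiffAt ℂ k (logDeriv g) s1 := (hga s1 hs1U).contDiffAt
      rw [iteratedDeriv_fun_sub hsum.neg hgc, iteratedDeriv_fun_neg,
        iteratedDeriv_fun_sum (fun u hu => contDiffAt_const.mul (hinv u hu))]
      congr 2
      refine Finset.sum_congr rfl fun u hu => ?_
      rw [iteratedDeriv_const_mul_field, iter_inv k u (hne u hu)]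
    have e3 : Bk d L (k + 1) s1 + ∑ ρ ∈ S, ((meromorphicOrderAt F ρ).untop₀ : ℂ) *
        (k.factorial / (s1 - ρ) ^ (k + 1)) = -((-1) ^ k * iteratedDeriv k (logDeriv g) s1) := by
      have h5 : ∑ ρ ∈ S, ((meromorphicOrderAt F ρ).untop₀ : ℂ) * (k.factorial / (s1 - ρ) ^ (k + 1)) =
          (-1) ^ k * ∑ u ∈ S, (D u : ℂ) * ((-1) ^ k * (k.factorial : ℂ) / (s1 - u) ^ (k + 1)) := by
        rw [Finset.mul_sum]
        refine Finset.sum_congr rfl fun u hu => ?_
        rw [← hDv u (hSU u hu).1]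
        have h6 : ((-1 : ℂ)) ^ k * (-1) ^ k = 1 := by
          rw [← mul_pow]; norm_num
        linear_combination (-(D u : ℂ) * (k.factorial / (s1 - u) ^ (k + 1))) * h6
      have h6 : ((-1 : ℂ)) ^ k * (-1) ^ k = 1 := by
        rw [← mul_pow]; norm_num
      rw [h5]
      rw [e1] at e2
      linear_combination ((-1) ^ k) * e2 - (Bk d L (k + 1) s1) * h6
    rw [e3, norm_neg, norm_mul, norm_pow, norm_neg, norm_one, one_pow, one_mul]
    refine Complex.norm_iteratedDeriv_le_of_forall_mem_sphere_norm_le k hR ?_ fun z hz =>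
      hM0 z (Metric.sphere_subset_closedBall hz)
    have h7 : DifferentiableOn ℂ (logDeriv g) (closure (Metric.ball s1 R)) := by
      rw [closure_ball s1 hR.ne']
      exact hga.differentiableOn
    exact h7.diffContOnCl

end Pool.Agent.Q18.W
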