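import Mathlib
import Pool.Agent.Q18.W.Ext

/-! The weight `u^k e^{-σu}` is concentrated on a window. -/

set_option autoImplicit false

open Complex MeasureTheory Set Filter Topology
open Pool.Agent.W189.TP (DS)
open Pool.Agent.TH949.TX (AA)

namespace Pool.Agent.Q18.W

variable {ι : Type*} [Countable ι] {d L : ι → ℝ}

theorem pw_int (k : ℕ) {a : ℝ} (ha : 0 < a) :
    IntegrableOn (fun u : ℝ => u ^ k * Real.exp (-(a * u))) (Ioi 0) ∧
    ∫ u in Ioi (0 : ℝ), u ^ k * Real.exp (-(a * u)) = k.factorial / a ^ (k + 1) := by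
  have h1 := Real.integral_rpow_mul_exp_neg_mul_Ioi (a := (k : ℝ) + 1) (r := a) (by positivity) ha
  have e1 : ∀ u ∈ Ioi (0 : ℝ), u ^ ((k : ℝ) + 1 - 1) * Real.exp (-(a * u)) = u ^ k * Real.exp (-(a * u)) := by
    intro u _
    rw [add_sub_cancel_right, Real.rpow_natCast]
  rw [setIntegral_congr_fun measurableSet_Ioi e1, Real.Gamma_nat_eq_factorial] at h1
  have h2 : ∫ u in Ioi (0 : ℝ), u ^ k * Real.exp (-(a * u)) = k.factorial / a ^ (k + 1) := by
    rw [h1, show (k : ℝ) + 1 = ((k + 1 : ℕ) : ℝ) by push_cast; rfl, Real.rpow_natCast, one_div, inv_pow]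
    ring
  refine ⟨?_, h2⟩
  by_contra hcon
  rw [integral_undef hcon] at h2
  have : (0 : ℝ) < k.factorial / a ^ (k + 1) := by positivity
  linarith

/-- the real integrals -/
noncomputable def aF (f : ℝ → ℝ) (k : ℕ) (σ : ℝ) : ℝ :=
  ∫ u in Ioi (0 : ℝ), f u * (u ^ k * Real.exp (-(σ * u)))

/-- the integrals of the negative part -/
noncomputable def nF (f : ℝ → ℝ) (k : ℕ) (σ : ℝ) : ℝ :=
  ∫ u in Ioi (0 : ℝ), max (-f u) 0 * (u ^ k * Real.exp (-(σ * u)))

/-- measurable functions of exponential growth -/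
structure Gro (f : ℝ → ℝ) (M : ℝ) : Prop where
  meas : Measurable f
  pos : 0 ≤ M
  le : ∀ u : ℝ, 0 ≤ u → |f u| ≤ M * Real.exp (2 * u)

theorem AA_gro (hL : ∀ i, 0 ≤ L i) (h2 : Summable fun i => |d i| * Real.exp (-(2 * L i))) :
    Gro (AA d L) (∑' i, |d i| * Real.exp (-(2 * L i))) := by
  obtain ⟨m1, -, m3⟩ := Pool.Agent.TH113.TXS_AA.t_AA hL h2
  exact ⟨m1, tsum_nonneg fun i => by positivity, fun u _ => m3 u⟩

omit [Countable ι] in
theorem kr_eq (k : ℕ) (σ u : ℝ) : (AA d L u : ℂ) * ((u : ℂ) ^ k * cexp (-((σ : ℂ) * u))) =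
    ((AA d L u * (u ^ k * Real.exp (-(σ * u))) : ℝ) : ℂ) := by
  push_cast
  rfl

omit [Countable ι] in
theorem Ik_real (k : ℕ) (σ : ℝ) : Ik d L k (σ : ℂ) = (aF (AA d L) k σ : ℂ) := by
  unfold Ik aF
  simp only [kr_eq]
  exact integral_ofReal

theorem F_int {f : ℝ → ℝ} {M : ℝ} (hf : Gro f M) (k : ℕ) {σ : ℝ}
    (hσ : 4 ≤ σ) : IntegrableOn (fun u : ℝ => f u * (u ^ k * Real.exp (-(σ * u)))) (Ioi 0) := by
  obtain ⟨i1, -⟩ := pw_int k (show 0 < σ - 2 by linarith)
  refine Integrable.mono' (i1.const_mul M) ?_ ?_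
  · refine Measurable.aestronglyMeasurable ?_
    refine hf.meas.mul ?_
    fun_prop
  · refine (ae_restrict_iff' measurableSet_Ioi).2 (ae_of_all _ fun u hu => ?_)
    have hu' : (0 : ℝ) < u := hu
    have h3 : 0 ≤ u ^ k * Real.exp (-(σ * u)) := by positivity
    rw [norm_mul, Real.norm_of_nonneg h3, Real.norm_eq_abs]
    calc |f u| * (u ^ k * Real.exp (-(σ * u))) ≤ M * Real.exp (2 * u) * (u ^ k * Real.exp (-(σ * u))) := by
          gcongr
          exact hf.le u hu'.le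
      _ = M * (u ^ k * (Real.exp (2 * u) * Real.exp (-(σ * u)))) := by ring
      _ = _ := by rw [← Real.exp_add]; ring_nf

theorem N_int {f : ℝ → ℝ} {M : ℝ} (hf : Gro f M) (k : ℕ) {σ : ℝ}
    (hσ : 4 ≤ σ) : IntegrableOn (fun u : ℝ => max (-f u) 0 * (u ^ k * Real.exp (-(σ * u)))) (Ioi 0) := by
  refine Integrable.mono' (F_int hf k hσ).norm ?_ ?_
  · refine Measurable.aestronglyMeasurable ?_
    refine (hf.meas.neg.max measurable_const).mul ?_
    fun_prop
  · refine (ae_restrict_iff' measurableSet_Ioi).2 (ae_of_all _ fun u hu => ?_)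
    have hu' : (0 : ℝ) < u := hu
    have h3 : 0 ≤ u ^ k * Real.exp (-(σ * u)) := by positivity
    rw [norm_mul (max (-f u) 0) _, norm_mul (f u) _, Real.norm_of_nonneg h3, Real.norm_eq_abs,
      Real.norm_eq_abs, abs_of_nonneg (le_max_right _ _)]
    gcongr
    exact max_le (neg_le_abs _) (abs_nonneg _)

/-- the integral at a complex point is bounded by the one at the real part and the negative part -/
theorem Ik_le (hL : ∀ i, 0 ≤ L i) (h2 : Summable fun i => |d i| * Real.exp (-(2 * L i))) (k : ℕ) {s : ℂ}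
    (hs : 4 ≤ s.re) : ‖Ik d L k s‖ ≤ aF (AA d L) k s.re + 2 * nF (AA d L) k s.re := by
  have hf := AA_gro hL h2
  have h1 : ‖Ik d L k s‖ ≤ ∫ u in Ioi (0 : ℝ), ‖(AA d L u : ℂ) * ((u : ℂ) ^ k * cexp (-(s * u)))‖ :=
    norm_integral_le_integral_norm _
  refine h1.trans_eq ?_
  unfold aF nF
  rw [← integral_const_mul, ← integral_add (F_int hf k hs) ((N_int hf k hs).const_mul 2)]
  refine setIntegral_congr_fun measurableSet_Ioi fun u hu => ?_
  have hu' : (0 : ℝ) < u := hu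
  simp only [norm_mul, norm_pow, Complex.norm_real, Real.norm_eq_abs, abs_of_pos hu', Complex.norm_exp]
  have e2 : (-(s * (u : ℂ))).re = -(s.re * u) := by simp
  rw [e2]
  have e3 : |AA d L u| = AA d L u + 2 * max (-AA d L u) 0 := by
    rcases le_total 0 (AA d L u) with h | h
    · rw [abs_of_nonneg h, max_eq_right (by linarith)]
      ring
    · rw [abs_of_nonpos h, max_eq_left (by linarith)]
      ring
  rw [e3]
  ring

theorem aF_ge {f : ℝ → ℝ} {M : ℝ} (hf : Gro f M) (k : ℕ) {σ : ℝ}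
    (hσ : 4 ≤ σ) : -nF f k σ ≤ aF f k σ := by
  unfold aF nF
  rw [← integral_neg]
  refine setIntegral_mono_on (N_int hf k hσ).neg (F_int hf k hσ) measurableSet_Ioi fun u hu => ?_
  have hu' : (0 : ℝ) < u := hu
  have h3 : 0 ≤ u ^ k * Real.exp (-(σ * u)) := by positivity
  have h4 : -max (-f u) 0 ≤ f u := by
    have := le_max_left (-f u) 0
    linarith
  nlinarith [mul_le_mul_of_nonneg_right h4 h3]

/-- the negative part under a lower bound in a window -/
theorem neg_le {f : ℝ → ℝ} {M : ℝ} (hf : Gro f M) {W c θ a b : ℝ}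
    (hW : 0 ≤ W) (hθ : 0 ≤ θ) (hwin : ∀ u : ℝ, a ≤ u → u ≤ b → -f u ≤ W * Real.exp (c * u)) {u : ℝ}
    (hu : 0 ≤ u) : max (-f u) 0 ≤ W * Real.exp (c * u) + M *
      (Real.exp (θ * a) * Real.exp (-((θ - 2) * u)) + Real.exp (-(θ * b)) * Real.exp ((2 + θ) * u)) := by
  have hM0 := hf.pos
  have h3 : -f u ≤ M * Real.exp (2 * u) := (neg_le_abs _).trans (hf.le u hu)
  have p1 : 0 ≤ W * Real.exp (c * u) := by positivity
  have e1 : Real.exp (θ * a) * Real.exp (-((θ - 2) * u)) = Real.exp (2 * u) * Real.exp (θ * (a - u)) := by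
    rw [← Real.exp_add, ← Real.exp_add]; ring_nf
  have e2 : Real.exp (-(θ * b)) * Real.exp ((2 + θ) * u) = Real.exp (2 * u) * Real.exp (θ * (u - b)) := by
    rw [← Real.exp_add, ← Real.exp_add]; ring_nf
  rw [e1, e2]
  have p2 : 0 < Real.exp (2 * u) := Real.exp_pos _
  have p3 : 0 < Real.exp (θ * (a - u)) := Real.exp_pos _
  have p4 : 0 < Real.exp (θ * (u - b)) := Real.exp_pos _
  refine max_le ?_ (by positivity)
  rcases lt_or_ge u a with h | h
  · have h4 : 1 ≤ Real.exp (θ * (a - u)) := Real.one_le_exp (mul_nonneg hθ (by linarith))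
    have h5 : M * Real.exp (2 * u) ≤ M * (Real.exp (2 * u) * Real.exp (θ * (a - u)) +
        Real.exp (2 * u) * Real.exp (θ * (u - b))) := by
      gcongr
      nlinarith
    linarith
  · rcases lt_or_ge b u with h' | h'
    · have h4 : 1 ≤ Real.exp (θ * (u - b)) := Real.one_le_exp (mul_nonneg hθ (by linarith))
      have h5 : M * Real.exp (2 * u) ≤ M * (Real.exp (2 * u) * Real.exp (θ * (a - u)) +
          Real.exp (2 * u) * Real.exp (θ * (u - b))) := by
        gcongr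
        nlinarith
      linarith
    · have h4 := hwin u h h'
      have h5 : 0 ≤ M * (Real.exp (2 * u) * Real.exp (θ * (a - u)) +
          Real.exp (2 * u) * Real.exp (θ * (u - b))) := by positivity
      linarith

theorem N_le {f : ℝ → ℝ} {M : ℝ} (hf : Gro f M) {W c θ a b σ : ℝ}
    (hW : 0 ≤ W) (hθ : 0 ≤ θ) (hwin : ∀ u : ℝ, a ≤ u → u ≤ b → -f u ≤ W * Real.exp (c * u))
    (hσ : 4 ≤ σ) (hc : c < σ) (hθσ : 2 + θ < σ) (k : ℕ) :
    nF f k σ ≤ k.factorial * (W / (σ - c) ^ (k + 1) + M *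
      (Real.exp (θ * a) / (σ - 2 + θ) ^ (k + 1) + Real.exp (-(θ * b)) / (σ - 2 - θ) ^ (k + 1))) := by
  obtain ⟨i1, j1⟩ := pw_int k (show 0 < σ - c by linarith)
  obtain ⟨i2, j2⟩ := pw_int k (show 0 < σ - 2 + θ by linarith)
  obtain ⟨i3, j3⟩ := pw_int k (show 0 < σ - 2 - θ by linarith)
  have hle : ∀ u ∈ Ioi (0 : ℝ), max (-f u) 0 * (u ^ k * Real.exp (-(σ * u))) ≤
      W * (u ^ k * Real.exp (-((σ - c) * u))) + (M * Real.exp (θ * a) * (u ^ k * Real.exp (-((σ - 2 + θ) * u))) +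
        M * Real.exp (-(θ * b)) * (u ^ k * Real.exp (-((σ - 2 - θ) * u)))) := by
    intro u hu
    have hu' : (0 : ℝ) < u := hu
    have h3 : 0 ≤ u ^ k * Real.exp (-(σ * u)) := by positivity
    have h4 := mul_le_mul_of_nonneg_right (neg_le hf hW hθ hwin hu'.le) h3
    refine h4.trans_eq ?_
    have e1 : Real.exp (-((σ - c) * u)) = Real.exp (c * u) * Real.exp (-(σ * u)) := by
      rw [← Real.exp_add]; ring_nf
    have e2 : Real.exp (-((σ - 2 + θ) * u)) = Real.exp (-((θ - 2) * u)) * Real.exp (-(σ * u)) := by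
      rw [← Real.exp_add]; ring_nf
    have e3 : Real.exp (-((σ - 2 - θ) * u)) = Real.exp ((2 + θ) * u) * Real.exp (-(σ * u)) := by
      rw [← Real.exp_add]; ring_nf
    rw [e1, e2, e3]
    ring
  have hint2 : IntegrableOn (fun u : ℝ => M * Real.exp (θ * a) * (u ^ k * Real.exp (-((σ - 2 + θ) * u))) +
      M * Real.exp (-(θ * b)) * (u ^ k * Real.exp (-((σ - 2 - θ) * u)))) (Ioi 0) :=
    (i2.const_mul (M * Real.exp (θ * a))).add (i3.const_mul (M * Real.exp (-(θ * b))))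
  have hint : IntegrableOn (fun u : ℝ => W * (u ^ k * Real.exp (-((σ - c) * u))) +
      (M * Real.exp (θ * a) * (u ^ k * Real.exp (-((σ - 2 + θ) * u))) +
      M * Real.exp (-(θ * b)) * (u ^ k * Real.exp (-((σ - 2 - θ) * u))))) (Ioi 0) :=
    (i1.const_mul W).add hint2
  have h5 : nF f k σ ≤ ∫ u in Ioi (0 : ℝ), (W * (u ^ k * Real.exp (-((σ - c) * u))) +
      (M * Real.exp (θ * a) * (u ^ k * Real.exp (-((σ - 2 + θ) * u))) +
        M * Real.exp (-(θ * b)) * (u ^ k * Real.exp (-((σ - 2 - θ) * u))))) :=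
    setIntegral_mono_on (N_int hf k hσ) hint measurableSet_Ioi hle
  refine h5.trans_eq ?_
  rw [integral_add (i1.const_mul W) hint2, integral_add (i2.const_mul (M * Real.exp (θ * a)))
    (i3.const_mul (M * Real.exp (-(θ * b)))), integral_const_mul, integral_const_mul, integral_const_mul,
    j1, j2, j3]
  ring

/-- the parameters -/
noncomputable def th (δ : ℝ) : ℝ := 8 / δ
noncomputable def sg (δ : ℝ) : ℝ := (8 / δ + 2) * (8 / δ + 3)
noncomputable def kk (δ U : ℝ) : ℕ := ⌊sg δ * (1 - δ / 2) * U⌋₊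

theorem th_ge {δ : ℝ} (h0 : 0 < δ) (h1 : δ < 1) : 8 ≤ th δ := by
  unfold th
  rw [le_div_iff₀ h0]
  linarith

theorem sg_ge {δ : ℝ} (h0 : 0 < δ) (h1 : δ < 1) : 110 ≤ sg δ := by
  have := th_ge h0 h1
  unfold th at this
  unfold sg
  nlinarith

theorem kk_spec {δ U : ℝ} (h0 : 0 < δ) (h1 : δ < 1) (hU : 0 ≤ U) {k : ℕ} (hk : k = kk δ U ∨ k = kk δ U + 1) :
    sg δ * (1 - δ / 2) * U ≤ k + 1 ∧ (k : ℝ) + 1 ≤ sg δ * (1 - δ / 2) * U + 2 := by
  have hs := sg_ge h0 h1
  have hx : 0 ≤ sg δ * (1 - δ / 2) * U := mul_nonneg (mul_nonneg (by linarith) (by linarith)) hU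
  have e1 := Nat.floor_le hx
  have e2 := Nat.lt_floor_add_one (sg δ * (1 - δ / 2) * U)
  unfold kk at hk
  rcases hk with rfl | rfl
  · constructor <;> linarith
  · push_cast
    constructor <;> linarith

theorem pow_exp {x y : ℝ} (hx : 0 < x) (hy : 0 < y) (n : ℕ) : 1 / y ^ n ≤ Real.exp (n * ((x - y) / y)) / x ^ n := by
  rw [div_le_div_iff₀ (by positivity) (by positivity), one_mul]
  have h1 : x / y ≤ Real.exp ((x - y) / y) := by
    have := Real.add_one_le_exp ((x - y) / y)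
    have e : (x - y) / y + 1 = x / y := by field_simp; ring
    rwa [e] at this
  have h2 : (x / y) ^ n ≤ Real.exp (n * ((x - y) / y)) := by
    rw [Real.exp_nat_mul]
    exact pow_le_pow_left₀ (by positivity) h1 n
  rw [div_pow, div_le_iff₀ (by positivity)] at h2
  exact h2

/-- the weight outside of the window -/
theorem tail_le {δ U : ℝ} (h0 : 0 < δ) (h1 : δ < 1) (hU : 0 ≤ U) {k : ℕ} (hk : k = kk δ U ∨ k = kk δ U + 1) :
    Real.exp (th δ * ((1 - δ) * U)) / (sg δ - 2 + th δ) ^ (k + 1) +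
      Real.exp (-(th δ * U)) / (sg δ - 2 - th δ) ^ (k + 1) ≤ 2 * Real.exp (1 - U) / sg δ ^ (k + 1) := by
  obtain ⟨k1, k2⟩ := kk_spec h0 h1 hU hk
  have ht := th_ge h0 h1
  have hs := sg_ge h0 h1
  have hdt : th δ * δ = 8 := by unfold th; field_simp
  have hsg : sg δ = (th δ + 2) * (th δ + 3) := rfl
  set t := th δ with ht'
  set σ := sg δ with hσ'
  have a1 := pow_exp (x := σ) (y := σ - 2 + t) (by linarith) (by linarith) (k + 1)
  have hy2 : 0 < σ - 2 - t := by rw [hsg]; nlinarith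
  have a2 := pow_exp (x := σ) (y := σ - 2 - t) (by linarith) hy2 (k + 1)
  have hp : (0 : ℝ) < σ ^ (k + 1) := by positivity
  -- first
  have b1 : t * ((1 - δ) * U) + ((k + 1 : ℕ) : ℝ) * ((σ - (σ - 2 + t)) / (σ - 2 + t)) ≤ 1 - U := by
    have c1 : (σ - (σ - 2 + t)) / (σ - 2 + t) = -((t - 2) / (σ - 2 + t)) := by ring
    rw [c1]
    have hy1 : 0 < σ - 2 + t := by linarith
    have c2 : 0 ≤ (t - 2) / (σ - 2 + t) := div_nonneg (by linarith) hy1.le
    have c3 : σ * (1 - δ / 2) * U * ((t - 2) / (σ - 2 + t)) ≤ ((k + 1 : ℕ) : ℝ) * ((t - 2) / (σ - 2 + t)) := by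
      gcongr
      push_cast
      exact k1
    have c4 : (t - 7) * (σ - 2 + t) ≤ σ * (1 - δ / 2) * (t - 2) := by
      have : σ * (1 - δ / 2) * (t - 2) = σ * (t - 6 + δ) := by
        linear_combination (-(σ / 2)) * hdt
      rw [this]
      have q1 : (t - 7) * (t - 2) ≤ σ := by rw [hsg]; nlinarith
      nlinarith [mul_nonneg (show 0 ≤ σ by linarith) h0.le]
    have c5 : t - 7 ≤ σ * (1 - δ / 2) * (t - 2) / (σ - 2 + t) := by
      rwa [le_div_iff₀ hy1]
    have c6 : (t - 7) * U ≤ σ * (1 - δ / 2) * U * ((t - 2) / (σ - 2 + t)) := by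
      calc (t - 7) * U ≤ σ * (1 - δ / 2) * (t - 2) / (σ - 2 + t) * U := by gcongr
        _ = _ := by ring
    have c7 : t * ((1 - δ) * U) = t * U - 8 * U := by linear_combination (-U) * hdt
    rw [c7]
    linarith
  -- second
  have b2 : -(t * U) + ((k + 1 : ℕ) : ℝ) * ((σ - (σ - 2 - t)) / (σ - 2 - t)) ≤ 1 - U := by
    have c0 : σ - 2 - t = (t + 2) ^ 2 := by rw [hsg]; ring
    have c1 : (σ - (σ - 2 - t)) / (σ - 2 - t) = 1 / (t + 2) := by
      rw [c0, show σ - (t + 2) ^ 2 = t + 2 by rw [← c0]; ring]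
      field_simp
    rw [c1]
    have hp2 : 0 < 1 / (t + 2) := by positivity
    have c3 : ((k + 1 : ℕ) : ℝ) * (1 / (t + 2)) ≤ (σ * (1 - δ / 2) * U + 2) * (1 / (t + 2)) := by
      gcongr
      push_cast
      exact k2
    have c4 : (σ * (1 - δ / 2) * U + 2) * (1 / (t + 2)) = (t + 3) * (1 - δ / 2) * U + 2 / (t + 2) := by
      rw [hsg]
      field_simp
    have c5 : 2 / (t + 2) ≤ 1 := by
      rw [div_le_one (by linarith)]
      linarith
    have c6 : (t + 3) * (1 - δ / 2) * U = (t - 1) * U - 3 / 2 * δ * U := by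
      linear_combination (-(U / 2)) * hdt
    rw [c4, c6] at c3
    have c7 : 0 ≤ 3 / 2 * δ * U := by positivity
    linarith
  calc Real.exp (t * ((1 - δ) * U)) / (σ - 2 + t) ^ (k + 1) + Real.exp (-(t * U)) / (σ - 2 - t) ^ (k + 1)
      = Real.exp (t * ((1 - δ) * U)) * (1 / (σ - 2 + t) ^ (k + 1)) +
        Real.exp (-(t * U)) * (1 / (σ - 2 - t) ^ (k + 1)) := by ring
    _ ≤ Real.exp (t * ((1 - δ) * U)) *
          (Real.exp (((k + 1 : ℕ) : ℝ) * ((σ - (σ - 2 + t)) / (σ - 2 + t))) / σ ^ (k + 1)) +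
        Real.exp (-(t * U)) *
          (Real.exp (((k + 1 : ℕ) : ℝ) * ((σ - (σ - 2 - t)) / (σ - 2 - t))) / σ ^ (k + 1)) := by
        gcongr
    _ = Real.exp (t * ((1 - δ) * U) + ((k + 1 : ℕ) : ℝ) * ((σ - (σ - 2 + t)) / (σ - 2 + t))) / σ ^ (k + 1) +
        Real.exp (-(t * U) + ((k + 1 : ℕ) : ℝ) * ((σ - (σ - 2 - t)) / (σ - 2 - t))) / σ ^ (k + 1) := by
        rw [Real.exp_add, Real.exp_add]
        ring
    _ ≤ Real.exp (1 - U) / σ ^ (k + 1) + Real.exp (1 - U) / σ ^ (k + 1) := by gcongr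
    _ = _ := by ring

/-- **the negative part, if there is a lower bound in the window** -/
theorem N_win {f : ℝ → ℝ} {M : ℝ} (hf : Gro f M) {δ U W c : ℝ}
    (h0 : 0 < δ) (h1 : δ < 1) (hU : 0 ≤ U) (hW : 0 ≤ W) (hc : c < sg δ)
    (hwin : ∀ u : ℝ, (1 - δ) * U ≤ u → u ≤ U → -f u ≤ W * Real.exp (c * u)) {k : ℕ}
    (hk : k = kk δ U ∨ k = kk δ U + 1) :
    nF f k (sg δ) ≤ k.factorial * (W / (sg δ - c) ^ (k + 1) +
      M * (2 * Real.exp (1 - U) / sg δ ^ (k + 1))) := by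
  have ht := th_ge h0 h1
  have hs := sg_ge h0 h1
  have hsg : sg δ = (th δ + 2) * (th δ + 3) := rfl
  refine (N_le hf hW (show 0 ≤ th δ by linarith) hwin (by linarith) hc (by rw [hsg]; nlinarith) k).trans ?_
  have hM0 := hf.pos
  gcongr
  exact tail_le h0 h1 hU hk

end Pool.Agent.Q18.W
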