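import Mathlib
import Pool.Agent.Q18.W.Tail

/-! The normalised integrals `S_k = σ^(k+1) / k! ∫ A(u) u^k e^{-σu} du`. -/

set_option autoImplicit false

open Complex MeasureTheory Set Filter Topology
open Pool.Agent.W189.TP (DS)
open Pool.Agent.TH949.TX (AA)

namespace Pool.Agent.Q18.W

variable {ι : Type*} [Countable ι] {d L : ι → ℝ}

/-- `σ^(k+1) / k! ∫ f(u) u^k e^{-σu} du` -/
noncomputable def Sk (f : ℝ → ℝ) (σ : ℝ) (k : ℕ) : ℝ := σ ^ (k + 1) * aF f k σ / k.factorial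

theorem Sk_rec (hL : ∀ i, 0 ≤ L i) (h2 : Summable fun i => |d i| * Real.exp (-(2 * L i))) {σ : ℝ} (hσ : 4 ≤ σ)
    (k : ℕ) : Sk (AA d L) σ (k + 1) = Sk (AA d L) σ k +
      σ ^ (k + 1) * (Bk d L (k + 1) (σ : ℂ)).re / (k + 1).factorial := by
  have h := Ik_rec hL h2 k (s := (σ : ℂ)) (by simpa using hσ)
  rw [Ik_real, Ik_real] at h
  have h1 : (Bk d L (k + 1) (σ : ℂ)).re = σ * aF (AA d L) (k + 1) σ - (k + 1) * aF (AA d L) k σ := by
    rw [← h]
    have : (σ : ℂ) * (aF (AA d L) (k + 1) σ : ℂ) - ((k : ℂ) + 1) * (aF (AA d L) k σ : ℂ) =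
        ((σ * aF (AA d L) (k + 1) σ - (k + 1) * aF (AA d L) k σ : ℝ) : ℂ) := by
      push_cast; ring
    rw [this, Complex.ofReal_re]
  rw [h1]
  unfold Sk
  have hk : (k.factorial : ℝ) ≠ 0 := by positivity
  have hk1 : ((k + 1).factorial : ℝ) = (k + 1) * k.factorial := by
    rw [Nat.factorial_succ]; push_cast; rfl
  rw [hk1]
  field_simp
  ring

/-- the error terms give a bounded sum -/
theorem Sk_error (hL : ∀ i, 0 ≤ L i) (h2 : Summable fun i => |d i| * Real.exp (-(2 * L i))) {σ : ℝ} (hσ : 4 ≤ σ)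
    {R M : ℝ} (hR : 0 < R) (hM : 0 ≤ M) (T : ℕ → ℝ)
    (h : ∀ k : ℕ, |(Bk d L (k + 1) (σ : ℂ)).re + k.factorial * T (k + 1)| ≤ k.factorial * M / R ^ k) (k : ℕ) :
    |Sk (AA d L) σ (k + 1) - Sk (AA d L) σ k + σ ^ (k + 1) * T (k + 1) / (k + 1)| ≤ σ * M * (σ / R) ^ k := by
  have hk : (0 : ℝ) < k.factorial := by positivity
  have hk1 : ((k + 1).factorial : ℝ) = (k + 1) * k.factorial := by
    rw [Nat.factorial_succ]; push_cast; rfl
  have e : Sk (AA d L) σ (k + 1) - Sk (AA d L) σ k + σ ^ (k + 1) * T (k + 1) / (k + 1) =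
      σ ^ (k + 1) / ((k + 1) * k.factorial) * ((Bk d L (k + 1) (σ : ℂ)).re + k.factorial * T (k + 1)) := by
    rw [Sk_rec hL h2 hσ k, hk1]
    field_simp
    ring
  rw [e, abs_mul, abs_of_pos (by positivity)]
  calc σ ^ (k + 1) / ((k + 1) * k.factorial) * |(Bk d L (k + 1) (σ : ℂ)).re + k.factorial * T (k + 1)| ≤
      σ ^ (k + 1) / ((k + 1) * k.factorial) * (k.factorial * M / R ^ k) := by
        gcongr
        exact h k
    _ = σ * M * (σ / R) ^ k / (k + 1) := by
        rw [div_pow]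
        field_simp
        ring
    _ ≤ σ * M * (σ / R) ^ k := by
        refine div_le_self (by positivity) ?_
        have : (0 : ℝ) ≤ k := Nat.cast_nonneg k
        linarith

theorem exists_radius (T : Finset ℂ) (f : ℂ → ℝ) {x0 B : ℝ} (hx : x0 < B) (h : ∀ ρ ∈ T, x0 < f ρ) :
    ∃ R : ℝ, x0 < R ∧ R < B ∧ ∀ ρ ∈ T, R < f ρ := by
  classical
  induction T using Finset.induction_on with
  | empty => exact ⟨(x0 + B) / 2, by linarith, by linarith, by simp⟩
  | insert a T ha ih =>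
    obtain ⟨R, h1, h2, h3⟩ := ih fun ρ hρ => h ρ (Finset.mem_insert_of_mem hρ)
    have h4 := h a (Finset.mem_insert_self _ _)
    refine ⟨min R ((x0 + f a) / 2), lt_min h1 (by linarith), lt_of_le_of_lt (min_le_left _ _) h2, fun ρ hρ => ?_⟩
    rcases Finset.mem_insert.1 hρ with rfl | h5
    · exact lt_of_le_of_lt (min_le_right _ _) (by linarith)
    · exact lt_of_le_of_lt (min_le_left _ _) (h3 ρ h5)

/-- powers beat polynomials -/
theorem pow_win {C x w : ℝ} (hw : 0 ≤ w) (hx : w < x) : ∀ᶠ n : ℕ in atTop, C * (n : ℝ) ^ 2 * w ^ n < x ^ n := by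
  have hx0 : 0 < x := lt_of_le_of_lt hw hx
  have h1 := tendsto_pow_const_mul_const_pow_of_abs_lt_one 2 (r := w / x)
    (by rw [abs_of_nonneg (by positivity), div_lt_one hx0]; exact hx)
  have h2 := h1.const_mul C
  rw [mul_zero] at h2
  filter_upwards [h2.eventually (eventually_lt_nhds one_pos)] with n hn
  rw [div_pow] at hn
  have hp : 0 < x ^ n := by positivity
  have e : C * ((n : ℝ) ^ 2 * (w ^ n / x ^ n)) = C * (n : ℝ) ^ 2 * w ^ n / x ^ n := by ring
  rw [e, div_lt_one hp] at hn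
  exact hn

theorem kk_tendsto {δ : ℝ} (h0 : 0 < δ) (h1 : δ < 1) : Tendsto (kk δ) atTop atTop := by
  have hs := sg_ge h0 h1
  have : 0 < sg δ * (1 - δ / 2) := mul_pos (by linarith) (by linarith)
  exact tendsto_nat_floor_atTop.comp (tendsto_id.const_mul_atTop this)

/-- balls in the half plane -/
theorem ball_sub {c : ℝ} {s1 : ℂ} {R : ℝ} (h : R < s1.re - c) : Metric.closedBall s1 R ⊆ {s : ℂ | c < s.re} := by
  intro z hz
  rw [Metric.mem_closedBall, Complex.dist_eq] at hz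
  have h1 := (abs_le.1 ((Complex.abs_re_le_norm (z - s1)).trans hz)).1
  rw [Complex.sub_re] at h1
  show c < z.re
  linarith

theorem half_conn (c : ℝ) : IsPreconnected {s : ℂ | c < s.re} := (convex_halfSpace_re_gt c).isPreconnected

end Pool.Agent.Q18.W
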