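import Mathlib
import Pool.Agent.Q18.W.Seq

/-! A zero or a pole to the right of `c` forces `A(u) < -e^{cu}` in every window. -/

set_option autoImplicit false

open Complex MeasureTheory Set Filter Topology
open Pool.Agent.W189.TP (DS)
open Pool.Agent.TH949.TX (AA)

namespace Pool.Agent.Q18.W

variable {ι : Type*} [Countable ι] {d L : ι → ℝ}

/-- the data: `F = exp (∑ d e^{-sL})` to the right of `1`, and `F` is meromorphic in `V` -/
structure Ser (d L : ι → ℝ) (F : ℂ → ℂ) (V : Set ℂ) : Prop where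
  hL : ∀ i, 0 ≤ L i
  abs : ∀ t : ℝ, 1 < t → Summable fun i => |d i| * Real.exp (-(t * L i))
  exp : ∀ s : ℂ, 1 < s.re → F s = cexp (DS d L s)
  conn : IsPreconnected V
  mer : MeromorphicOn F V

/-- the normalised negative part -/
noncomputable def Nk (f : ℝ → ℝ) (σ : ℝ) (k : ℕ) : ℝ := σ ^ (k + 1) * nF f k σ / k.factorial

theorem Nk_win {f : ℝ → ℝ} {M : ℝ} (hf : Gro f M) {δ U W c : ℝ}
    (h0 : 0 < δ) (h1 : δ < 1) (hU : 0 ≤ U) (hW : 0 ≤ W) (hc0 : 0 ≤ c) (hc : c < sg δ)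
    (hwin : ∀ u : ℝ, (1 - δ) * U ≤ u → u ≤ U → -f u ≤ W * Real.exp (c * u)) {k : ℕ}
    (hk : k = kk δ U ∨ k = kk δ U + 1) :
    Nk f (sg δ) k ≤ (W + 2 * Real.exp 1 * M) * (sg δ / (sg δ - c)) ^ (k + 1) := by
  have hs := sg_ge h0 h1
  have h := N_win hf h0 h1 hU hW hc hwin hk
  have hM0 := hf.pos
  have hk0 : (0 : ℝ) < k.factorial := by positivity
  have hs0 : 0 < sg δ := by linarith
  have hz : 1 ≤ sg δ / (sg δ - c) := by
    rw [le_div_iff₀ (by linarith)]
    linarith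
  have hz1 : 1 ≤ (sg δ / (sg δ - c)) ^ (k + 1) := one_le_pow₀ hz
  unfold Nk
  calc sg δ ^ (k + 1) * nF f k (sg δ) / k.factorial ≤
      sg δ ^ (k + 1) * (k.factorial * (W / (sg δ - c) ^ (k + 1) +
        M * (2 * Real.exp (1 - U) / sg δ ^ (k + 1)))) / k.factorial := by gcongr
    _ = W * (sg δ / (sg δ - c)) ^ (k + 1) + 2 * Real.exp (1 - U) * M := by
        rw [div_pow]
        have : (0 : ℝ) < (sg δ - c) ^ (k + 1) := pow_pos (by linarith) _
        field_simp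
    _ ≤ W * (sg δ / (sg δ - c)) ^ (k + 1) + 2 * Real.exp 1 * M * (sg δ / (sg δ - c)) ^ (k + 1) := by
        have e1 : Real.exp (1 - U) ≤ Real.exp 1 := Real.exp_le_exp.2 (by linarith)
        have e2 : 2 * Real.exp (1 - U) * M ≤ 2 * Real.exp 1 * M := by gcongr
        have e3 : 0 ≤ 2 * Real.exp 1 * M := by positivity
        nlinarith
    _ = _ := by ring

theorem growth {S : ℕ → ℝ} {E y : ℝ} (hy : 1 ≤ y) (hE : 0 ≤ E) (h : ∀ k, S (k + 1) ≤ S k + E * y ^ k) (n : ℕ) :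
    S n ≤ S 0 + n * (E * y ^ n) := by
  induction n with
  | zero => simp
  | succ n ih =>
    have h1 := h n
    have h2 : y ^ n ≤ y ^ (n + 1) := pow_le_pow_right₀ hy (Nat.le_succ n)
    have h3 : E * y ^ n ≤ E * y ^ (n + 1) := by gcongr
    have h4 : (n : ℝ) * (E * y ^ n) ≤ n * (E * y ^ (n + 1)) := by gcongr
    push_cast
    nlinarith

theorem Sk_zero_le (f : ℝ → ℝ) {M : ℝ} (hf : Gro f M) {σ : ℝ} (hσ : 4 ≤ σ) (k : ℕ) :
    -Nk f σ k ≤ Sk f σ k := by
  unfold Nk Sk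
  have h1 := aF_ge hf k hσ
  have hk0 : (0 : ℝ) < k.factorial := by positivity
  have hs0 : 0 < σ := by linarith
  rw [← neg_div, ← mul_neg]
  gcongr

/-- the order is a natural number -/
theorem ord_real (m : ℤ) (b σ : ℝ) (k : ℕ) : ((m : ℂ) * (k.factorial / ((σ : ℂ) - b) ^ (k + 1))) =
    (((m : ℝ) * (k.factorial / (σ - b) ^ (k + 1)) : ℝ) : ℂ) := by
  push_cast
  rfl

/-- case 1: a real zero is the nearest singularity -/
theorem case_real {F : ℂ → ℂ} {c : ℝ} (hS : Ser d L F {s : ℂ | c < s.re}) (hc : 0 ≤ c) {σ : ℝ} (hσ : 4 ≤ σ)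
    {b : ℝ} (hcb : c < b) (hb : b < σ) (hord : 0 ≤ meromorphicOrderAt F (b : ℂ))
    (hord' : meromorphicOrderAt F (b : ℂ) ≠ 0) {R : ℝ} (hR1 : σ - b < R) (hR2 : R < σ - c)
    (hun : ∀ ρ : ℂ, ρ ∈ Metric.closedBall (σ : ℂ) R → meromorphicOrderAt F ρ ≠ 0 → ρ = b) {C : ℝ}
    (hN : ∃ᶠ n : ℕ in atTop, Nk (AA d L) σ n ≤ C * (σ / (σ - c)) ^ (n + 1)) : False := by
  have h2 := hS.abs 2 (by norm_num)
  have hσ1 : 1 < (σ : ℂ).re := by simpa using (by linarith : (1 : ℝ) < σ)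
  have hR0 : 0 < R := by linarith
  obtain ⟨Z, M, hM, z1, z2, z3⟩ := ext_disc hS.hL hS.abs hS.exp hS.conn hS.mer hσ1 hR0
    (ball_sub (s1 := (σ : ℂ)) (by simpa using hR2))
  have hbb : (b : ℂ) ∈ Metric.closedBall (σ : ℂ) R := by
    rw [Metric.mem_closedBall, Complex.dist_eq, ← Complex.ofReal_sub, Complex.norm_real, Real.norm_eq_abs,
      abs_le]
    constructor <;> linarith
  have hZ : Z = {(b : ℂ)} := by
    ext ρ
    rw [Finset.mem_singleton]
    constructor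
    · intro hρ
      exact hun ρ (z1 ρ hρ).1 (z1 ρ hρ).2
    · rintro rfl
      exact z2 _ hbb hord'
  set m : ℤ := (meromorphicOrderAt F (b : ℂ)).untop₀ with hm
  have htop : meromorphicOrderAt F (b : ℂ) ≠ ⊤ :=
    order_ne_top hS.conn hS.mer hS.hL hS.abs hS.exp hσ1
      (show c < (σ : ℂ).re by simpa using (by linarith : c < σ)) (show c < (b : ℂ).re by simpa using hcb)
  have hmc : ((m : ℤ) : WithTop ℤ) = meromorphicOrderAt F (b : ℂ) := WithTop.coe_untop₀_of_ne_top htop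
  have hm1 : 1 ≤ m := by
    rw [← hmc] at hord hord'
    have a1 : 0 ≤ m := by exact_mod_cast hord
    have a2 : m ≠ 0 := by exact_mod_cast hord'
    omega
  have hm1' : (1 : ℝ) ≤ m := by exact_mod_cast hm1
  have herr : ∀ k : ℕ, |(Bk d L (k + 1) (σ : ℂ)).re + k.factorial * ((m : ℝ) / (σ - b) ^ (k + 1))| ≤
      k.factorial * M / R ^ k := by
    intro k
    have h5 := z3 k
    rw [hZ, Finset.sum_singleton, ← hm, ord_real] at h5
    have h6 := (Complex.abs_re_le_norm _).trans h5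
    rw [Complex.add_re, Complex.ofReal_re] at h6
    have e : (m : ℝ) * (k.factorial / (σ - b) ^ (k + 1)) = k.factorial * ((m : ℝ) / (σ - b) ^ (k + 1)) := by ring
    rwa [e] at h6
  have hSe := Sk_error hS.hL h2 hσ hR0 hM (fun k => (m : ℝ) / (σ - b) ^ k) herr
  set x : ℝ := σ / (σ - b) with hx
  set y : ℝ := σ / R with hy
  set z : ℝ := σ / (σ - c) with hz
  have hsb : 0 < σ - b := by linarith
  have hsc : 0 < σ - c := by linarith
  have hσ0 : 0 < σ := by linarith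
  have hy1 : 1 ≤ y := by rw [hy, le_div_iff₀ hR0]; linarith
  have hz1 : 1 ≤ z := by rw [hz, le_div_iff₀ hsc]; linarith
  have hyx : y < x := by
    rw [hy, hx]
    exact div_lt_div_of_pos_left hσ0 hsb hR1
  have hzx : z < x := by
    rw [hz, hx]
    exact div_lt_div_of_pos_left hσ0 hsb (by linarith)
  have hrec : ∀ k : ℕ, Sk (AA d L) σ (k + 1) ≤ Sk (AA d L) σ k - x ^ (k + 1) / (k + 1) + σ * M * y ^ k := by
    intro k
    have h5 := (abs_le.1 (hSe k)).2
    have h6 : x ^ (k + 1) / (k + 1) ≤ σ ^ (k + 1) * ((m : ℝ) / (σ - b) ^ (k + 1)) / (k + 1) := by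
      have e : σ ^ (k + 1) * ((m : ℝ) / (σ - b) ^ (k + 1)) = (m : ℝ) * x ^ (k + 1) := by
        rw [hx, div_pow]; ring
      rw [e]
      have hxp : 0 ≤ x ^ (k + 1) := by positivity
      gcongr
      nlinarith
    linarith
  have hx0 : 0 < x := by positivity
  have hrec' : ∀ k : ℕ, Sk (AA d L) σ (k + 1) ≤ Sk (AA d L) σ k + σ * M * y ^ k := by
    intro k
    have := hrec k
    have h6 : 0 ≤ x ^ (k + 1) / ((k : ℝ) + 1) := by positivity
    linarith
  have hup : ∀ n : ℕ, 1 ≤ n → Sk (AA d L) σ n ≤ Sk (AA d L) σ 0 + n * (σ * M * y ^ n) - x ^ n / n := by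
    intro n hn
    obtain ⟨k, rfl⟩ : ∃ k, n = k + 1 := ⟨n - 1, by omega⟩
    have h5 := growth hy1 (by positivity) hrec' k
    have h6 := hrec k
    have h7 : y ^ k ≤ y ^ (k + 1) := pow_le_pow_right₀ hy1 (Nat.le_succ k)
    have h8 : (0 : ℝ) ≤ σ * M := by positivity
    have h9 : σ * M * y ^ k ≤ σ * M * y ^ (k + 1) := by gcongr
    have h10 : (k : ℝ) * (σ * M * y ^ k) ≤ k * (σ * M * y ^ (k + 1)) := by gcongr
    push_cast
    nlinarith
  set w : ℝ := max y z with hw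
  have hw1 : 1 ≤ w := le_max_of_le_left hy1
  have hwx : w < x := max_lt hyx hzx
  set C' : ℝ := |Sk (AA d L) σ 0| + σ * M + |C| * z with hC'
  have hpw := pow_win (C := C') (by linarith : (0 : ℝ) ≤ w) hwx
  obtain ⟨n, hn, hn1, hn2⟩ := (hN.and_eventually (hpw.and (eventually_ge_atTop 1))).exists
  have hn' : (1 : ℝ) ≤ n := by exact_mod_cast hn2
  have b1 := Sk_zero_le (AA d L) (AA_gro hS.hL h2) hσ n
  have b2 := hup n hn2
  have b3 : x ^ n / n ≤ |Sk (AA d L) σ 0| + n * (σ * M * y ^ n) + |C| * z ^ (n + 1) := by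
    have c1 := le_abs_self (Sk (AA d L) σ 0)
    have c2 : C * z ^ (n + 1) ≤ |C| * z ^ (n + 1) := by
      gcongr
      exact le_abs_self C
    linarith
  have b4 : |Sk (AA d L) σ 0| + n * (σ * M * y ^ n) + |C| * z ^ (n + 1) ≤ C' * n * w ^ n := by
    have wn1 : 1 ≤ w ^ n := one_le_pow₀ hw1
    have yw : y ^ n ≤ w ^ n := pow_le_pow_left₀ (by linarith) (le_max_left _ _) n
    have zw : z ^ n ≤ w ^ n := pow_le_pow_left₀ (by linarith) (le_max_right _ _) n
    have nw : (1 : ℝ) ≤ n * w ^ n := by nlinarith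
    have d1 : |Sk (AA d L) σ 0| ≤ |Sk (AA d L) σ 0| * (n * w ^ n) :=
      le_mul_of_one_le_right (abs_nonneg _) nw
    have d2 : n * (σ * M * y ^ n) ≤ n * (σ * M * w ^ n) := by gcongr
    have d3 : |C| * z ^ (n + 1) ≤ |C| * z * (n * w ^ n) := by
      rw [pow_succ]
      have : z ^ n ≤ n * w ^ n := zw.trans (le_mul_of_one_le_left (by positivity) hn')
      calc |C| * (z ^ n * z) = |C| * z * z ^ n := by ring
        _ ≤ _ := by gcongr
    rw [hC']
    nlinarith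
  have b5 : x ^ n ≤ C' * (n : ℝ) ^ 2 * w ^ n := by
    have c1 := b3.trans b4
    rw [div_le_iff₀ (by linarith)] at c1
    calc x ^ n ≤ C' * n * w ^ n * n := c1
      _ = _ := by ring
  linarith

end Pool.Agent.Q18.W
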