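import Mathlib
import Pool.Agent.Q18.W.Zero

/-! Choosing a point on a vertical line with a unique nearest singularity. -/

set_option autoImplicit false

open Complex MeasureTheory Set Filter Topology
open Pool.Agent.W189.TP (DS)
open Pool.Agent.TH949.TX (AA)

namespace Pool.Agent.Q18.W

theorem shift_sq (s0 ρ ρ1 : ℂ) (ε : ℝ) :
    ‖s0 + ε * I - ρ‖ ^ 2 - ‖s0 + ε * I - ρ1‖ ^ 2 =
      (‖s0 - ρ‖ ^ 2 - ‖s0 - ρ1‖ ^ 2) + 2 * ε * (ρ1.im - ρ.im) := by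
  simp only [← Complex.normSq_eq_norm_sq, Complex.normSq_apply, Complex.sub_re, Complex.sub_im, Complex.add_re,
    Complex.add_im, Complex.mul_re, Complex.mul_im, Complex.ofReal_re, Complex.ofReal_im, Complex.I_re,
    Complex.I_im]
  ring

theorem near_one {P : ℂ → Prop} {s0 : ℂ} {R : ℝ} {Z : Finset ℂ}
    (hZ : ∀ ρ ∈ Metric.closedBall s0 R, P ρ → ρ ∈ Z) (hP : ∀ ρ, P ρ → ρ.re < s0.re) {ρ0 : ℂ}
    (h0 : ‖s0 - ρ0‖ < R) (hρ0 : P ρ0) :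
    ∃ (s1 ρ1 : ℂ) (R1 : ℝ), s1.re = s0.re ∧ P ρ1 ∧ ‖s1 - ρ1‖ < R1 ∧ R1 < R ∧
      ∀ ρ ∈ Metric.closedBall s1 R1, P ρ → ρ = ρ1 := by
  classical
  set Z' : Finset ℂ := Z.filter fun ρ => P ρ with hZ'
  have hne : Z'.Nonempty := ⟨ρ0, by
    rw [hZ', Finset.mem_filter]
    exact ⟨hZ ρ0 (by rw [Metric.mem_closedBall, dist_comm, Complex.dist_eq]; exact h0.le) hρ0, hρ0⟩⟩
  obtain ⟨ρa, ha1, ha2⟩ := Z'.exists_min_image (fun ρ => ‖s0 - ρ‖) hne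
  set T0 : Finset ℂ := Z'.filter fun ρ => ‖s0 - ρ‖ = ‖s0 - ρa‖ with hT0
  have hne0 : T0.Nonempty := ⟨ρa, by rw [hT0, Finset.mem_filter]; exact ⟨ha1, rfl⟩⟩
  obtain ⟨ρ1, hb1, hb2⟩ := T0.exists_max_image (fun ρ => ρ.im) hne0
  rw [hT0, Finset.mem_filter] at hb1
  obtain ⟨hc1, hc2⟩ := hb1
  have hP1 : P ρ1 := (Finset.mem_filter.1 hc1).2
  have hr0 : ‖s0 - ρ1‖ < R := by
    rw [hc2]
    refine lt_of_le_of_lt (ha2 ρ0 ?_) h0
    rw [hZ', Finset.mem_filter]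
    exact ⟨hZ ρ0 (by rw [Metric.mem_closedBall, dist_comm, Complex.dist_eq]; exact h0.le) hρ0, hρ0⟩
  set T : Finset ℂ := Z'.erase ρ1 with hT
  have hev : ∀ ρ ∈ T, ∀ᶠ ε : ℝ in 𝓝[>] 0, ‖s0 + ε * I - ρ1‖ < ‖s0 + ε * I - ρ‖ := by
    intro ρ hρ
    obtain ⟨hne1, hρZ⟩ := Finset.mem_erase.1 hρ
    have hge : ‖s0 - ρ1‖ ≤ ‖s0 - ρ‖ := by
      rw [hc2]; exact ha2 ρ hρZ
    have hpos : ∀ᶠ ε : ℝ in 𝓝[>] 0, 0 < (‖s0 - ρ‖ ^ 2 - ‖s0 - ρ1‖ ^ 2) + 2 * ε * (ρ1.im - ρ.im) := by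
      rcases lt_or_eq_of_le hge with hlt | heq
      · have h1 : 0 < ‖s0 - ρ‖ ^ 2 - ‖s0 - ρ1‖ ^ 2 := by
          have := pow_lt_pow_left₀ hlt (norm_nonneg _) (two_ne_zero)
          linarith
        have h2 : Tendsto (fun ε : ℝ => (‖s0 - ρ‖ ^ 2 - ‖s0 - ρ1‖ ^ 2) + 2 * ε * (ρ1.im - ρ.im)) (𝓝[>] 0)
            (𝓝 ((‖s0 - ρ‖ ^ 2 - ‖s0 - ρ1‖ ^ 2) + 2 * 0 * (ρ1.im - ρ.im))) := by
          refine Tendsto.mono_left ?_ nhdsWithin_le_nhds
          exact Continuous.tendsto (by fun_prop) 0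
        rw [mul_zero, zero_mul, add_zero] at h2
        exact h2.eventually (eventually_gt_nhds h1)
      · have him : ρ.im < ρ1.im := by
          have hle : ρ.im ≤ ρ1.im := hb2 ρ (by
            rw [hT0, Finset.mem_filter]
            exact ⟨hρZ, by rw [← heq, hc2]⟩)
          refine lt_of_le_of_ne hle fun heqi => hne1 ?_
          have hPρ : P ρ := (Finset.mem_filter.1 hρZ).2
          have e1 := hP ρ hPρ
          have e2 := hP ρ1 hP1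
          have e3 : ‖s0 - ρ1‖ ^ 2 = ‖s0 - ρ‖ ^ 2 := by rw [heq]
          simp only [← Complex.normSq_eq_norm_sq, Complex.normSq_apply, Complex.sub_re, Complex.sub_im] at e3
          rw [heqi] at e3
          have e4 : s0.re - ρ1.re = s0.re - ρ.re := by nlinarith
          exact Complex.ext (by linarith) heqi
        filter_upwards [self_mem_nhdsWithin] with ε hε
        have hε' : (0 : ℝ) < ε := hε
        rw [heq, sub_self, zero_add]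
        have : 0 < ρ1.im - ρ.im := by linarith
        positivity
    filter_upwards [hpos] with ε hε
    rw [← shift_sq] at hε
    exact lt_of_pow_lt_pow_left₀ 2 (norm_nonneg _) (by linarith)
  have hev2 : ∀ᶠ ε : ℝ in 𝓝[>] 0, ‖s0 + ε * I - ρ1‖ < R - ε := by
    have h2 : Tendsto (fun ε : ℝ => ‖s0 + ε * I - ρ1‖ + ε) (𝓝[>] 0) (𝓝 (‖s0 + (0 : ℝ) * I - ρ1‖ + 0)) := by
      refine Tendsto.mono_left ?_ nhdsWithin_le_nhds
      exact Continuous.tendsto (by fun_prop) 0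
    rw [Complex.ofReal_zero, zero_mul, add_zero, add_zero] at h2
    filter_upwards [h2.eventually (eventually_lt_nhds hr0)] with ε hε
    linarith
  have hev3 : ∀ᶠ ε : ℝ in 𝓝[>] 0, ∀ ρ ∈ T, ‖s0 + ε * I - ρ1‖ < ‖s0 + ε * I - ρ‖ :=
    (Finset.eventually_all T).2 hev
  obtain ⟨ε, h3, h4, h5⟩ := (hev3.and (hev2.and self_mem_nhdsWithin)).exists
  have hε : (0 : ℝ) < ε := h5
  obtain ⟨R1, r1, r2, r3⟩ := exists_radius T (fun ρ => ‖s0 + ε * I - ρ‖) h4 h3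
  refine ⟨s0 + ε * I, ρ1, R1, by simp, hP1, r1, by linarith, fun ρ hρ hPρ => ?_⟩
  by_contra hne1
  rw [Metric.mem_closedBall, dist_comm, Complex.dist_eq] at hρ
  have hin : ρ ∈ Metric.closedBall s0 R := by
    rw [Metric.mem_closedBall, dist_comm, Complex.dist_eq]
    calc ‖s0 - ρ‖ = ‖(s0 + ε * I - ρ) - ε * I‖ := by ring_nf
      _ ≤ ‖s0 + ε * I - ρ‖ + ‖(ε : ℂ) * I‖ := norm_sub_le _ _
      _ ≤ R1 + ε := by
          rw [norm_mul, Complex.norm_I, mul_one, Complex.norm_real, Real.norm_of_nonneg hε.le]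
          linarith
      _ ≤ R := by linarith
  have hm : ρ ∈ T := Finset.mem_erase.2 ⟨hne1, Finset.mem_filter.2 ⟨hZ ρ hin hPρ, hPρ⟩⟩
  have := r3 ρ hm
  linarith

end Pool.Agent.Q18.W
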