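import Mathlib
import Pool.Agent.Q18.W.Near

/-! A zero or a pole to the right of `c` forces `A(u) < -e^{cu}` in every window. -/

set_option autoImplicit false

open Complex MeasureTheory Set Filter Topology
open Pool.Agent.W189.TP (DS)
open Pool.Agent.TH949.TX (AA)

namespace Pool.Agent.Q18.W

variable {ι : Type*} [Countable ι] {d L : ι → ℝ}

theorem Ik_le' (hL : ∀ i, 0 ≤ L i) (h2 : Summable fun i => |d i| * Real.exp (-(2 * L i))) {σ : ℝ} (hσ : 4 ≤ σ)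
    {s : ℂ} (hs : s.re = σ) (k : ℕ) :
    ‖Ik d L k s‖ ≤ k.factorial / σ ^ (k + 1) * (Sk (AA d L) σ k + 2 * Nk (AA d L) σ k) := by
  have h := Ik_le hL h2 k (s := s) (by rw [hs]; exact hσ)
  rw [hs] at h
  refine h.trans_eq ?_
  unfold Sk Nk
  have hk0 : (0 : ℝ) < k.factorial := by positivity
  have hs0 : 0 < σ := by linarith
  field_simp

/-- case 2: the nearest singularity is not on the real axis -/
theorem case_complex {F : ℂ → ℂ} {c : ℝ} (hS : Ser d L F {s : ℂ | c < s.re}) (hc : 0 ≤ c) {σ : ℝ} (hσ : 4 ≤ σ)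
    {R : ℝ} (hR0 : 0 < R) (hR2 : R < σ - c)
    (hun : ∀ ρ : ℂ, ρ ∈ Metric.closedBall (σ : ℂ) R → meromorphicOrderAt F ρ = 0)
    {ρ0 : ℂ} (hρ0 : meromorphicOrderAt F ρ0 ≠ 0) (hρc : c < ρ0.re) (hρR : σ - R < ρ0.re) {C : ℝ}
    (hN : ∃ᶠ n : ℕ in atTop, Nk (AA d L) σ n ≤ C * (σ / (σ - c)) ^ (n + 1) ∧
      Nk (AA d L) σ (n + 1) ≤ C * (σ / (σ - c)) ^ (n + 1 + 1)) : False := by
  have h2 := hS.abs 2 (by norm_num)
  have hσ0 : 0 < σ := by linarith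
  have hσ1 : 1 < (σ : ℂ).re := by simpa using (by linarith : (1 : ℝ) < σ)
  -- the values at `σ`
  obtain ⟨Z, M, hM, z1, z2, z3⟩ := ext_disc hS.hL hS.abs hS.exp hS.conn hS.mer hσ1 hR0
    (ball_sub (s1 := (σ : ℂ)) (by simpa using hR2))
  have hZ : Z = ∅ := by
    refine Finset.eq_empty_of_forall_notMem fun ρ hρ => (z1 ρ hρ).2 (hun ρ (z1 ρ hρ).1)
  have herr : ∀ k : ℕ, |(Bk d L (k + 1) (σ : ℂ)).re + k.factorial * (0 : ℝ)| ≤ k.factorial * M / R ^ k := by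
    intro k
    have h5 := z3 k
    rw [hZ, Finset.sum_empty, add_zero] at h5
    rw [mul_zero, add_zero]
    exact (Complex.abs_re_le_norm _).trans h5
  have hSe := Sk_error hS.hL h2 hσ hR0 hM (fun _ => (0 : ℝ)) herr
  set y : ℝ := σ / R with hy
  set z : ℝ := σ / (σ - c) with hz
  have hsc : 0 < σ - c := by linarith
  have hy1 : 1 ≤ y := by rw [hy, le_div_iff₀ hR0]; linarith
  have hz1 : 1 ≤ z := by rw [hz, le_div_iff₀ hsc]; linarith
  have hzy : z ≤ y := by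
    rw [hy, hz]
    exact div_le_div_of_nonneg_left hσ0.le hR0 hR2.le
  have hrec' : ∀ k : ℕ, Sk (AA d L) σ (k + 1) ≤ Sk (AA d L) σ k + σ * M * y ^ k := by
    intro k
    have h5 := (abs_le.1 (hSe k)).2
    have e : σ ^ (k + 1) * (0 : ℝ) / (k + 1) = 0 := by simp
    rw [e] at h5
    linarith
  have hgr := growth hy1 (by positivity) hrec'
  set C1 : ℝ := |Sk (AA d L) σ 0| + σ * M + 2 * |C| with hC1
  have hC10 : 0 ≤ C1 := by positivity
  have hIk : ∀ (s : ℂ), s.re = σ → ∀ k : ℕ, Nk (AA d L) σ k ≤ C * z ^ (k + 1) →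
      ‖Ik d L k s‖ ≤ k.factorial / σ ^ (k + 1) * (C1 * ((k + 1 : ℕ) * y ^ (k + 1))) := by
    intro s hs k hk
    refine (Ik_le' hS.hL h2 hσ hs k).trans ?_
    have hk0 : (0 : ℝ) < k.factorial := by positivity
    gcongr
    have yk : 1 ≤ y ^ (k + 1) := one_le_pow₀ hy1
    have kn : (1 : ℝ) ≤ ((k + 1 : ℕ) : ℝ) := by push_cast; linarith [(Nat.cast_nonneg k : (0 : ℝ) ≤ k)]
    have c1 := hgr k
    have c2 : y ^ k ≤ y ^ (k + 1) := pow_le_pow_right₀ hy1 (Nat.le_succ k)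
    have c3 : z ^ (k + 1) ≤ y ^ (k + 1) := pow_le_pow_left₀ (by linarith) hzy _
    have ky : 1 ≤ ((k + 1 : ℕ) : ℝ) * y ^ (k + 1) := by nlinarith
    have d1 : Sk (AA d L) σ 0 ≤ |Sk (AA d L) σ 0| * (((k + 1 : ℕ) : ℝ) * y ^ (k + 1)) :=
      (le_abs_self _).trans (le_mul_of_one_le_right (abs_nonneg _) ky)
    have d2 : (k : ℝ) * (σ * M * y ^ k) ≤ σ * M * (((k + 1 : ℕ) : ℝ) * y ^ (k + 1)) := by
      have : (k : ℝ) ≤ ((k + 1 : ℕ) : ℝ) := by push_cast; linarith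
      calc (k : ℝ) * (σ * M * y ^ k) ≤ ((k + 1 : ℕ) : ℝ) * (σ * M * y ^ (k + 1)) := by gcongr
        _ = _ := by ring
    have d3 : C * z ^ (k + 1) ≤ |C| * (((k + 1 : ℕ) : ℝ) * y ^ (k + 1)) := by
      calc C * z ^ (k + 1) ≤ |C| * z ^ (k + 1) := by gcongr; exact le_abs_self C
        _ ≤ |C| * (((k + 1 : ℕ) : ℝ) * y ^ (k + 1)) := by
            gcongr
            exact c3.trans (le_mul_of_one_le_left (by positivity) kn)
    rw [hC1]
    nlinarith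
  -- a point with a unique nearest singularity
  set s0 : ℂ := σ + (ρ0.im : ℂ) * I with hs0
  have hs0re : s0.re = σ := by simp [hs0]
  have hre1 : ∀ ρ : ℂ, meromorphicOrderAt F ρ ≠ 0 → ρ.re ≤ 1 := fun ρ hρ => by
    by_contra hlt
    push Not at hlt
    exact hρ (order_zero hS.hL hS.abs hS.exp hlt).2
  obtain ⟨Z0, M0, hM0, y1, y2, y3⟩ := ext_disc hS.hL hS.abs hS.exp hS.conn hS.mer
    (s1 := s0) (by rw [hs0re]; linarith) hR0 (ball_sub (s1 := s0) (by rw [hs0re]; exact hR2))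
  have hdist : ‖s0 - ρ0‖ < R := by
    have e : s0 - ρ0 = ((σ - ρ0.re : ℝ) : ℂ) := by
      apply Complex.ext <;> simp [hs0]
    rw [e, Complex.norm_real, Real.norm_eq_abs, abs_of_pos (by linarith [hre1 ρ0 hρ0])]
    linarith
  obtain ⟨s1, ρ1, R1, q1, q2, q3, q4, q5⟩ := near_one (P := fun ρ => meromorphicOrderAt F ρ ≠ 0)
    (Z := Z0) (R := R) y2 (fun ρ hρ => by rw [hs0re]; linarith [hre1 ρ hρ]) hdist hρ0
  rw [hs0re] at q1
  have hR1 : 0 < R1 := lt_of_le_of_lt (norm_nonneg _) q3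
  obtain ⟨Z1, M1, hM1, x1, x2, x3⟩ := ext_disc hS.hL hS.abs hS.exp hS.conn hS.mer
    (s1 := s1) (by rw [q1]; linarith) hR1 (ball_sub (s1 := s1) (by rw [q1]; linarith))
  have hρ1b : ρ1 ∈ Metric.closedBall s1 R1 := by
    rw [Metric.mem_closedBall, dist_comm, Complex.dist_eq]; exact q3.le
  have hZ1 : Z1 = {ρ1} := by
    ext ρ
    rw [Finset.mem_singleton]
    constructor
    · intro hρ
      exact q5 ρ (x1 ρ hρ).1 (x1 ρ hρ).2
    · rintro rfl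
      exact x2 _ hρ1b q2
  have hρ1c : c < ρ1.re := by
    have := ball_sub (c := c) (s1 := s1) (R := R1) (by rw [q1]; linarith) hρ1b
    exact this
  set m : ℤ := (meromorphicOrderAt F ρ1).untop₀ with hm
  have htop : meromorphicOrderAt F ρ1 ≠ ⊤ :=
    order_ne_top hS.conn hS.mer hS.hL hS.abs hS.exp hσ1
      (show c < (σ : ℂ).re by simpa using (by linarith : c < σ)) (show c < ρ1.re from hρ1c)
  have hmc : ((m : ℤ) : WithTop ℤ) = meromorphicOrderAt F ρ1 := WithTop.coe_untop₀_of_ne_top htop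
  have hm0 : m ≠ 0 := by
    rw [← hmc] at q2
    exact_mod_cast q2
  have hm1 : (1 : ℝ) ≤ ‖(m : ℂ)‖ := by
    rw [Complex.norm_intCast]
    exact_mod_cast Int.one_le_abs hm0
  set r1 : ℝ := ‖s1 - ρ1‖ with hr1
  have hr1p : 0 < r1 := by
    rw [hr1, norm_pos_iff]
    intro h0
    have : s1.re = ρ1.re := by rw [sub_eq_zero.1 h0]
    have := hre1 ρ1 q2
    linarith
  -- the lower bound
  have hlow : ∀ k : ℕ, (k.factorial : ℝ) * (1 / r1 ^ (k + 1)) ≤ ‖Bk d L (k + 1) s1‖ + k.factorial * M1 / R1 ^ k := by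
    intro k
    have h5 := x3 k
    rw [hZ1, Finset.sum_singleton, ← hm] at h5
    have hk0 : (0 : ℝ) < k.factorial := by positivity
    have h6 : ‖(m : ℂ) * (k.factorial / (s1 - ρ1) ^ (k + 1))‖ = ‖(m : ℂ)‖ * (k.factorial * (1 / r1 ^ (k + 1))) := by
      rw [norm_mul, norm_div, norm_pow, ← hr1, Complex.norm_natCast]
      ring
    have h7 : (k.factorial : ℝ) * (1 / r1 ^ (k + 1)) ≤ ‖(m : ℂ)‖ * (k.factorial * (1 / r1 ^ (k + 1))) :=
      le_mul_of_one_le_left (by positivity) hm1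
    rw [← h6] at h7
    have h8 := norm_sub_le (Bk d L (k + 1) s1 + (m : ℂ) * (k.factorial / (s1 - ρ1) ^ (k + 1)))
      (Bk d L (k + 1) s1)
    rw [add_sub_cancel_left] at h8
    linarith
  -- the upper bound
  set C2 : ℝ := 2 * C1 * (‖s1‖ / R + 1) with hC2
  have hup : ∀ k : ℕ, Nk (AA d L) σ k ≤ C * z ^ (k + 1) → Nk (AA d L) σ (k + 1) ≤ C * z ^ (k + 1 + 1) →
      ‖Bk d L (k + 1) s1‖ ≤ k.factorial * (C2 * ((k + 1 : ℕ) : ℝ) ^ 2 * (1 / R) ^ (k + 1)) := by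
    intro k hk hk'
    have hrc := Ik_rec hS.hL h2 k (s := s1) (by rw [q1]; exact hσ)
    rw [← hrc]
    have b1 := hIk s1 q1 k hk
    have b2 := hIk s1 q1 (k + 1) hk'
    have hk0 : (0 : ℝ) < k.factorial := by positivity
    have hk1 : ((k + 1).factorial : ℝ) = ((k + 1 : ℕ) : ℝ) * k.factorial := by
      rw [Nat.factorial_succ]; push_cast; rfl
    have e1 : ∀ j : ℕ, y ^ j / σ ^ j = (1 / R) ^ j := by
      intro j
      rw [hy, div_pow, div_pow, one_pow]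
      have : 0 < σ ^ j := by positivity
      field_simp
    have b1' : ‖Ik d L k s1‖ ≤ k.factorial * (C1 * ((k + 1 : ℕ) : ℝ) * (1 / R) ^ (k + 1)) := by
      refine b1.trans_eq ?_
      rw [← e1 (k + 1)]
      ring
    have b2' : ‖Ik d L (k + 1) s1‖ ≤ ((k + 1 : ℕ) : ℝ) * k.factorial *
        (C1 * ((k + 1 + 1 : ℕ) : ℝ) * (1 / R) ^ (k + 1 + 1)) := by
      refine b2.trans_eq ?_
      rw [← e1 (k + 1 + 1), hk1]
      ring
    have kn0 : (0 : ℝ) ≤ k := Nat.cast_nonneg k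
    calc ‖s1 * Ik d L (k + 1) s1 - ((k : ℂ) + 1) * Ik d L k s1‖ ≤
        ‖s1 * Ik d L (k + 1) s1‖ + ‖((k : ℂ) + 1) * Ik d L k s1‖ := norm_sub_le _ _
      _ = ‖s1‖ * ‖Ik d L (k + 1) s1‖ + ((k + 1 : ℕ) : ℝ) * ‖Ik d L k s1‖ := by
          rw [norm_mul, norm_mul]
          congr 2
          rw [show (k : ℂ) + 1 = ((k + 1 : ℕ) : ℂ) by push_cast; rfl, Complex.norm_natCast]
      _ ≤ ‖s1‖ * (((k + 1 : ℕ) : ℝ) * k.factorial * (C1 * ((k + 1 + 1 : ℕ) : ℝ) * (1 / R) ^ (k + 1 + 1))) +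
          ((k + 1 : ℕ) : ℝ) * (k.factorial * (C1 * ((k + 1 : ℕ) : ℝ) * (1 / R) ^ (k + 1))) := by gcongr
      _ ≤ ‖s1‖ * (((k + 1 : ℕ) : ℝ) * k.factorial * (C1 * (2 * ((k + 1 : ℕ) : ℝ)) * (1 / R) ^ (k + 1 + 1))) +
          2 * (((k + 1 : ℕ) : ℝ) * (k.factorial * (C1 * ((k + 1 : ℕ) : ℝ) * (1 / R) ^ (k + 1)))) := by
          have c1 : ((k + 1 + 1 : ℕ) : ℝ) ≤ 2 * ((k + 1 : ℕ) : ℝ) := by push_cast; linarith
          have c2 : 0 ≤ ((k + 1 : ℕ) : ℝ) * (k.factorial * (C1 * ((k + 1 : ℕ) : ℝ) * (1 / R) ^ (k + 1))) := by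
            positivity
          have c3 : ‖s1‖ * (((k + 1 : ℕ) : ℝ) * k.factorial * (C1 * ((k + 1 + 1 : ℕ) : ℝ) * (1 / R) ^ (k + 1 + 1))) ≤
            ‖s1‖ * (((k + 1 : ℕ) : ℝ) * k.factorial * (C1 * (2 * ((k + 1 : ℕ) : ℝ)) * (1 / R) ^ (k + 1 + 1))) := by
            gcongr
          linarith
      _ = _ := by
          rw [hC2, pow_succ (1 / R) (k + 1)]
          ring
  set X : ℝ := 1 / r1 with hX
  set w : ℝ := max (1 / R1) (1 / R) with hw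
  have hw0 : 0 < w := lt_max_of_lt_left (by positivity)
  have hwX : w < X := by
    rw [hw, hX, max_lt_iff]
    constructor
    · exact one_div_lt_one_div_of_lt hr1p q3
    · exact one_div_lt_one_div_of_lt hr1p (by linarith)
  set C3 : ℝ := M1 * R1 + |C2| with hC3
  have hC30 : 0 ≤ C3 := by positivity
  have hpw := (tendsto_add_atTop_nat 1).eventually (pow_win (C := C3) hw0.le hwX)
  obtain ⟨k, ⟨hk, hk'⟩, hk3⟩ := (hN.and_eventually hpw).exists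
  have f1 := hlow k
  have f2 := hup k hk hk'
  have hk0 : (0 : ℝ) < k.factorial := by positivity
  have f3 : (k.factorial : ℝ) * M1 / R1 ^ k = k.factorial * (M1 * R1 * (1 / R1) ^ (k + 1)) := by
    rw [one_div, inv_pow, pow_succ]
    field_simp
  have f4 : (k.factorial : ℝ) * X ^ (k + 1) ≤ k.factorial * (C3 * ((k + 1 : ℕ) : ℝ) ^ 2 * w ^ (k + 1)) := by
    have kn0 : (0 : ℝ) ≤ k := Nat.cast_nonneg k
    have kn : (1 : ℝ) ≤ ((k + 1 : ℕ) : ℝ) ^ 2 := by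
      refine one_le_pow₀ ?_
      push_cast
      linarith
    have g1 : (1 / R1) ^ (k + 1) ≤ w ^ (k + 1) := pow_le_pow_left₀ (by positivity) (le_max_left _ _) _
    have g2 : (1 / R) ^ (k + 1) ≤ w ^ (k + 1) := pow_le_pow_left₀ (by positivity) (le_max_right _ _) _
    have g3 : M1 * R1 * (1 / R1) ^ (k + 1) ≤ M1 * R1 * (((k + 1 : ℕ) : ℝ) ^ 2 * w ^ (k + 1)) := by
      gcongr
      exact g1.trans (le_mul_of_one_le_left (by positivity) kn)
    have g4 : C2 * ((k + 1 : ℕ) : ℝ) ^ 2 * (1 / R) ^ (k + 1) ≤ |C2| * (((k + 1 : ℕ) : ℝ) ^ 2 * w ^ (k + 1)) := by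
      rw [mul_assoc]
      calc C2 * (((k + 1 : ℕ) : ℝ) ^ 2 * (1 / R) ^ (k + 1)) ≤ |C2| * (((k + 1 : ℕ) : ℝ) ^ 2 * (1 / R) ^ (k + 1)) := by
            gcongr
            exact le_abs_self _
        _ ≤ _ := by gcongr
    have g5 : X ^ (k + 1) = 1 / r1 ^ (k + 1) := by rw [hX, one_div, inv_pow, one_div]
    rw [g5]
    calc (k.factorial : ℝ) * (1 / r1 ^ (k + 1)) ≤ ‖Bk d L (k + 1) s1‖ + k.factorial * M1 / R1 ^ k := f1
      _ ≤ k.factorial * (C2 * ((k + 1 : ℕ) : ℝ) ^ 2 * (1 / R) ^ (k + 1)) +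
          k.factorial * (M1 * R1 * (1 / R1) ^ (k + 1)) := by rw [← f3]; linarith
      _ = k.factorial * (C2 * ((k + 1 : ℕ) : ℝ) ^ 2 * (1 / R) ^ (k + 1) + M1 * R1 * (1 / R1) ^ (k + 1)) := by ring
      _ ≤ _ := by
          gcongr
          rw [hC3]
          linarith
  have f5 := le_of_mul_le_mul_left f4 hk0
  linarith

/-- **a zero or a pole to the right of `c` and `A(u) ≥ -W e^{cu}` in a sequence of windows: the supremum of the real
parts of the zeros and poles is a real pole** -/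
theorem zero_core {F : ℂ → ℂ} {c : ℝ} (hS : Ser d L F {s : ℂ | c < s.re}) (hc : 0 ≤ c)
    {ρ : ℂ} (hρ : c < ρ.re) (hord : meromorphicOrderAt F ρ ≠ 0) {δ : ℝ} (h0 : 0 < δ) (h1 : δ < 1) {W : ℝ}
    (hW : 0 ≤ W) (hcon : ∃ᶠ U : ℝ in atTop, ∀ u : ℝ, (1 - δ) * U ≤ u → u ≤ U →
      -(W * Real.exp (c * u)) ≤ AA d L u) :
    ∃ b : ℝ, c < b ∧ meromorphicOrderAt F (b : ℂ) < 0 ∧
      ∀ ρ' : ℂ, c < ρ'.re → meromorphicOrderAt F ρ' ≠ 0 → ρ'.re ≤ b := by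
  classical
  have h2 := hS.abs 2 (by norm_num)
  have hre1 : ∀ ρ : ℂ, meromorphicOrderAt F ρ ≠ 0 → ρ.re ≤ 1 := fun ρ hρ => by
    by_contra hlt
    push Not at hlt
    exact hρ (order_zero hS.hL hS.abs hS.exp hlt).2
  have hc1 : c < 1 := lt_of_lt_of_le hρ (hre1 ρ hord)
  set σ : ℝ := sg δ with hσd
  have hσ : 110 ≤ σ := sg_ge h0 h1
  set M : ℝ := ∑' i, |d i| * Real.exp (-(2 * L i)) with hM
  set C : ℝ := W + 2 * Real.exp 1 * M with hC
  have hN : ∃ᶠ n : ℕ in atTop, Nk (AA d L) σ n ≤ C * (σ / (σ - c)) ^ (n + 1) ∧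
      Nk (AA d L) σ (n + 1) ≤ C * (σ / (σ - c)) ^ (n + 1 + 1) := by
    refine (kk_tendsto h0 h1).frequently ?_
    refine (hcon.and_eventually (eventually_ge_atTop 0)).mono ?_
    rintro U ⟨hU, hU0⟩
    have hwin : ∀ u : ℝ, (1 - δ) * U ≤ u → u ≤ U → -AA d L u ≤ W * Real.exp (c * u) := fun u a b => by
      have := hU u a b
      linarith
    exact ⟨Nk_win (AA_gro hS.hL h2) h0 h1 hU0 hW hc (by linarith) hwin (Or.inl rfl),
      Nk_win (AA_gro hS.hL h2) h0 h1 hU0 hW hc (by linarith) hwin (Or.inr rfl)⟩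
  -- the supremum of the real parts
  set Sing : Set ℝ := {x : ℝ | ∃ ρ : ℂ, meromorphicOrderAt F ρ ≠ 0 ∧ c < ρ.re ∧ ρ.re = x} with hSing
  have hSne : Sing.Nonempty := ⟨ρ.re, ρ, hord, hρ, rfl⟩
  have hSb : BddAbove Sing := ⟨1, by rintro x ⟨ρ', a, b, rfl⟩; exact hre1 ρ' a⟩
  set Θ : ℝ := sSup Sing with hΘ
  have hρΘ : ρ.re ≤ Θ := le_csSup hSb ⟨ρ, hord, hρ, rfl⟩
  have hcΘ : c < Θ := lt_of_lt_of_le hρ hρΘ
  have hΘ1 : Θ ≤ 1 := csSup_le hSne (by rintro x ⟨ρ', a, b, rfl⟩; exact hre1 ρ' a)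
  have hleΘ : ∀ ρ' : ℂ, meromorphicOrderAt F ρ' ≠ 0 → c < ρ'.re → ρ'.re ≤ Θ := fun ρ' a b =>
    le_csSup hSb ⟨ρ', a, b, rfl⟩
  set R0 : ℝ := σ - (c + Θ) / 2 with hR0
  have hσ1 : 1 < (σ : ℂ).re := by simpa using (by linarith : (1 : ℝ) < σ)
  obtain ⟨Z, M', hM', z1, z2, z3⟩ := ext_disc hS.hL hS.abs hS.exp hS.conn hS.mer hσ1
    (show 0 < R0 by rw [hR0]; linarith)
    (ball_sub (s1 := (σ : ℂ)) (by rw [hR0]; simp only [Complex.ofReal_re]; linarith))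
  have hgap : ∀ ρ' ∈ Z.erase (Θ : ℂ), σ - Θ < ‖(σ : ℂ) - ρ'‖ := by
    intro ρ' hρ'
    obtain ⟨a1, a2⟩ := Finset.mem_erase.1 hρ'
    obtain ⟨b1, b2⟩ := z1 ρ' a2
    have b3 : c < ρ'.re := ball_sub (c := c) (s1 := (σ : ℂ)) (R := R0)
      (by rw [hR0]; simp only [Complex.ofReal_re]; linarith) b1
    have b4 := hleΘ ρ' b2 b3
    have b5 : ((σ : ℂ) - ρ').re = σ - ρ'.re := by simp
    have b6 := Complex.re_le_norm ((σ : ℂ) - ρ')
    rw [b5] at b6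
    refine lt_of_le_of_ne (by linarith) fun heq => a1 ?_
    have b7 : ρ'.re = Θ := by linarith
    have b8 : ‖(σ : ℂ) - ρ'‖ ^ 2 = (σ - ρ'.re) ^ 2 + ρ'.im ^ 2 := by
      rw [← Complex.normSq_eq_norm_sq, Complex.normSq_apply]
      simp
      ring
    rw [← heq, b7] at b8
    have b9 : ρ'.im = 0 := by
      have : ρ'.im ^ 2 = 0 := by linarith
      exact pow_eq_zero_iff (two_ne_zero) |>.1 this
    exact Complex.ext (by simpa using b7) (by simpa using b9)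
  obtain ⟨R, r1, r2, r3⟩ := exists_radius (Z.erase (Θ : ℂ)) (fun ρ' => ‖(σ : ℂ) - ρ'‖)
    (show σ - Θ < R0 by rw [hR0]; linarith) hgap
  have hun : ∀ ρ' : ℂ, ρ' ∈ Metric.closedBall (σ : ℂ) R → meromorphicOrderAt F ρ' ≠ 0 → ρ' = Θ := by
    intro ρ' a b
    by_contra hne
    have h5 : ρ' ∈ Metric.closedBall (σ : ℂ) R0 := Metric.closedBall_subset_closedBall r2.le a
    have h6 := r3 ρ' (Finset.mem_erase.2 ⟨hne, z2 ρ' h5 b⟩)
    rw [Metric.mem_closedBall, dist_comm, Complex.dist_eq] at a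
    linarith
  have hR2 : R < σ - c := by rw [hR0] at r2; linarith
  refine ⟨Θ, hcΘ, ?_, fun ρ' a b => hleΘ ρ' b a⟩
  by_contra hnn
  push Not at hnn
  by_cases hcase : meromorphicOrderAt F (Θ : ℂ) = 0
  · obtain ⟨x, ⟨ρ0, g1, g2, rfl⟩, g4⟩ := exists_lt_of_lt_csSup hSne (show σ - R < sSup Sing by
      rw [← hΘ]; linarith)
    refine case_complex hS hc (by linarith) (show 0 < R by linarith) hR2 (fun ρ' a => ?_) g1 g2 g4 hN
    by_contra hne
    have := hun ρ' a hne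
    rw [this] at hne
    exact hne hcase
  · exact case_real hS hc (by linarith) hcΘ (by linarith) hnn hcase r1 hR2 hun
      (hN.mono fun n hn => hn.1)

end Pool.Agent.Q18.W
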