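import Mathlib
import Pool.Agent.Q18.W.Zero2

/-! The order at `0` from one-sided bounds in a sequence of windows. -/

set_option autoImplicit false

open Complex MeasureTheory Set Filter Topology
open Pool.Agent.W189.TP (DS)
open Pool.Agent.TH949.TX (AA)

namespace Pool.Agent.Q18.W

variable {ι : Type*} [Countable ι] {d L : ι → ℝ}

/-- `S_n + m H_n` is bounded -/
theorem Sk_harm {F : ℂ → ℂ} {V : Set ℂ} (hS : Ser d L F V) {σ : ℝ} (hσ : 4 ≤ σ) {R : ℝ} (hR : σ < R)
    (hsub : Metric.closedBall (σ : ℂ) R ⊆ V)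
    (hun : ∀ ρ : ℂ, ρ ∈ Metric.closedBall (σ : ℂ) R → ρ ≠ 0 → meromorphicOrderAt F ρ = 0) :
    ∃ K : ℝ, ∀ n : ℕ, |Sk (AA d L) σ n + ((meromorphicOrderAt F 0).untop₀ : ℝ) * (harmonic n : ℝ)| ≤ K := by
  have h2 := hS.abs 2 (by norm_num)
  have hσ0 : 0 < σ := by linarith
  have hσ1 : 1 < (σ : ℂ).re := by simpa using (by linarith : (1 : ℝ) < σ)
  have hR0 : 0 < R := by linarith
  obtain ⟨Z, M, hM, z1, z2, z3⟩ := ext_disc hS.hL hS.abs hS.exp hS.conn hS.mer hσ1 hR0 hsub
  set m : ℤ := (meromorphicOrderAt F 0).untop₀ with hm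
  have h0b : (0 : ℂ) ∈ Metric.closedBall (σ : ℂ) R := by
    rw [Metric.mem_closedBall, dist_comm, Complex.dist_eq, sub_zero, Complex.norm_real,
      Real.norm_of_nonneg hσ0.le]
    exact hR.le
  have hZ0 : ∀ ρ ∈ Z, ρ = 0 := fun ρ hρ => by
    by_contra hne
    exact (z1 ρ hρ).2 (hun ρ (z1 ρ hρ).1 hne)
  have hsum : ∀ k : ℕ, ∑ ρ ∈ Z, ((meromorphicOrderAt F ρ).untop₀ : ℂ) * (k.factorial / ((σ : ℂ) - ρ) ^ (k + 1)) =
      (((k.factorial : ℝ) * ((m : ℝ) / σ ^ (k + 1)) : ℝ) : ℂ) := by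
    intro k
    by_cases h0 : meromorphicOrderAt F 0 = 0
    · have hZe : Z = ∅ := by
        refine Finset.eq_empty_of_forall_notMem fun ρ hρ => ?_
        have := (z1 ρ hρ).2
        rw [hZ0 ρ hρ] at this
        exact this h0
      have hm0 : m = 0 := by rw [hm, h0]; rfl
      rw [hZe, Finset.sum_empty, hm0]
      simp
    · have hZe : Z = {0} := by
        ext ρ
        rw [Finset.mem_singleton]
        constructor
        · exact hZ0 ρ
        · rintro rfl
          exact z2 0 h0b h0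
      rw [hZe, Finset.sum_singleton, ← hm]
      push_cast
      ring
  have herr : ∀ k : ℕ, |(Bk d L (k + 1) (σ : ℂ)).re + k.factorial * ((m : ℝ) / σ ^ (k + 1))| ≤
      k.factorial * M / R ^ k := by
    intro k
    have h5 := z3 k
    rw [hsum] at h5
    have h6 := (Complex.abs_re_le_norm _).trans h5
    rwa [Complex.add_re, Complex.ofReal_re] at h6
  have hSe := Sk_error hS.hL h2 hσ hR0 hM (fun k => (m : ℝ) / σ ^ k) herr
  set q : ℝ := σ / R with hq
  have hq0 : 0 ≤ q := by positivity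
  have hq1 : q < 1 := by rw [hq, div_lt_one hR0]; exact hR
  have hstep : ∀ k : ℕ, |(Sk (AA d L) σ (k + 1) + (m : ℝ) * (harmonic (k + 1) : ℝ)) -
      (Sk (AA d L) σ k + (m : ℝ) * (harmonic k : ℝ))| ≤ σ * M * q ^ k := by
    intro k
    have h5 := hSe k
    have e : (Sk (AA d L) σ (k + 1) + (m : ℝ) * (harmonic (k + 1) : ℝ)) -
        (Sk (AA d L) σ k + (m : ℝ) * (harmonic k : ℝ)) =
        Sk (AA d L) σ (k + 1) - Sk (AA d L) σ k + σ ^ (k + 1) * ((m : ℝ) / σ ^ (k + 1)) / (k + 1) := by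
      rw [harmonic_succ]
      push_cast
      have : σ ^ (k + 1) ≠ 0 := by positivity
      field_simp
      ring
    rw [e]
    exact h5
  refine ⟨|Sk (AA d L) σ 0 + (m : ℝ) * (harmonic 0 : ℝ)| + σ * M / (1 - q), fun n => ?_⟩
  have hsum2 : |Sk (AA d L) σ n + (m : ℝ) * (harmonic n : ℝ)| ≤
      |Sk (AA d L) σ 0 + (m : ℝ) * (harmonic 0 : ℝ)| + ∑ k ∈ Finset.range n, σ * M * q ^ k := by
    induction n with
    | zero => simp
    | succ n ih =>
      rw [Finset.sum_range_succ]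
      have h6 := hstep n
      have h7 := abs_add_le ((Sk (AA d L) σ (n + 1) + (m : ℝ) * (harmonic (n + 1) : ℝ)) -
        (Sk (AA d L) σ n + (m : ℝ) * (harmonic n : ℝ))) (Sk (AA d L) σ n + (m : ℝ) * (harmonic n : ℝ))
      rw [sub_add_cancel] at h7
      linarith
  refine hsum2.trans ?_
  gcongr
  rw [← Finset.mul_sum, div_eq_mul_inv]
  gcongr
  rw [← tsum_geometric_of_lt_one hq0 hq1]
  exact (summable_geometric_of_lt_one hq0 hq1).sum_le_tsum _ fun k _ => by positivity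

/-- adding a constant -/
theorem aF_add {f : ℝ → ℝ} {M : ℝ} (hf : Gro f M) (W : ℝ) (k : ℕ) {σ : ℝ} (hσ : 4 ≤ σ) :
    Sk (fun u => f u + W) σ k = Sk f σ k + W := by
  obtain ⟨i1, j1⟩ := pw_int k (show 0 < σ by linarith)
  have hσ0 : 0 < σ := by linarith
  have e : aF (fun u => f u + W) k σ = aF f k σ + W * (k.factorial / σ ^ (k + 1)) := by
    unfold aF
    have e1 : ∀ u ∈ Ioi (0 : ℝ), (f u + W) * (u ^ k * Real.exp (-(σ * u))) =
        f u * (u ^ k * Real.exp (-(σ * u))) + W * (u ^ k * Real.exp (-(σ * u))) := fun u _ => by ring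
    rw [setIntegral_congr_fun measurableSet_Ioi e1, integral_add (F_int hf k hσ) (i1.const_mul W),
      integral_const_mul, j1]
  unfold Sk
  rw [e]
  have hk0 : (0 : ℝ) < k.factorial := by positivity
  field_simp

theorem Gro_add {f : ℝ → ℝ} {M : ℝ} (hf : Gro f M) (W : ℝ) : Gro (fun u => f u + W) (M + |W|) := by
  refine ⟨hf.meas.add measurable_const, add_nonneg hf.pos (abs_nonneg _), fun u hu => ?_⟩
  have h1 := hf.le u hu
  have h2 : 1 ≤ Real.exp (2 * u) := Real.one_le_exp (by linarith)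
  have h3 : |f u + W| ≤ |f u| + |W| := abs_add_le _ _
  have h4 : |W| ≤ |W| * Real.exp (2 * u) := le_mul_of_one_le_right (abs_nonneg _) h2
  linarith [add_mul M |W| (Real.exp (2 * u))]

/-- the lower bound of `S_k` from a lower bound in the window -/
theorem Sk_low {f : ℝ → ℝ} {M : ℝ} (hf : Gro f M) {δ U W : ℝ} (h0 : 0 < δ) (h1 : δ < 1) (hU : 0 ≤ U)
    (hwin : ∀ u : ℝ, (1 - δ) * U ≤ u → u ≤ U → -W ≤ f u) :
    -W - 2 * Real.exp (1 - U) * (M + |W|) ≤ Sk f (sg δ) (kk δ U) := by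
  have hs := sg_ge h0 h1
  have hg := Gro_add hf W
  have hw2 : ∀ u : ℝ, (1 - δ) * U ≤ u → u ≤ U → -(f u + W) ≤ 0 * Real.exp (0 * u) := fun u a b => by
    have := hwin u a b
    rw [zero_mul]
    linarith
  have h2 := N_win hg h0 h1 hU le_rfl (show (0 : ℝ) < sg δ by linarith) hw2 (k := kk δ U) (Or.inl rfl)
  have h3 := Sk_zero_le (fun u => f u + W) hg (show 4 ≤ sg δ by linarith) (kk δ U)
  rw [aF_add hf W (kk δ U) (show 4 ≤ sg δ by linarith)] at h3
  have hs0 : 0 < sg δ := by linarith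
  have hk0 : (0 : ℝ) < (kk δ U).factorial := by positivity
  have h4 : Nk (fun u => f u + W) (sg δ) (kk δ U) ≤ 2 * Real.exp (1 - U) * (M + |W|) := by
    unfold Nk
    rw [div_le_iff₀ hk0]
    calc sg δ ^ (kk δ U + 1) * nF (fun u => f u + W) (kk δ U) (sg δ) ≤
        sg δ ^ (kk δ U + 1) * ((kk δ U).factorial * (0 / (sg δ - 0) ^ (kk δ U + 1) +
          (M + |W|) * (2 * Real.exp (1 - U) / sg δ ^ (kk δ U + 1)))) := by gcongr
      _ = _ := by
          have : sg δ ^ (kk δ U + 1) ≠ 0 := by positivity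
          field_simp
          ring
  linarith

/-- the harmonic numbers at `k(U)` -/
theorem harm_log {δ U : ℝ} (h0 : 0 < δ) (h1 : δ < 1) (hU : 1 ≤ U) :
    |(harmonic (kk δ U) : ℝ) - Real.log U| ≤
      1 + |Real.log (sg δ * (1 - δ / 2))| + |Real.log (sg δ * (1 - δ / 2) + 2)| := by
  obtain ⟨k1, k2⟩ := kk_spec h0 h1 (show 0 ≤ U by linarith) (Or.inl rfl : kk δ U = kk δ U ∨ _)
  have hs := sg_ge h0 h1
  set a : ℝ := sg δ * (1 - δ / 2) with ha
  have ha0 : 0 < a := mul_pos (by linarith) (by linarith)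
  have hU0 : 0 < U := by linarith
  have e1 := log_add_one_le_harmonic (kk δ U)
  have e2 := harmonic_le_one_add_log (kk δ U)
  have e3 : Real.log (a * U) ≤ Real.log ((kk δ U : ℝ) + 1) := Real.log_le_log (by positivity) k1
  have e4 : Real.log (kk δ U : ℝ) ≤ Real.log ((a + 2) * U) := by
    rcases Nat.eq_zero_or_pos (kk δ U) with h | h
    · rw [h, Nat.cast_zero, Real.log_zero]
      refine Real.log_nonneg ?_
      nlinarith
    · refine Real.log_le_log (by exact_mod_cast h) ?_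
      nlinarith
  rw [Real.log_mul ha0.ne' hU0.ne'] at e3
  rw [Real.log_mul (by linarith) hU0.ne'] at e4
  push_cast at e1
  have f1 := neg_abs_le (Real.log a)
  have f2 := le_abs_self (Real.log (a + 2))
  have f3 := abs_nonneg (Real.log a)
  have f4 := abs_nonneg (Real.log (a + 2))
  rw [abs_le]
  constructor <;> linarith

/-- **the order at `0` is at most `κ` if `A(u) ≥ -κ log u - C` in a sequence of windows** -/
theorem rank_win {F : ℂ → ℂ} {V : Set ℂ} (hS : Ser d L F V) {δ : ℝ} (h0 : 0 < δ) (h1 : δ < 1) {R : ℝ}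
    (hR : sg δ < R) (hsub : Metric.closedBall (sg δ : ℂ) R ⊆ V)
    (hun : ∀ ρ : ℂ, ρ ∈ Metric.closedBall (sg δ : ℂ) R → ρ ≠ 0 → meromorphicOrderAt F ρ = 0) {κ C0 : ℝ}
    (hwin : ∃ᶠ U : ℝ in atTop, ∀ u : ℝ, (1 - δ) * U ≤ u → u ≤ U → -(κ * Real.log u + C0) ≤ AA d L u) :
    ((meromorphicOrderAt F 0).untop₀ : ℝ) ≤ κ := by
  have h2 := hS.abs 2 (by norm_num)
  have hs := sg_ge h0 h1
  obtain ⟨K, hK⟩ := Sk_harm hS (show 4 ≤ sg δ by linarith) hR hsub hun
  have hf := AA_gro (d := d) hS.hL h2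
  set M : ℝ := ∑' i, |d i| * Real.exp (-(2 * L i)) with hM
  set m : ℤ := (meromorphicOrderAt F 0).untop₀ with hm
  set c1 : ℝ := |κ| * |Real.log (1 - δ)| + |C0| with hc1
  set c2 : ℝ := 1 + |Real.log (sg δ * (1 - δ / 2))| + |Real.log (sg δ * (1 - δ / 2) + 2)| with hc2
  have hM0 := hf.pos
  by_contra hlt
  push Not at hlt
  set C7 : ℝ := K + c1 + 2 * Real.exp 1 * M + 2 * (|κ| + c1) + |(m : ℝ)| * c2 with hC7
  have hev : ∀ᶠ U : ℝ in atTop, C7 < ((m : ℝ) - κ) * Real.log U :=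
    (Real.tendsto_log_atTop.const_mul_atTop (show 0 < (m : ℝ) - κ by linarith)).eventually_gt_atTop C7
  obtain ⟨U, hU, hU7, hU1⟩ := (hwin.and_eventually (hev.and (eventually_ge_atTop 1))).exists
  have hU0 : 0 < U := by linarith
  have hlU : 0 ≤ Real.log U := Real.log_nonneg hU1
  set W : ℝ := κ * Real.log U + c1 with hW
  have hw : ∀ u : ℝ, (1 - δ) * U ≤ u → u ≤ U → -W ≤ AA d L u := by
    intro u a b
    refine le_trans ?_ (hU u a b)
    have hd : 0 < 1 - δ := by linarith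
    have hu0 : 0 < u := lt_of_lt_of_le (by positivity) a
    have g1 : Real.log u ≤ Real.log U := Real.log_le_log hu0 b
    have g2 : Real.log (1 - δ) + Real.log U ≤ Real.log u := by
      rw [← Real.log_mul hd.ne' hU0.ne']
      exact Real.log_le_log (by positivity) a
    have g3 : |κ * (Real.log u - Real.log U)| ≤ |κ| * |Real.log (1 - δ)| := by
      rw [abs_mul]
      refine mul_le_mul_of_nonneg_left ?_ (abs_nonneg _)
      rw [abs_of_nonpos (by linarith : Real.log u - Real.log U ≤ 0),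
        abs_of_nonpos (Real.log_nonpos hd.le (by linarith))]
      linarith
    have g4 := (abs_le.1 g3).2
    have g5 := le_abs_self C0
    rw [hW, hc1]
    linarith [mul_sub κ (Real.log u) (Real.log U)]
  have h3 := Sk_low hf h0 h1 hU0.le hw
  have h4 := (abs_le.1 (hK (kk δ U))).2
  have h5 := harm_log h0 h1 hU1
  rw [← hc2] at h5
  have h6 : |(m : ℝ) * ((harmonic (kk δ U) : ℝ) - Real.log U)| ≤ |(m : ℝ)| * c2 := by
    rw [abs_mul]; gcongr
  have h7 := (abs_le.1 h6).1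
  have hc10 : 0 ≤ c1 := by positivity
  have hlogU : Real.log U ≤ U := by
    have := Real.log_le_sub_one_of_pos hU0
    linarith
  have h8 : |W| ≤ (|κ| + c1) * U := by
    calc |W| ≤ |κ * Real.log U| + |c1| := abs_add_le _ _
      _ = |κ| * Real.log U + c1 := by rw [abs_mul, abs_of_nonneg hlU, abs_of_nonneg hc10]
      _ ≤ |κ| * U + c1 * U := by
          have : c1 ≤ c1 * U := le_mul_of_one_le_right hc10 hU1
          gcongr
      _ = _ := by ring
  have h9 : Real.exp (1 - U) * U ≤ 1 := by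
    have g1 : U ≤ Real.exp (U - 1) := by
      have := Real.add_one_le_exp (U - 1)
      linarith
    calc Real.exp (1 - U) * U ≤ Real.exp (1 - U) * Real.exp (U - 1) := by gcongr
      _ = 1 := by rw [← Real.exp_add]; simp
  have h10 : 2 * Real.exp (1 - U) * (M + |W|) ≤ 2 * Real.exp 1 * M + 2 * (|κ| + c1) := by
    have g1 : Real.exp (1 - U) ≤ Real.exp 1 := Real.exp_le_exp.2 (by linarith)
    have g2 : 2 * Real.exp (1 - U) * M ≤ 2 * Real.exp 1 * M := by gcongr
    have g3 : 2 * Real.exp (1 - U) * |W| ≤ 2 * (|κ| + c1) := by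
      calc 2 * Real.exp (1 - U) * |W| ≤ 2 * Real.exp (1 - U) * ((|κ| + c1) * U) := by gcongr
        _ = 2 * (|κ| + c1) * (Real.exp (1 - U) * U) := by ring
        _ ≤ 2 * (|κ| + c1) * 1 := by gcongr
        _ = _ := by ring
    linarith [mul_add (2 * Real.exp (1 - U)) M |W|]
  have h11 : ((m : ℝ) - κ) * Real.log U ≤ C7 := by
    rw [hC7]
    have e : (m : ℝ) * ((harmonic (kk δ U) : ℝ) - Real.log U) =
      (m : ℝ) * (harmonic (kk δ U) : ℝ) - (m : ℝ) * Real.log U := by ring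
    rw [e] at h7
    have e2 : ((m : ℝ) - κ) * Real.log U = (m : ℝ) * Real.log U - κ * Real.log U := by ring
    rw [e2]
    linarith
  linarith

end Pool.Agent.Q18.W
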