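import Mathlib
import Pool.Agent.Q18.W.Rank

/-! One-sided bounds in one sequence of windows: no singularities to the right of `0` and the order at `0`. -/

set_option autoImplicit false

open Complex MeasureTheory Set Filter Topology
open Pool.Agent.W189.TP (DS)
open Pool.Agent.TH949.TX (AA)

namespace Pool.Agent.Q18.W

variable {ι : Type*} [Countable ι] {d L : ι → ℝ}

omit [Countable ι] in
/-- a good neighbourhood of the closed half plane near `0` -/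
theorem nbhd {F : ℂ → ℂ} (hL : ∀ i, 0 ≤ L i)
    (habs : ∀ t : ℝ, 1 < t → Summable fun i => |d i| * Real.exp (-(t * L i)))
    (hE : ∀ s : ℂ, 1 < s.re → F s = cexp (DS d L s))
    (hF : MeromorphicOn F {s : ℂ | 0 < s.re}) (hF0 : MeromorphicAt F 0) :
    ∃ η : ℝ, 0 < η ∧ Ser d L F ({s : ℂ | 0 < s.re} ∪ Metric.ball 0 η) ∧
      ∀ ρ ∈ Metric.ball (0 : ℂ) η, ρ ≠ 0 → meromorphicOrderAt F ρ = 0 := by
  have hconn : ∀ η : ℝ, 0 < η → IsPreconnected ({s : ℂ | 0 < s.re} ∪ Metric.ball (0 : ℂ) η) := by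
    intro η hη
    refine IsPreconnected.union ((η / 2 : ℝ) : ℂ) ?_ ?_ (convex_halfSpace_re_gt 0).isPreconnected
      (convex_ball (0 : ℂ) η).isPreconnected
    · show 0 < (((η / 2 : ℝ) : ℂ)).re
      rw [Complex.ofReal_re]; linarith
    · rw [Metric.mem_ball, Complex.dist_eq, sub_zero, Complex.norm_real, Real.norm_of_nonneg (by linarith)]
      linarith
  have han := hF0.eventually_analyticAt
  rw [eventually_nhdsWithin_iff, Metric.eventually_nhds_iff_ball] at han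
  obtain ⟨η1, hη1, han⟩ := han
  have hmer1 : MeromorphicOn F ({s : ℂ | 0 < s.re} ∪ Metric.ball (0 : ℂ) η1) := by
    rintro z (hz | hz)
    · exact hF z hz
    · by_cases h0 : z = 0
      · rw [h0]; exact hF0
      · exact (han z hz h0).meromorphicAt
  have htop : meromorphicOrderAt F 0 ≠ ⊤ :=
    order_ne_top (hconn η1 hη1) hmer1 hL habs hE (s1 := 2) (by norm_num)
      (Or.inl (show 0 < (2 : ℂ).re by norm_num)) (Or.inr (Metric.mem_ball_self hη1))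
  have hnz := (meromorphicOrderAt_ne_top_iff_eventually_ne_zero hF0).1 htop
  rw [eventually_nhdsWithin_iff, Metric.eventually_nhds_iff_ball] at hnz
  obtain ⟨η2, hη2, hnz⟩ := hnz
  refine ⟨min η1 η2, lt_min hη1 hη2, ⟨hL, habs, hE, hconn _ (lt_min hη1 hη2), ?_⟩, fun ρ hρ h0 => ?_⟩
  · rintro z (hz | hz)
    · exact hF z hz
    · exact hmer1 z (Or.inr (Metric.ball_subset_ball (min_le_left _ _) hz))
  · have h1 := han ρ (Metric.ball_subset_ball (min_le_left _ _) hρ) h0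
    have h2 := hnz ρ (Metric.ball_subset_ball (min_le_right _ _) hρ) h0
    rw [h1.meromorphicOrderAt_eq, h1.analyticOrderAt_eq_zero.2 h2]
    simp

/-- a disc around `σ` that contains `0` in its interior -/
theorem disc_sub {η σ : ℝ} (hη : 0 < η) (hσ : 0 < σ) :
    ∃ R : ℝ, σ < R ∧ Metric.closedBall (σ : ℂ) R ⊆ {s : ℂ | 0 < s.re} ∪ Metric.ball 0 η := by
  refine ⟨√(σ ^ 2 + η ^ 2 / 2), ?_, ?_⟩
  · refine Real.lt_sqrt_of_sq_lt ?_
    have : 0 < η ^ 2 / 2 := by positivity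
    linarith
  · intro z hz
    rw [Metric.mem_closedBall, Complex.dist_eq] at hz
    by_cases hre : 0 < z.re
    · exact Or.inl hre
    · refine Or.inr ?_
      push Not at hre
      rw [Metric.mem_ball, Complex.dist_eq, sub_zero]
      have h1 : ‖z - σ‖ ^ 2 ≤ σ ^ 2 + η ^ 2 / 2 := by
        have h2 : ‖z - σ‖ ^ 2 ≤ (√(σ ^ 2 + η ^ 2 / 2)) ^ 2 := pow_le_pow_left₀ (norm_nonneg _) hz 2
        rwa [Real.sq_sqrt (by positivity)] at h2
      have h3 : ‖z‖ ^ 2 = ‖z - σ‖ ^ 2 + 2 * σ * z.re - σ ^ 2 := by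
        rw [← Complex.normSq_eq_norm_sq, ← Complex.normSq_eq_norm_sq, Complex.normSq_apply, Complex.normSq_apply]
        simp
        ring
      have h4 : σ * z.re ≤ 0 := mul_nonpos_of_nonneg_of_nonpos hσ.le hre
      have h5 : ‖z‖ ^ 2 < η ^ 2 := by
        have : 0 < η ^ 2 / 2 := by positivity
        linarith
      exact lt_of_pow_lt_pow_left₀ 2 hη.le h5

/-- the supremum of the real parts is a real pole, from a lower bound in a sequence of windows -/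
theorem sup_pole {F : ℂ → ℂ} (hL : ∀ i, 0 ≤ L i)
    (habs : ∀ t : ℝ, 1 < t → Summable fun i => |d i| * Real.exp (-(t * L i)))
    (hE : ∀ s : ℂ, 1 < s.re → F s = cexp (DS d L s))
    (hF : MeromorphicOn F {s : ℂ | 0 < s.re}) {δ : ℝ} (h0 : 0 < δ) (h1 : δ < 1) {g : ℝ → ℝ}
    (hg : ∀ c : ℝ, 0 < c → ∀ᶠ u : ℝ in atTop, g u ≤ Real.exp (c * u))
    (hwin : ∃ᶠ U : ℝ in atTop, ∀ u : ℝ, (1 - δ) * U ≤ u → u ≤ U → -g u ≤ AA d L u)
    {ρ : ℂ} (hρ : 0 < ρ.re) (hord : meromorphicOrderAt F ρ ≠ 0) :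
    ∃ b : ℝ, 0 < b ∧ meromorphicOrderAt F (b : ℂ) < 0 ∧
      ∀ ρ' : ℂ, meromorphicOrderAt F ρ' ≠ 0 → ρ'.re ≤ b := by
  set c : ℝ := ρ.re / 2 with hc
  have hc0 : 0 < c := by rw [hc]; linarith
  have hS : Ser d L F {s : ℂ | c < s.re} :=
    ⟨hL, habs, hE, half_conn c, fun z hz => hF z (show 0 < z.re from lt_trans hc0 hz)⟩
  obtain ⟨u0, hu0⟩ := eventually_atTop.1 (hg c hc0)
  have h3 : ∀ᶠ U : ℝ in atTop, u0 ≤ (1 - δ) * U :=
    (tendsto_id.const_mul_atTop (show 0 < 1 - δ by linarith)).eventually_ge_atTop u0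
  have hw : ∃ᶠ U : ℝ in atTop, ∀ u : ℝ, (1 - δ) * U ≤ u → u ≤ U →
      -(1 * Real.exp (c * u)) ≤ AA d L u := by
    refine (hwin.and_eventually h3).mono fun U hU u a b => ?_
    have h4 := hU.1 u a b
    have h5 := hu0 u (hU.2.trans a)
    rw [one_mul]
    linarith
  obtain ⟨b, hb1, hb2, hb3⟩ := zero_core hS hc0.le (show c < ρ.re by rw [hc]; linarith) hord
    h0 h1 (W := 1) zero_le_one hw
  refine ⟨b, by linarith, hb2, fun ρ' hρ' => ?_⟩
  by_cases hcr : c < ρ'.re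
  · exact hb3 ρ' hcr hρ'
  · push Not at hcr
    linarith

/-- **no singularities to the right of `0`** -/
theorem no_sing {F : ℂ → ℂ} (hL : ∀ i, 0 ≤ L i)
    (habs : ∀ t : ℝ, 1 < t → Summable fun i => |d i| * Real.exp (-(t * L i)))
    (hE : ∀ s : ℂ, 1 < s.re → F s = cexp (DS d L s))
    (hF : MeromorphicOn F {s : ℂ | 0 < s.re})
    (hreal : ∀ x : ℝ, 0 < x → 0 ≤ meromorphicOrderAt F (x : ℂ)) {δ : ℝ} (h0 : 0 < δ) (h1 : δ < 1) {g : ℝ → ℝ}
    (hg : ∀ c : ℝ, 0 < c → ∀ᶠ u : ℝ in atTop, g u ≤ Real.exp (c * u))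
    (hwin : ∃ᶠ U : ℝ in atTop, ∀ u : ℝ, (1 - δ) * U ≤ u → u ≤ U → -g u ≤ AA d L u)
    {ρ : ℂ} (hρ : 0 < ρ.re) : meromorphicOrderAt F ρ = 0 := by
  by_contra hord
  obtain ⟨b, hb1, hb2, hb3⟩ := sup_pole hL habs hE hF h0 h1 hg hwin hρ hord
  exact absurd (hreal b hb1) (not_le.2 hb2)

omit [Countable ι] in
theorem inv_data {F : ℂ → ℂ} (hL : ∀ i, 0 ≤ L i)
    (habs : ∀ t : ℝ, 1 < t → Summable fun i => |d i| * Real.exp (-(t * L i)))
    (hE : ∀ s : ℂ, 1 < s.re → F s = cexp (DS d L s)) :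
    (∀ t : ℝ, 1 < t → Summable fun i => |-d i| * Real.exp (-(t * L i))) ∧
    (∀ s : ℂ, 1 < s.re → F⁻¹ s = cexp (DS (fun i => -d i) L s)) ∧
    (∀ u : ℝ, AA (fun i => -d i) L u = -AA d L u) := by
  refine ⟨by simpa using habs, fun s hs => ?_, fun u => ?_⟩
  · have hDS : DS (fun i => -d i) L s = -DS d L s := by
      unfold Pool.Agent.W189.TP.DS
      rw [← tsum_neg]
      exact tsum_congr fun i => by push_cast; ring
    rw [Pi.inv_apply, hE s hs, hDS, Complex.exp_neg]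
  · unfold AA
    rw [← tsum_neg]
    exact tsum_congr fun i => by by_cases h : L i ≤ u <;> simp [h]

/-- **no singularities to the right of `0`** from a two-sided bound, real zeros and poles allowed -/
theorem no_sing_two {F : ℂ → ℂ} (hL : ∀ i, 0 ≤ L i)
    (habs : ∀ t : ℝ, 1 < t → Summable fun i => |d i| * Real.exp (-(t * L i)))
    (hE : ∀ s : ℂ, 1 < s.re → F s = cexp (DS d L s))
    (hF : MeromorphicOn F {s : ℂ | 0 < s.re}) {δ δ' : ℝ} (h0 : 0 < δ) (h1 : δ < 1) (h0' : 0 < δ') (h1' : δ' < 1)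
    {g g' : ℝ → ℝ}
    (hg : ∀ c : ℝ, 0 < c → ∀ᶠ u : ℝ in atTop, g u ≤ Real.exp (c * u))
    (hwin : ∃ᶠ U : ℝ in atTop, ∀ u : ℝ, (1 - δ) * U ≤ u → u ≤ U → -g u ≤ AA d L u)
    (hg' : ∀ c : ℝ, 0 < c → ∀ᶠ u : ℝ in atTop, g' u ≤ Real.exp (c * u))
    (hwin' : ∃ᶠ U : ℝ in atTop, ∀ u : ℝ, (1 - δ') * U ≤ u → u ≤ U → AA d L u ≤ g' u)
    {ρ : ℂ} (hρ : 0 < ρ.re) : meromorphicOrderAt F ρ = 0 := by
  by_contra hord
  obtain ⟨habs', hE', hAA⟩ := inv_data hL habs hE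
  have hinv : ∀ s : ℂ, meromorphicOrderAt F⁻¹ s = -meromorphicOrderAt F s := fun s => meromorphicOrderAt_inv
  have hord' : meromorphicOrderAt F⁻¹ ρ ≠ 0 := by
    rw [hinv]
    simpa using hord
  obtain ⟨b, hb1, hb2, hb3⟩ := sup_pole hL habs hE hF h0 h1 hg hwin hρ hord
  obtain ⟨b', hb1', hb2', hb3'⟩ := sup_pole hL habs' hE' (fun z hz => (hF z hz).inv) h0' h1' hg'
    (hwin'.mono fun U hU u a b => by rw [hAA]; linarith [hU u a b]) hρ hord'
  have hneg : ∀ s : ℂ, meromorphicOrderAt F⁻¹ s ≠ 0 ↔ meromorphicOrderAt F s ≠ 0 := fun s => by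
    rw [hinv]; simp
  have e1 : b ≤ b' := by
    have := hb3' (b : ℂ) ((hneg _).2 hb2.ne)
    simpa using this
  have e2 : b' ≤ b := by
    have := hb3 (b' : ℂ) ((hneg _).1 hb2'.ne)
    simpa using this
  have e3 : b = b' := le_antisymm e1 e2
  rw [hinv, ← e3] at hb2'
  rcases eq_or_ne (meromorphicOrderAt F (b : ℂ)) ⊤ with h | h
  · rw [h] at hb2
    exact absurd hb2 not_top_lt
  · obtain ⟨n, hn⟩ := WithTop.ne_top_iff_exists.1 h
    rw [← hn] at hb2 hb2'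
    have a1 : n < 0 := by exact_mod_cast hb2
    have a2 : ((-n : ℤ) : WithTop ℤ) < 0 := hb2'
    have a3 : -n < 0 := by exact_mod_cast a2
    omega

theorem log_le_exp (κ C0 : ℝ) {c : ℝ} (hc : 0 < c) : ∀ᶠ u : ℝ in atTop, κ * Real.log u + C0 ≤ Real.exp (c * u) := by
  have h1 : Tendsto (fun u : ℝ => Real.exp (c * u) / u) atTop atTop := by
    have h2 := tendsto_exp_mul_div_rpow_atTop 1 c hc
    refine h2.congr fun u => ?_
    rw [Real.rpow_one]
  filter_upwards [h1.eventually_ge_atTop (|κ| + |C0|), eventually_ge_atTop 1] with u hu hu1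
  have hu0 : 0 < u := by linarith
  rw [le_div_iff₀ hu0] at hu
  have h3 : Real.log u ≤ u := by
    have := Real.log_le_sub_one_of_pos hu0
    linarith
  have h4 : 0 ≤ Real.log u := Real.log_nonneg hu1
  have h5 : κ * Real.log u ≤ |κ| * u := by
    calc κ * Real.log u ≤ |κ| * Real.log u := by gcongr; exact le_abs_self κ
      _ ≤ _ := by gcongr
  have h6 : C0 ≤ |C0| * u := (le_abs_self C0).trans (le_mul_of_one_le_right (abs_nonneg _) hu1)
  linarith [add_mul |κ| |C0| u]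

/-- **the order at `0` from above**, when there are no singularities to the right of `0` -/
theorem rank_up {F : ℂ → ℂ} (hL : ∀ i, 0 ≤ L i)
    (habs : ∀ t : ℝ, 1 < t → Summable fun i => |d i| * Real.exp (-(t * L i)))
    (hE : ∀ s : ℂ, 1 < s.re → F s = cexp (DS d L s))
    (hF : MeromorphicOn F {s : ℂ | 0 < s.re}) (hF0 : MeromorphicAt F 0)
    (hz : ∀ ρ : ℂ, 0 < ρ.re → meromorphicOrderAt F ρ = 0) {δ κ C0 : ℝ} (h0 : 0 < δ) (h1 : δ < 1)
    (hwin : ∃ᶠ U : ℝ in atTop, ∀ u : ℝ, (1 - δ) * U ≤ u → u ≤ U → -(κ * Real.log u + C0) ≤ AA d L u) :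
    ((meromorphicOrderAt F 0).untop₀ : ℝ) ≤ κ := by
  obtain ⟨η, hη, hS, hun⟩ := nbhd hL habs hE hF hF0
  have hs := sg_ge h0 h1
  obtain ⟨R, hR, hsub⟩ := disc_sub (η := η) (σ := sg δ) hη (by linarith)
  refine rank_win hS h0 h1 hR hsub (fun ρ hρ hne => ?_) hwin
  rcases hsub hρ with h | h
  · exact hz ρ h
  · exact hun ρ h hne

/-- **the order at `0` from below**, when there are no singularities to the right of `0` -/
theorem rank_low {F : ℂ → ℂ} (hL : ∀ i, 0 ≤ L i)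
    (habs : ∀ t : ℝ, 1 < t → Summable fun i => |d i| * Real.exp (-(t * L i)))
    (hE : ∀ s : ℂ, 1 < s.re → F s = cexp (DS d L s))
    (hF : MeromorphicOn F {s : ℂ | 0 < s.re}) (hF0 : MeromorphicAt F 0)
    (hz : ∀ ρ : ℂ, 0 < ρ.re → meromorphicOrderAt F ρ = 0) {δ κ C0 : ℝ} (h0 : 0 < δ) (h1 : δ < 1)
    (hwin : ∃ᶠ U : ℝ in atTop, ∀ u : ℝ, (1 - δ) * U ≤ u → u ≤ U → AA d L u ≤ -(κ * Real.log u) + C0) :
    κ ≤ ((meromorphicOrderAt F 0).untop₀ : ℝ) := by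
  obtain ⟨habs', hE', hAA⟩ := inv_data hL habs hE
  have hinv : ∀ s : ℂ, meromorphicOrderAt F⁻¹ s = -meromorphicOrderAt F s := fun s => meromorphicOrderAt_inv
  have h2 := rank_up (d := fun i => -d i) hL habs' hE' (fun z hz => (hF z hz).inv) hF0.inv
    (fun ρ hρ => by rw [hinv, hz ρ hρ]; simp) (κ := -κ) (C0 := C0) h0 h1
    (hwin.mono fun U hU u a b => by rw [hAA]; linarith [hU u a b])
  rw [hinv] at h2
  have h3 : ((-meromorphicOrderAt F 0).untop₀ : ℤ) = -(meromorphicOrderAt F 0).untop₀ := by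
    rcases hh : meromorphicOrderAt F 0 with _ | n
    · rfl
    · rfl
  rw [h3] at h2
  push_cast at h2
  linarith

/-- **main theorem**: `A(u) ≥ -κ log u - C` for `u` in one sequence of windows `[(1-δ)U, U]` -/
theorem main_win {F : ℂ → ℂ} (hL : ∀ i, 0 ≤ L i)
    (habs : ∀ t : ℝ, 1 < t → Summable fun i => |d i| * Real.exp (-(t * L i)))
    (hE : ∀ s : ℂ, 1 < s.re → F s = cexp (DS d L s))
    (hF : MeromorphicOn F {s : ℂ | 0 < s.re}) (hF0 : MeromorphicAt F 0)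
    (hreal : ∀ x : ℝ, 0 < x → 0 ≤ meromorphicOrderAt F (x : ℂ)) {δ κ C0 : ℝ} (h0 : 0 < δ) (h1 : δ < 1)
    (hwin : ∃ᶠ U : ℝ in atTop, ∀ u : ℝ, (1 - δ) * U ≤ u → u ≤ U → -(κ * Real.log u + C0) ≤ AA d L u) :
    (∀ ρ : ℂ, 0 < ρ.re → meromorphicOrderAt F ρ = 0) ∧ ((meromorphicOrderAt F 0).untop₀ : ℝ) ≤ κ := by
  have hz : ∀ ρ : ℂ, 0 < ρ.re → meromorphicOrderAt F ρ = 0 := fun ρ hρ =>
    no_sing hL habs hE hF hreal h0 h1 (fun c hc => log_le_exp κ C0 hc) hwin hρ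
  exact ⟨hz, rank_up hL habs hE hF hF0 hz h0 h1 hwin⟩

/-- **main theorem, two-sided**: `-κ log u - C ≤ A(u)` in one sequence of windows and
`A(u) ≤ -κ' log u + C'` in one sequence of windows; real zeros and poles are allowed -/
theorem main_two {F : ℂ → ℂ} (hL : ∀ i, 0 ≤ L i)
    (habs : ∀ t : ℝ, 1 < t → Summable fun i => |d i| * Real.exp (-(t * L i)))
    (hE : ∀ s : ℂ, 1 < s.re → F s = cexp (DS d L s))
    (hF : MeromorphicOn F {s : ℂ | 0 < s.re}) (hF0 : MeromorphicAt F 0)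
    {δ κ C0 : ℝ} (h0 : 0 < δ) (h1 : δ < 1)
    (hwin : ∃ᶠ U : ℝ in atTop, ∀ u : ℝ, (1 - δ) * U ≤ u → u ≤ U → -(κ * Real.log u + C0) ≤ AA d L u)
    {δ' κ' C0' : ℝ} (h0' : 0 < δ') (h1' : δ' < 1)
    (hwin' : ∃ᶠ U : ℝ in atTop, ∀ u : ℝ, (1 - δ') * U ≤ u → u ≤ U → AA d L u ≤ -(κ' * Real.log u) + C0') :
    (∀ ρ : ℂ, 0 < ρ.re → meromorphicOrderAt F ρ = 0) ∧ ((meromorphicOrderAt F 0).untop₀ : ℝ) ≤ κ ∧
      κ' ≤ ((meromorphicOrderAt F 0).untop₀ : ℝ) := by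
  have hz : ∀ ρ : ℂ, 0 < ρ.re → meromorphicOrderAt F ρ = 0 := fun ρ hρ =>
    no_sing_two hL habs hE hF h0 h1 h0' h1' (fun c hc => log_le_exp κ C0 hc) hwin
      (g' := fun u => -κ' * Real.log u + C0') (fun c hc => log_le_exp (-κ') C0' hc)
      (hwin'.mono fun U hU u a b => by linarith [hU u a b]) hρ
  exact ⟨hz, rank_up hL habs hE hF hF0 hz h0 h1 hwin, rank_low hL habs hE hF hF0 hz h0' h1' hwin'⟩

end Pool.Agent.Q18.W
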