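import Mathlib
import Pool.Agent.Q18.W.Main

/-! The leading coefficient at `0`. -/

set_option autoImplicit false

open Complex MeasureTheory Set Filter Topology
open Pool.Agent.W189.TP (DS)
open Pool.Agent.TH949.TX (AA)
open Pool.Agent.TH443.TXExtract (near_exp)

namespace Pool.Agent.Q18.W

variable {ι : Type*} {d L : ι → ℝ}

/-- the logarithm of `F` without the singularity at `0` -/
theorem ext_log {F : ℂ → ℂ} {V : Set ℂ} (hS : Ser d L F V) {σ : ℝ} (hσ : 1 < σ) {R : ℝ} (hR : σ < R)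
    (hsub : Metric.closedBall (σ : ℂ) R ⊆ V)
    (hun : ∀ ρ : ℂ, ρ ∈ Metric.closedBall (σ : ℂ) R → ρ ≠ 0 → meromorphicOrderAt F ρ = 0) :
    ∃ h : ℂ → ℂ, DifferentiableOn ℂ h (Metric.ball (σ : ℂ) R) ∧
      (∀ᶠ s in 𝓝[≠] (0 : ℂ), F s = s ^ (meromorphicOrderAt F 0).untop₀ * cexp (h s)) ∧
      (∀ᶠ s in 𝓝 (σ : ℂ), DS d L s = ((meromorphicOrderAt F 0).untop₀ : ℂ) * Complex.log s + h s) := by
  classical
  obtain ⟨hL, habs, hE, hVc, hF⟩ := hS
  have hdiff := Pool.Agent.W189.TP.DS_diff hL habs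
  have hop : IsOpen {s : ℂ | 1 < s.re} := isOpen_lt continuous_const Complex.continuous_re
  have hσ0 : 0 < σ := by linarith
  have hR0 : 0 < R := by linarith
  have hσ1 : 1 < (σ : ℂ).re := by simpa using hσ
  have hσne : (σ : ℂ) ≠ 0 := by exact_mod_cast hσ0.ne'
  set m : ℤ := (meromorphicOrderAt F 0).untop₀ with hm
  set U : Set ℂ := Metric.closedBall (σ : ℂ) R with hU
  have hσU : (σ : ℂ) ∈ U := Metric.mem_closedBall_self hR0.le
  have hσB : (σ : ℂ) ∈ Metric.ball (σ : ℂ) R := Metric.mem_ball_self hR0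
  have h0B : (0 : ℂ) ∈ Metric.ball (σ : ℂ) R := by
    rw [Metric.mem_ball, dist_comm, Complex.dist_eq, sub_zero, Complex.norm_real, Real.norm_of_nonneg hσ0.le]
    exact hR
  have h0U : (0 : ℂ) ∈ U := Metric.ball_subset_closedBall h0B
  have hUn : ∀ s ∈ Metric.ball (σ : ℂ) R, U ∈ 𝓝 s := fun s hs =>
    mem_of_superset (Metric.isOpen_ball.mem_nhds hs) Metric.ball_subset_closedBall
  have hFU : MeromorphicOn F U := fun z hz => hF z (hsub hz)
  have htop : ∀ u ∈ U, meromorphicOrderAt F u ≠ ⊤ := fun u hu =>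
    order_ne_top hVc hF hL habs hE hσ1 (hsub hσU) (hsub hu)
  set D := MeromorphicOn.divisor F U with hD
  have hfin : D.support.Finite := D.finiteSupport (isCompact_closedBall (σ : ℂ) R)
  have hDv : ∀ u ∈ U, D u = (meromorphicOrderAt F u).untop₀ := fun u hu => by
    rw [hD, MeromorphicOn.divisor_apply hFU hu]
  obtain ⟨g, hg1, hg2, hg3⟩ := hFU.extract_zeros_poles (fun u => htop u u.2) hfin
  have hD0 : ∀ u : ℂ, u ≠ 0 → D u = 0 := fun u hu => by
    by_contra hne
    have huU : u ∈ U := D.supportWithinDomain hne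
    rw [hDv u huU, hun u huU hu] at hne
    exact hne rfl
  have hφ : (∏ᶠ u, (fun z : ℂ => z - u) ^ D u) = fun z : ℂ => z ^ m := by
    rw [finprod_eq_single _ (0 : ℂ) (fun u hu => by rw [hD0 u hu, zpow_zero]), hDv 0 h0U]
    funext z
    simp [hm]
  have hev : ∀ s ∈ Metric.ball (σ : ℂ) R, ∀ᶠ z in 𝓝[≠] s, F z = z ^ m * g z := by
    intro s hs
    have hsU : s ∈ U := Metric.ball_subset_closedBall hs
    have h4 := (mem_codiscreteWithin.1 hg3) s hsU
    rw [Filter.disjoint_principal_right] at h4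
    filter_upwards [h4, mem_nhdsWithin_of_mem_nhds (hUn s hs)] with z hz hzU
    by_contra hcon
    apply hz
    refine ⟨hzU, fun hz2 => hcon ?_⟩
    have h5 : F z = ((∏ᶠ u, (fun z : ℂ => z - u) ^ D u) • g) z := hz2
    rw [hφ] at h5
    rw [h5, Pi.smul_apply', smul_eq_mul]
  have hga : ∀ s ∈ U, AnalyticAt ℂ g s := fun s hs => hg1 s hs
  have hg0 : ∀ s ∈ U, g s ≠ 0 := fun s hs => hg2 ⟨s, hs⟩
  have hevσ : ∀ᶠ z in 𝓝 (σ : ℂ), F z = z ^ m * g z := by
    have ha : AnalyticAt ℂ (fun z : ℂ => z ^ m * g z) (σ : ℂ) :=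
      (analyticAt_id.fun_zpow hσne).mul (hga _ hσU)
    exact (((order_zero hL habs hE hσ1).1).frequently_eq_iff_eventually_eq ha).1 (hev _ hσB).frequently
  have hlg : DifferentiableOn ℂ (logDeriv g) (Metric.ball (σ : ℂ) R) := by
    intro s hs
    have hsU := Metric.ball_subset_closedBall hs
    have e : logDeriv g = fun s => deriv g s / g s := by
      funext w; rw [logDeriv_apply]
    rw [e]
    exact ((hga s hsU).deriv.fun_div (hga s hsU) (hg0 s hsU)).differentiableAt.differentiableWithinAt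
  obtain ⟨h, hh1, hh2⟩ := (hlg.isExactOn_ball).with_val_at (σ : ℂ) (DS d L σ - m * Complex.log σ)
  have hhd : DifferentiableOn ℂ h (Metric.ball (σ : ℂ) R) := fun s hs =>
    (hh2 s hs).differentiableAt.differentiableWithinAt
  -- `exp h = g`
  have hexp : ∀ z ∈ Metric.ball (σ : ℂ) R, cexp (h z) = g z := by
    intro z hz
    have hq : DifferentiableOn ℂ (fun z => cexp (-h z) * g z) (Metric.ball (σ : ℂ) R) := fun s hs =>
      (((hh2 s hs).fun_neg.cexp).mul (hga s (Metric.ball_subset_closedBall hs)).differentiableAt.hasDerivAt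
        ).differentiableAt.differentiableWithinAt
    have hq' : (Metric.ball (σ : ℂ) R).EqOn (deriv (fun z => cexp (-h z) * g z)) 0 := by
      intro s hs
      have hsU := Metric.ball_subset_closedBall hs
      have h5 := ((hh2 s hs).fun_neg.cexp).mul (hga s hsU).differentiableAt.hasDerivAt
      have h6 : (fun z => cexp (-h z) * g z) = (fun x => cexp (-h x)) * g := rfl
      rw [h6, h5.deriv, logDeriv_apply]
      have := hg0 s hsU
      simp only [Pi.zero_apply]
      field_simp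
      ring
    have h7 := Metric.isOpen_ball.is_const_of_deriv_eq_zero (convex_ball (σ : ℂ) R).isPreconnected hq hq' hz hσB
    have h8 : cexp (-h σ) * g σ = 1 := by
      have e1 := hevσ.self_of_nhds
      rw [hE σ hσ1] at e1
      rw [hh1, neg_sub, Complex.exp_sub, Complex.exp_int_mul, Complex.exp_log hσne, div_mul_eq_mul_div, ← e1]
      exact div_self (Complex.exp_ne_zero _)
    rw [h8, Complex.exp_neg] at h7
    have h9 := Complex.exp_ne_zero (h z)
    field_simp at h7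
    exact h7.symm
  refine ⟨h, hhd, ?_, ?_⟩
  · filter_upwards [hev 0 h0B, mem_nhdsWithin_of_mem_nhds (Metric.isOpen_ball.mem_nhds h0B)] with z hz hzB
    rw [hz, hexp z hzB]
  · -- near `σ`
    have hc : ContinuousAt (fun s => DS d L s - m * Complex.log s - h s) (σ : ℂ) := by
      have c1 : ContinuousAt (DS d L) (σ : ℂ) := (hdiff.differentiableAt (hop.mem_nhds hσ1)).continuousAt
      have c2 : ContinuousAt Complex.log (σ : ℂ) :=
        continuousAt_clog (Or.inl (by simpa using hσ0))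
      have c3 : ContinuousAt h (σ : ℂ) := (hh2 _ hσB).continuousAt
      exact (c1.sub (c2.const_mul (m : ℂ))).sub c3
    have h0 : DS d L σ - m * Complex.log σ - h σ = 0 := by rw [hh1]; ring
    have hsmall : ∀ᶠ s in 𝓝 (σ : ℂ), ‖DS d L s - m * Complex.log s - h s‖ < 1 := by
      have := hc.norm.eventually (eventually_lt_nhds (show ‖DS d L σ - m * Complex.log σ - h σ‖ < 1 by
        rw [h0, norm_zero]; exact one_pos))
      exact this
    filter_upwards [hsmall, hevσ, hop.mem_nhds hσ1, Metric.isOpen_ball.mem_nhds hσB] with s h1 h2 h3 h4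
    have h3' : 1 < s.re := h3
    have hs0 : s ≠ 0 := by
      intro h5
      rw [h5, Complex.zero_re] at h3'
      linarith
    have e1 : cexp (DS d L s - m * Complex.log s - h s) = 1 := by
      rw [Complex.exp_sub, Complex.exp_sub, Complex.exp_int_mul, Complex.exp_log hs0, ← hE s h3', h2,
        hexp s h4]
      have a1 : s ^ m ≠ 0 := zpow_ne_zero _ hs0
      have a2 := hg0 s (Metric.ball_subset_closedBall h4)
      field_simp
    obtain ⟨n, hn⟩ := Complex.exp_eq_one_iff.1 e1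
    have hn0 : n = 0 := by
      by_contra hne
      have a1 : (1 : ℝ) ≤ |(n : ℝ)| := by exact_mod_cast Int.one_le_abs hne
      rw [hn, norm_mul, Complex.norm_intCast, norm_mul, norm_mul, Complex.norm_I, mul_one,
        Complex.norm_real, Real.norm_of_nonneg Real.pi_pos.le] at h1
      have a2 := Real.pi_gt_three
      have a3 : ‖(2 : ℂ)‖ = 2 := by norm_num
      rw [a3] at h1
      nlinarith
    rw [hn0, Int.cast_zero, zero_mul] at hn
    linear_combination hn

variable [Countable ι]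

/-- **the normalised integrals and the leading coefficient** -/
theorem Sk_lead {F : ℂ → ℂ} {V : Set ℂ} (hS : Ser d L F V) {σ : ℝ} (hσ : 4 ≤ σ) {R : ℝ} (hR : σ < R)
    (hsub : Metric.closedBall (σ : ℂ) R ⊆ V)
    (hun : ∀ ρ : ℂ, ρ ∈ Metric.closedBall (σ : ℂ) R → ρ ≠ 0 → meromorphicOrderAt F ρ = 0) {c : ℂ}
    (hc : Tendsto (fun s : ℂ => F s / s ^ (meromorphicOrderAt F 0).untop₀) (𝓝[≠] 0) (𝓝 c)) :
    0 < ‖c‖ ∧ Tendsto (fun n : ℕ => Sk (AA d L) σ n + ((meromorphicOrderAt F 0).untop₀ : ℝ) *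
      ((harmonic n : ℝ) - Real.log σ)) atTop (𝓝 (Real.log ‖c‖)) := by
  obtain ⟨h, hh1, hh2, hh3⟩ := ext_log hS (show 1 < σ by linarith) hR hsub hun
  have h2 := hS.abs 2 (by norm_num)
  set m : ℤ := (meromorphicOrderAt F 0).untop₀ with hm
  have hσ0 : 0 < σ := by linarith
  have hR0 : 0 < R := by linarith
  have hσ1 : 1 < (σ : ℂ).re := by simpa using (by linarith : (1 : ℝ) < σ)
  have hσne : (σ : ℂ) ≠ 0 := by exact_mod_cast hσ0.ne'
  have hσB : (σ : ℂ) ∈ Metric.ball (σ : ℂ) R := Metric.mem_ball_self hR0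
  have h0B : (0 : ℂ) ∈ Metric.ball (σ : ℂ) R := by
    rw [Metric.mem_ball, dist_comm, Complex.dist_eq, sub_zero, Complex.norm_real, Real.norm_of_nonneg hσ0.le]
    exact hR
  have hha : AnalyticOnNhd ℂ h (Metric.ball (σ : ℂ) R) := hh1.analyticOnNhd Metric.isOpen_ball
  -- the leading coefficient
  have hc0 : c = cexp (h 0) := by
    have t1 : Tendsto (fun s : ℂ => cexp (h s)) (𝓝[≠] 0) (𝓝 (cexp (h 0))) :=
      ((hha 0 h0B).continuousAt.cexp).tendsto.mono_left nhdsWithin_le_nhds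
    refine tendsto_nhds_unique hc (t1.congr' ?_)
    filter_upwards [hh2, self_mem_nhdsWithin] with s hs hs0
    have hs0' : s ≠ 0 := hs0
    rw [hs, mul_div_cancel_left₀ _ (zpow_ne_zero _ hs0')]
  have hcn : Real.log ‖c‖ = (h 0).re := by
    rw [hc0, Complex.norm_exp, Real.log_exp]
  refine ⟨by rw [hc0]; exact norm_pos_iff.2 (Complex.exp_ne_zero _), ?_⟩
  rw [hcn]
  set a : ℕ → ℂ := fun n => ((n.factorial : ℕ) : ℂ)⁻¹ • (0 - (σ : ℂ)) ^ n • iteratedDeriv n h (σ : ℂ) with ha
  have hsum : HasSum a (h 0) := Complex.hasSum_taylorSeries_on_ball hh1 h0B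
  have ht : Tendsto (fun n : ℕ => (∑ j ∈ Finset.range (n + 1), a j).re) atTop (𝓝 (h 0).re) := by
    have h5 := (hsum.tendsto_sum_nat).comp (tendsto_add_atTop_nat 1)
    exact (Complex.continuous_re.tendsto _).comp h5
  refine ht.congr fun n => ?_
  -- the partial sums
  have hB0 : Bk d L 0 = DS d L := by
    funext s
    unfold Bk
    simp
  have hder : ∀ k : ℕ, (-1 : ℂ) ^ (k + 1) * Bk d L (k + 1) (σ : ℂ) =
      (m : ℂ) * ((-1) ^ k * (k.factorial : ℂ) / (σ : ℂ) ^ (k + 1)) + iteratedDeriv (k + 1) h (σ : ℂ) := by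
    intro k
    have e1 := bk_iter hS.hL hS.abs 0 (k + 1) (s := (σ : ℂ)) hσ1
    rw [zero_add, hB0] at e1
    have hh3' : DS d L =ᶠ[𝓝 (σ : ℂ)] fun s => (m : ℂ) * Complex.log s + h s := hh3
    rw [← e1, hh3'.iteratedDeriv_eq (k + 1)]
    have hsl : (σ : ℂ) ∈ slitPlane := Or.inl (by simpa using hσ0)
    have hlog : ContDiffAt ℂ (k + 1 : ℕ) Complex.log (σ : ℂ) := (analyticAt_clog hsl).contDiffAt
    have hhc : ContDiffAt ℂ (k + 1 : ℕ) h (σ : ℂ) := (hha _ hσB).contDiffAt
    rw [iteratedDeriv_fun_add (contDiffAt_const.mul hlog) hhc, iteratedDeriv_const_mul_field, iteratedDeriv_succ']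
    congr 2
    have e2 : deriv Complex.log =ᶠ[𝓝 (σ : ℂ)] fun s => (s - 0)⁻¹ := by
      filter_upwards [isOpen_slitPlane.mem_nhds hsl] with s hs
      rw [(Complex.hasDerivAt_log hs).deriv, sub_zero]
    rw [e2.iteratedDeriv_eq k, iter_inv k 0 (by simpa using hσne), sub_zero]
  induction n with
  | zero =>
    have e1 := Ik_zero hS.hL h2 (s := (σ : ℂ)) (by simpa using hσ)
    rw [Ik_real, hh3.self_of_nhds] at e1
    have e2 : Sk (AA d L) σ 0 = ((σ : ℂ) * (aF (AA d L) 0 σ : ℂ)).re := by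
      unfold Sk
      rw [← Complex.ofReal_mul, Complex.ofReal_re]
      simp
    rw [e2, e1]
    have e3 : ((m : ℂ) * Complex.log (σ : ℂ)).re = m * Real.log σ := by
      rw [← Complex.ofReal_log hσ0.le]
      have : ((m : ℂ) * (Real.log σ : ℂ)) = (((m : ℝ) * Real.log σ : ℝ) : ℂ) := by push_cast; rfl
      rw [this, Complex.ofReal_re]
    rw [Complex.add_re, e3]
    simp [ha]
  | succ n ih =>
    rw [Finset.sum_range_succ, Complex.add_re, ih, Sk_rec hS.hL h2 hσ n, harmonic_succ]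
    have e1 := hder n
    have e2 : a (n + 1) = ((σ ^ (n + 1) / (n + 1).factorial : ℝ) : ℂ) * Bk d L (n + 1) (σ : ℂ) +
        (((m : ℝ) / (n + 1) : ℝ) : ℂ) := by
      have e3 : iteratedDeriv (n + 1) h (σ : ℂ) = (-1 : ℂ) ^ (n + 1) * Bk d L (n + 1) (σ : ℂ) -
        (m : ℂ) * ((-1) ^ n * (n.factorial : ℂ) / (σ : ℂ) ^ (n + 1)) := by linear_combination -e1
      simp only [ha, smul_eq_mul]
      rw [e3, zero_sub, Nat.factorial_succ]
      have hn1 : ((n : ℂ) + 1) ≠ 0 := by exact_mod_cast Nat.succ_ne_zero n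
      have hnf : (n.factorial : ℂ) ≠ 0 := by exact_mod_cast n.factorial_ne_zero
      have hsp : (σ : ℂ) ^ (n + 1) ≠ 0 := pow_ne_zero _ hσne
      have hsgn : (-(σ : ℂ)) ^ (n + 1) = (-1) ^ (n + 1) * (σ : ℂ) ^ (n + 1) := by
        rw [← mul_pow]; ring_nf
      have hone : ((-1 : ℂ)) ^ (n + 1) * (-1) ^ (n + 1) = 1 := by
        rw [← mul_pow]; norm_num
      have hone' : ((-1 : ℂ)) ^ (n + 1) * (-1) ^ n = -1 := by
        rw [pow_succ, mul_assoc, mul_comm (-1 : ℂ), ← mul_assoc, ← mul_pow]; norm_num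
      rw [hsgn]
      push_cast
      field_simp
      linear_combination (((σ : ℂ) ^ (n + 1)) * Bk d L (n + 1) (σ : ℂ)) * hone - (m : ℂ) * (n.factorial : ℂ) * hone'
    rw [e2, Complex.add_re, Complex.re_ofReal_mul, Complex.ofReal_re]
    push_cast
    have hf : ((n + 1).factorial : ℝ) ≠ 0 := by positivity
    have hn1 : ((n : ℝ) + 1) ≠ 0 := by positivity
    field_simp
    ring

end Pool.Agent.Q18.W
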