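import Mathlib
import Pool.Agent.Q18.W.Lead

/-! The leading coefficient and one-sided bounds in a sequence of windows. -/

set_option autoImplicit false

open Complex MeasureTheory Set Filter Topology
open Pool.Agent.W189.TP (DS)
open Pool.Agent.TH949.TX (AA)

namespace Pool.Agent.Q18.W

variable {ι : Type*} [Countable ι] {d L : ι → ℝ}

/-- adding a quadratic polynomial -/
theorem aF_quad {f : ℝ → ℝ} {M : ℝ} (hf : Gro f M) (w0 w1 w2 : ℝ) (k : ℕ) {σ : ℝ} (hσ : 4 ≤ σ) :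
    Sk (fun u => f u + (w0 + w1 * u + w2 * u ^ 2)) σ k =
      Sk f σ k + (w0 + w1 * ((k + 1) / σ) + w2 * (((k + 1) * (k + 2)) / σ ^ 2)) := by
  obtain ⟨i0, j0⟩ := pw_int k (show 0 < σ by linarith)
  obtain ⟨i1, j1⟩ := pw_int (k + 1) (show 0 < σ by linarith)
  obtain ⟨i2, j2⟩ := pw_int (k + 2) (show 0 < σ by linarith)
  have hσ0 : 0 < σ := by linarith
  have e : aF (fun u => f u + (w0 + w1 * u + w2 * u ^ 2)) k σ = aF f k σ + (w0 * (k.factorial / σ ^ (k + 1)) +
      (w1 * ((k + 1).factorial / σ ^ (k + 2)) + w2 * ((k + 2).factorial / σ ^ (k + 3)))) := by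
    unfold aF
    have e1 : ∀ u ∈ Ioi (0 : ℝ), (f u + (w0 + w1 * u + w2 * u ^ 2)) * (u ^ k * Real.exp (-(σ * u))) =
        f u * (u ^ k * Real.exp (-(σ * u))) + (w0 * (u ^ k * Real.exp (-(σ * u))) +
          (w1 * (u ^ (k + 1) * Real.exp (-(σ * u))) + w2 * (u ^ (k + 2) * Real.exp (-(σ * u))))) :=
      fun u _ => by ring
    have i12 : IntegrableOn (fun u : ℝ => w1 * (u ^ (k + 1) * Real.exp (-(σ * u))) +
        w2 * (u ^ (k + 2) * Real.exp (-(σ * u)))) (Ioi 0) := (i1.const_mul w1).add (i2.const_mul w2)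
    have i012 : IntegrableOn (fun u : ℝ => w0 * (u ^ k * Real.exp (-(σ * u))) +
        (w1 * (u ^ (k + 1) * Real.exp (-(σ * u))) + w2 * (u ^ (k + 2) * Real.exp (-(σ * u))))) (Ioi 0) :=
      (i0.const_mul w0).add i12
    rw [setIntegral_congr_fun measurableSet_Ioi e1, integral_add (F_int hf k hσ) i012,
      integral_add (i0.const_mul w0) i12, integral_add (i1.const_mul w1) (i2.const_mul w2),
      integral_const_mul, integral_const_mul, integral_const_mul, j0, j1, j2]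
  unfold Sk
  rw [e]
  have hk0 : (0 : ℝ) < k.factorial := by positivity
  have f1 : ((k + 1).factorial : ℝ) = (k + 1) * k.factorial := by
    rw [Nat.factorial_succ]; push_cast; rfl
  have f2 : ((k + 2).factorial : ℝ) = (k + 2) * ((k + 1) * k.factorial) := by
    rw [Nat.factorial_succ, Nat.factorial_succ]; push_cast; ring
  rw [f1, f2]
  field_simp
  ring

theorem Gro_quad {f : ℝ → ℝ} {M : ℝ} (hf : Gro f M) (w0 w1 w2 : ℝ) :
    Gro (fun u => f u + (w0 + w1 * u + w2 * u ^ 2)) (M + (|w0| + |w1| + |w2|)) := by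
  refine ⟨hf.meas.add (by fun_prop), add_nonneg hf.pos (by positivity), fun u hu => ?_⟩
  have h1 := hf.le u hu
  have h2 : 1 + 2 * u ≤ Real.exp (2 * u) := by
    have := Real.add_one_le_exp (2 * u)
    linarith
  have h3 : u ^ 2 ≤ Real.exp (2 * u) := by
    have := Real.quadratic_le_exp_of_nonneg (show 0 ≤ 2 * u by linarith)
    nlinarith
  have h4 : |f u + (w0 + w1 * u + w2 * u ^ 2)| ≤ |f u| + (|w0| * 1 + |w1| * u + |w2| * u ^ 2) := by
    refine (abs_add_le _ _).trans ?_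
    gcongr
    refine (abs_add_le _ _).trans ?_
    have a1 : |w2 * u ^ 2| = |w2| * u ^ 2 := by rw [abs_mul, abs_of_nonneg (by positivity : 0 ≤ u ^ 2)]
    have a2 : |w1 * u| = |w1| * u := by rw [abs_mul, abs_of_nonneg hu]
    have a3 := abs_add_le w0 (w1 * u)
    rw [a1]
    linarith
  have b0 : |w0| * 1 ≤ |w0| * Real.exp (2 * u) := by gcongr; linarith
  have b1 : |w1| * u ≤ |w1| * Real.exp (2 * u) := by gcongr; linarith
  have b2 : |w2| * u ^ 2 ≤ |w2| * Real.exp (2 * u) := by gcongr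
  nlinarith

/-- `0 ≤ t - 1 - log t ≤ (t-1)²/t` -/
theorem log_quad {t : ℝ} (ht : 0 < t) : 0 ≤ t - 1 - Real.log t ∧ t - 1 - Real.log t ≤ (t - 1) ^ 2 / t := by
  constructor
  · have := Real.log_le_sub_one_of_pos ht
    linarith
  · have h1 := Real.log_le_sub_one_of_pos (inv_pos.2 ht)
    rw [Real.log_inv] at h1
    have h2 : (t - 1) ^ 2 / t = t - 2 + t⁻¹ := by field_simp; ring
    rw [h2]
    linarith

/-- the lower bound of `S_k` from a lower bound in the window, with the sharp constant -/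
theorem Sk_low2 {f : ℝ → ℝ} {M : ℝ} (hf : Gro f M) {δ : ℝ} (h0 : 0 < δ) (h1 : δ < 1) (κ C0 : ℝ) {ε : ℝ}
    (hε : 0 < ε) : ∀ᶠ U : ℝ in atTop,
      (∀ u : ℝ, (1 - δ) * U ≤ u → u ≤ U → -(κ * Real.log u + C0) ≤ f u) →
        -(κ * Real.log (((kk δ U : ℝ) + 1) / sg δ)) - C0 - ε ≤ Sk f (sg δ) (kk δ U) := by
  have hs := sg_ge h0 h1
  have hs0 : 0 < sg δ := by linarith
  have hM0 := hf.pos
  set c2 : ℝ := 2 / (1 - δ) with hc2
  have hd : 0 < 1 - δ := by linarith
  have hc20 : 0 < c2 := by positivity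
  set B : ℝ := M + (3 * |κ| + |C0| + |κ| * c2 + (2 * |κ| + 4 * |κ| * c2) + 4 * |κ| * c2) with hB
  have hB0 : 0 ≤ B := by positivity
  -- the errors
  have t1 : Tendsto (fun U : ℝ => 2 * (B * (U * Real.exp (1 - U)))) atTop (𝓝 0) := by
    have h5 := Real.tendsto_pow_mul_exp_neg_atTop_nhds_zero 1
    have h6 := (h5.const_mul (2 * (B * Real.exp 1)))
    rw [mul_zero] at h6
    refine h6.congr fun U => ?_
    rw [show (1 : ℝ) - U = 1 + -U by ring, Real.exp_add]
    ring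
  have t2 : Tendsto (fun U : ℝ => |κ| * c2 / ((kk δ U : ℝ) + 1)) atTop (𝓝 0) := by
    have h5 : Tendsto (fun U : ℝ => ((kk δ U : ℝ) + 1)) atTop atTop :=
      (tendsto_natCast_atTop_atTop.comp (kk_tendsto h0 h1)).atTop_add tendsto_const_nhds
    exact h5.const_div_atTop _
  filter_upwards [t1.eventually (eventually_lt_nhds (half_pos hε)),
    t2.eventually (eventually_lt_nhds (half_pos hε)), eventually_ge_atTop 1] with U hU1 hU2 hU hwin
  have hU0 : 0 < U := by linarith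
  obtain ⟨k1, k2⟩ := kk_spec h0 h1 hU0.le (Or.inl rfl : kk δ U = kk δ U ∨ _)
  set k : ℕ := kk δ U with hk
  set a : ℝ := ((k : ℝ) + 1) / sg δ with ha
  have ha1 : (1 - δ / 2) * U ≤ a := by
    rw [ha, le_div_iff₀ hs0]
    calc (1 - δ / 2) * U * sg δ = sg δ * (1 - δ / 2) * U := by ring
      _ ≤ _ := k1
  have ha2 : a ≤ 2 * U := by
    rw [ha, div_le_iff₀ hs0]
    refine k2.trans ?_
    have : 0 ≤ sg δ * (δ / 2) * U := by positivity
    nlinarith
  have ha3 : 1 / 2 ≤ a := by nlinarith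
  have ha0 : 0 < a := by linarith
  set w2 : ℝ := |κ| * c2 / a ^ 2 with hw2
  set w1 : ℝ := κ / a - 2 * (|κ| * c2) / a with hw1
  set w0 : ℝ := κ * Real.log a - κ + C0 + |κ| * c2 with hw0
  have hW : ∀ u : ℝ, w0 + w1 * u + w2 * u ^ 2 =
      κ * Real.log a + κ * (u / a - 1) + C0 + |κ| * c2 * (u / a - 1) ^ 2 := by
    intro u
    rw [hw0, hw1, hw2]
    field_simp
    ring
  have hg := Gro_quad hf w0 w1 w2
  have hw : ∀ u : ℝ, (1 - δ) * U ≤ u → u ≤ U →
      -(f u + (w0 + w1 * u + w2 * u ^ 2)) ≤ 0 * Real.exp (0 * u) := by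
    intro u b1 b2
    have b3 := hwin u b1 b2
    have hu0 : 0 < u := lt_of_lt_of_le (by positivity) b1
    have ht0 : 0 < u / a := by positivity
    obtain ⟨q1, q2⟩ := log_quad ht0
    have q3 : (u / a - 1) ^ 2 / (u / a) ≤ c2 * (u / a - 1) ^ 2 := by
      rw [div_le_iff₀ ht0]
      have q4 : 1 ≤ c2 * (u / a) := by
        rw [hc2, div_mul_div_comm, le_div_iff₀ (by positivity), one_mul]
        nlinarith
      calc (u / a - 1) ^ 2 ≤ (u / a - 1) ^ 2 * (c2 * (u / a)) := le_mul_of_one_le_right (sq_nonneg _) q4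
        _ = _ := by ring
    have q5 : κ * (u / a - 1 - Real.log (u / a)) ≤ |κ| * (c2 * (u / a - 1) ^ 2) := by
      calc κ * (u / a - 1 - Real.log (u / a)) ≤ |κ| * (u / a - 1 - Real.log (u / a)) := by
            gcongr; exact le_abs_self κ
        _ ≤ |κ| * (c2 * (u / a - 1) ^ 2) := by
            gcongr
            exact q2.trans q3
    have q5' : -(|κ| * (c2 * (u / a - 1) ^ 2)) ≤ κ * (u / a - 1 - Real.log (u / a)) := by
      have r1 : -(|κ| * (u / a - 1 - Real.log (u / a))) ≤ κ * (u / a - 1 - Real.log (u / a)) := by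
        rw [← neg_mul]
        gcongr
        exact neg_abs_le κ
      have r2 : |κ| * (u / a - 1 - Real.log (u / a)) ≤ |κ| * (c2 * (u / a - 1) ^ 2) := by
        gcongr
        exact q2.trans q3
      linarith
    rw [Real.log_div hu0.ne' ha0.ne'] at q5'
    rw [zero_mul, hW u]
    linarith
  have h3 := N_win hg h0 h1 hU0.le le_rfl (show (0 : ℝ) < sg δ by linarith) hw (k := k) (Or.inl rfl)
  have h4 := Sk_zero_le (fun u => f u + (w0 + w1 * u + w2 * u ^ 2)) hg (show 4 ≤ sg δ by linarith) k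
  rw [aF_quad hf w0 w1 w2 k (show 4 ≤ sg δ by linarith)] at h4
  have hk0 : (0 : ℝ) < k.factorial := by positivity
  have h5 : Nk (fun u => f u + (w0 + w1 * u + w2 * u ^ 2)) (sg δ) k ≤
      2 * Real.exp (1 - U) * (M + (|w0| + |w1| + |w2|)) := by
    unfold Nk
    rw [div_le_iff₀ hk0]
    calc sg δ ^ (k + 1) * nF (fun u => f u + (w0 + w1 * u + w2 * u ^ 2)) k (sg δ) ≤
        sg δ ^ (k + 1) * (k.factorial * (0 / (sg δ - 0) ^ (k + 1) +
          (M + (|w0| + |w1| + |w2|)) * (2 * Real.exp (1 - U) / sg δ ^ (k + 1)))) := by gcongr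
      _ = _ := by
          have : sg δ ^ (k + 1) ≠ 0 := by positivity
          field_simp
          ring
  have h6 : w0 + w1 * ((k + 1) / sg δ) + w2 * (((k + 1) * (k + 2)) / sg δ ^ 2) =
      κ * Real.log a + C0 + |κ| * c2 / ((k : ℝ) + 1) := by
    have e1 : (((k : ℝ) + 1) * (k + 2)) / sg δ ^ 2 = a ^ 2 + a ^ 2 / (k + 1) := by
      rw [ha]
      have : (k : ℝ) + 1 ≠ 0 := by positivity
      field_simp
      ring
    rw [e1, ← ha, hw0, hw1, hw2]
    have : (k : ℝ) + 1 ≠ 0 := by positivity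
    field_simp
    ring
  rw [h6] at h4
  have h7 : M + (|w0| + |w1| + |w2|) ≤ B * U := by
    have l1 : |Real.log a| ≤ 2 * U := by
      rw [abs_le]
      constructor
      · have := Real.log_le_sub_one_of_pos (inv_pos.2 ha0)
        rw [Real.log_inv] at this
        have h8 : a⁻¹ ≤ 2 := by
          rw [inv_le_comm₀ ha0 (by norm_num)]
          linarith
        nlinarith
      · have := Real.log_le_sub_one_of_pos ha0
        linarith
    have l2 : |w0| ≤ |κ| * (2 * U) + |κ| + |C0| + |κ| * c2 := by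
      rw [hw0]
      have r1 : |κ * Real.log a| ≤ |κ| * (2 * U) := by rw [abs_mul]; gcongr
      have r2 := abs_add_le (κ * Real.log a - κ + C0) (|κ| * c2)
      have r3 := abs_add_le (κ * Real.log a - κ) C0
      have r4 := abs_sub (κ * Real.log a) κ
      have r5 : |(|κ| * c2)| = |κ| * c2 := abs_of_nonneg (by positivity)
      linarith
    have hinv : 1 / a ≤ 2 := by
      rw [div_le_iff₀ ha0]
      linarith
    have l3 : |w1| ≤ 2 * |κ| + 4 * |κ| * c2 := by
      have e1 : w1 = (κ - 2 * (|κ| * c2)) * (1 / a) := by rw [hw1]; ring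
      rw [e1, abs_mul, abs_of_pos (show 0 < 1 / a by positivity)]
      have r1 := abs_sub κ (2 * (|κ| * c2))
      have r2 : |2 * (|κ| * c2)| = 2 * (|κ| * c2) := abs_of_nonneg (by positivity)
      calc |κ - 2 * (|κ| * c2)| * (1 / a) ≤ (|κ| + 2 * (|κ| * c2)) * 2 := by
            gcongr
            linarith
        _ = _ := by ring
    have l4 : |w2| ≤ 4 * |κ| * c2 := by
      rw [abs_of_nonneg (by positivity)]
      have e1 : w2 = |κ| * c2 * (1 / a) ^ 2 := by rw [hw2]; ring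
      rw [e1]
      calc |κ| * c2 * (1 / a) ^ 2 ≤ |κ| * c2 * 2 ^ 2 := by gcongr
        _ = _ := by ring
    have r0 : M ≤ M * U := le_mul_of_one_le_right hM0 hU
    have r1 : |κ| ≤ |κ| * U := le_mul_of_one_le_right (abs_nonneg _) hU
    have r2 : |C0| ≤ |C0| * U := le_mul_of_one_le_right (abs_nonneg _) hU
    have r3 : |κ| * c2 ≤ |κ| * c2 * U := le_mul_of_one_le_right (by positivity) hU
    rw [hB]
    nlinarith
  have h8 : 2 * Real.exp (1 - U) * (M + (|w0| + |w1| + |w2|)) ≤ 2 * (B * (U * Real.exp (1 - U))) := by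
    calc 2 * Real.exp (1 - U) * (M + (|w0| + |w1| + |w2|)) ≤ 2 * Real.exp (1 - U) * (B * U) := by gcongr
      _ = _ := by ring
  linarith

/-- **a lower bound for the leading coefficient** -/
theorem lead_low {F : ℂ → ℂ} (hL : ∀ i, 0 ≤ L i)
    (habs : ∀ t : ℝ, 1 < t → Summable fun i => |d i| * Real.exp (-(t * L i)))
    (hE : ∀ s : ℂ, 1 < s.re → F s = cexp (DS d L s))
    (hF : MeromorphicOn F {s : ℂ | 0 < s.re}) (hF0 : MeromorphicAt F 0)
    (hz : ∀ ρ : ℂ, 0 < ρ.re → meromorphicOrderAt F ρ = 0) {c : ℂ}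
    (hc : Tendsto (fun s : ℂ => F s / s ^ (meromorphicOrderAt F 0).untop₀) (𝓝[≠] 0) (𝓝 c))
    {δ C0 : ℝ} (h0 : 0 < δ) (h1 : δ < 1)
    (hwin : ∃ᶠ U : ℝ in atTop, ∀ u : ℝ, (1 - δ) * U ≤ u → u ≤ U →
      -(((meromorphicOrderAt F 0).untop₀ : ℝ) * Real.log u + C0) ≤ AA d L u) :
    Real.exp (((meromorphicOrderAt F 0).untop₀ : ℝ) * Real.eulerMascheroniConstant - C0) ≤ ‖c‖ := by
  have h2 := habs 2 (by norm_num)
  obtain ⟨η, hη, hS, hun⟩ := nbhd hL habs hE hF hF0
  have hs := sg_ge h0 h1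
  have hs0 : 0 < sg δ := by linarith
  obtain ⟨R, hR, hsub⟩ := disc_sub (η := η) (σ := sg δ) hη (by linarith)
  obtain ⟨hcp, ht⟩ := Sk_lead hS (show 4 ≤ sg δ by linarith) hR hsub (fun ρ hρ hne => by
    rcases hsub hρ with h | h
    · exact hz ρ h
    · exact hun ρ h hne) hc
  set m : ℤ := (meromorphicOrderAt F 0).untop₀ with hm
  rw [← Real.le_log_iff_exp_le hcp]
  refine le_of_forall_pos_le_add fun ε hε => ?_
  have hε3 : 0 < ε / 3 := by positivity
  have e1 := Sk_low2 (AA_gro (d := d) hL h2) h0 h1 (m : ℝ) C0 hε3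
  have e2 : ∀ᶠ n : ℕ in atTop, Sk (AA d L) (sg δ) n + (m : ℝ) * ((harmonic n : ℝ) - Real.log (sg δ)) <
      Real.log ‖c‖ + ε / 3 := ht.eventually (eventually_lt_nhds (by linarith))
  have e3 : ∀ᶠ n : ℕ in atTop, (m : ℝ) * Real.eulerMascheroniConstant - ε / 3 <
      (m : ℝ) * ((harmonic n : ℝ) - Real.log ((n : ℝ) + 1)) := by
    have := (Real.tendsto_harmonic_sub_log_add_one.const_mul (m : ℝ))
    exact this.eventually (eventually_gt_nhds (by linarith))
  have hk := kk_tendsto h0 h1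
  obtain ⟨U, hU, hU1, hU2, hU3⟩ := (hwin.and_eventually
    (e1.and ((hk.eventually e2).and (hk.eventually e3)))).exists
  have hU4 := hU1 hU
  have hl : Real.log (((kk δ U : ℝ) + 1) / sg δ) = Real.log ((kk δ U : ℝ) + 1) - Real.log (sg δ) :=
    Real.log_div (by positivity) hs0.ne'
  rw [hl] at hU4
  linarith [mul_sub (m : ℝ) (harmonic (kk δ U) : ℝ) (Real.log (sg δ)),
    mul_sub (m : ℝ) (harmonic (kk δ U) : ℝ) (Real.log ((kk δ U : ℝ) + 1)),
    mul_sub (m : ℝ) (Real.log ((kk δ U : ℝ) + 1)) (Real.log (sg δ))]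

theorem untop_neg (x : WithTop ℤ) : (-x).untop₀ = -x.untop₀ := by
  rcases x with _ | n
  · rfl
  · rfl

/-- **an upper bound for the leading coefficient** -/
theorem lead_up {F : ℂ → ℂ} (hL : ∀ i, 0 ≤ L i)
    (habs : ∀ t : ℝ, 1 < t → Summable fun i => |d i| * Real.exp (-(t * L i)))
    (hE : ∀ s : ℂ, 1 < s.re → F s = cexp (DS d L s))
    (hF : MeromorphicOn F {s : ℂ | 0 < s.re}) (hF0 : MeromorphicAt F 0)
    (hz : ∀ ρ : ℂ, 0 < ρ.re → meromorphicOrderAt F ρ = 0) {c : ℂ} (hc0 : c ≠ 0)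
    (hc : Tendsto (fun s : ℂ => F s / s ^ (meromorphicOrderAt F 0).untop₀) (𝓝[≠] 0) (𝓝 c))
    {δ C0 : ℝ} (h0 : 0 < δ) (h1 : δ < 1)
    (hwin : ∃ᶠ U : ℝ in atTop, ∀ u : ℝ, (1 - δ) * U ≤ u → u ≤ U →
      AA d L u ≤ -(((meromorphicOrderAt F 0).untop₀ : ℝ) * Real.log u) + C0) :
    ‖c‖ ≤ Real.exp (((meromorphicOrderAt F 0).untop₀ : ℝ) * Real.eulerMascheroniConstant + C0) := by
  obtain ⟨habs', hE', hAA⟩ := inv_data hL habs hE
  have hinv : ∀ s : ℂ, meromorphicOrderAt F⁻¹ s = -meromorphicOrderAt F s := fun s => meromorphicOrderAt_inv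
  have hm : (meromorphicOrderAt F⁻¹ 0).untop₀ = -(meromorphicOrderAt F 0).untop₀ := by
    rw [hinv, untop_neg]
  have hc' : Tendsto (fun s : ℂ => F⁻¹ s / s ^ (meromorphicOrderAt F⁻¹ 0).untop₀) (𝓝[≠] 0) (𝓝 c⁻¹) := by
    refine (hc.inv₀ hc0).congr fun s => ?_
    rw [hm, Pi.inv_apply, zpow_neg, inv_div, div_eq_mul_inv, div_eq_mul_inv, inv_inv, mul_comm]
  have h2 := lead_low (d := fun i => -d i) hL habs' hE' (fun z hz => (hF z hz).inv) hF0.inv
    (fun ρ hρ => by rw [hinv, hz ρ hρ]; simp) hc' (C0 := C0) h0 h1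
    (hwin.mono fun U hU u a b => by rw [hAA, hm]; push_cast; linarith [hU u a b])
  rw [hm, norm_inv] at h2
  have hcp : 0 < ‖c‖ := norm_pos_iff.2 hc0
  push_cast at h2
  rw [le_inv_comm₀ (Real.exp_pos _) hcp, ← Real.exp_neg] at h2
  refine h2.trans_eq ?_
  congr 1
  ring

end Pool.Agent.Q18.W
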