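import Mathlib
import Pool.Agent.TH942.ES.Star
import Pool.Agent.Q18.W.Lead2

/-! Systems of primes: the series over the prime powers and the product over the primes. -/

set_option autoImplicit false

open Complex MeasureTheory Set Filter Topology
open Pool.Agent.W189.TP (DS)
open Pool.Agent.TH949.TX (AA)
open Pool.Agent.TH942.ES (Sys zv cv xv cP lamP LE)

namespace Pool.Agent.Q18.W

variable {X : Type} {d : ℕ} {N : X → ℕ} {α : X → Fin d → ℂ}

theorem tail_row {q D : ℝ} (hq0 : 0 ≤ q) (hq : q ≤ 3 / 4) (hD : 0 ≤ D) (j : ℕ) (f : ℕ → ℝ)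
    (hf : ∀ k, |f k| ≤ D * q ^ (k + 1)) (hz : ∀ k < j, f k = 0) :
    Summable f ∧ |∑' k, f k| ≤ 4 * D * q ^ (j + 1) := by
  have hg : Summable fun k : ℕ => D * q ^ (k + 1) := by
    have := (summable_geometric_of_lt_one hq0 (by linarith)).mul_left (D * q)
    refine this.congr fun k => ?_
    rw [pow_succ]
    ring
  have hs : Summable fun k => |f k| := Summable.of_nonneg_of_le (fun k => abs_nonneg _) hf hg
  have hs' : Summable f := hs.of_abs
  refine ⟨hs', ?_⟩
  have h1 : |∑' k, f k| ≤ ∑' k, |f k| := by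
    have := norm_tsum_le_tsum_norm (f := f) (by simpa [Real.norm_eq_abs] using hs)
    simpa [Real.norm_eq_abs] using this
  refine h1.trans ?_
  rw [← hs.sum_add_tsum_nat_add j]
  have h2 : ∑ k ∈ Finset.range j, |f k| = 0 := by
    refine Finset.sum_eq_zero fun k hk => ?_
    rw [hz k (Finset.mem_range.1 hk), abs_zero]
  rw [h2, zero_add]
  have h3 : Summable fun k : ℕ => D * q ^ (j + 1) * q ^ k :=
    (summable_geometric_of_lt_one hq0 (by linarith)).mul_left _
  have h4 : ∑' k, |f (k + j)| ≤ ∑' k : ℕ, D * q ^ (j + 1) * q ^ k := by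
    refine ((summable_nat_add_iff j).2 hs).tsum_le_tsum (fun k => ?_) h3
    refine (hf (k + j)).trans_eq ?_
    rw [show k + j + 1 = (j + 1) + k by ring, pow_add]
    ring
  refine h4.trans ?_
  rw [tsum_mul_left, tsum_geometric_of_lt_one hq0 (by linarith)]
  have h5 : (1 - q)⁻¹ ≤ 4 := by
    rw [inv_le_comm₀ (by linarith) (by norm_num)]
    linarith
  have h6 : 0 ≤ D * q ^ (j + 1) := by positivity
  calc D * q ^ (j + 1) * (1 - q)⁻¹ ≤ D * q ^ (j + 1) * 4 := by gcongr
    _ = _ := by ring

section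

variable (E : Sys N α)
include E

theorem q_le (v : X) : 1 / √(N v : ℝ) ≤ 3 / 4 := by
  have h2 := E.Ntwo v
  have h3 : (4 / 3 : ℝ) ≤ √(N v : ℝ) := by
    refine Real.le_sqrt_of_sq_le ?_
    norm_num
    linarith
  rw [div_le_iff₀ (by linarith)]
  linarith

theorem lamP_nonneg (p : X × ℕ) : 0 ≤ lamP N p := by
  unfold lamP
  have := E.logN p.1
  positivity

theorem sys_abs (t : ℝ) (ht : 1 < t) : Summable fun p : X × ℕ => |cP N α p| * Real.exp (-(t * lamP N p)) :=
  E.cP_sum (by linarith)

theorem sys_exp (hreal : ∀ v k, (∑ i, zv N α v i ^ k).im = 0) {s : ℂ}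
    (hs : 1 / 2 < s.re) : cexp (DS (cP N α) (lamP N) s) = LE N α s := by
  obtain ⟨σ, h1, h2⟩ := exists_between hs
  have hsum : Summable fun p : X × ℕ => (cP N α p : ℂ) * cexp (-(s * lamP N p)) := by
    refine Summable.of_norm_bounded (E.cP_sum hs) fun p => ?_
    rw [norm_mul, Complex.norm_real, Real.norm_eq_abs, Complex.norm_exp, Complex.neg_re,
      Complex.re_mul_ofReal]
  have h4 := HasSum.prod_fiberwise hsum.hasSum fun v => E.inner hreal (by linarith) v
  have h5 := h4.cexp
  have h6 : (cexp ∘ fun v => ∑ i, -Complex.log (1 - zv N α v i * xv N v s)) =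
      fun v => ∏ i, (1 - zv N α v i * xv N v s)⁻¹ := by
    funext v
    simp only [Function.comp_apply]
    rw [Complex.exp_sum]
    refine Finset.prod_congr rfl fun i _ => ?_
    rw [Complex.exp_neg, Complex.exp_log]
    exact slitPlane_ne_zero (Pool.Agent.TH942.ES.one_sub_mem (E.zx_lt (by linarith) v i))
  rw [h6] at h5
  exact h5.tprod_eq.symm

/-- the sum of the coefficients of one prime -/
theorem row_sum (hreal : ∀ v k, (∑ i, zv N α v i ^ k).im = 0) (v : X) :
    HasSum (fun k : ℕ => cP N α (v, k)) (-cv N α v) := by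
  have h := E.inner hreal (s := 0) (by simp) v
  have h1 := Complex.hasSum_re h
  have e1 : (fun k : ℕ => ((cP N α (v, k) : ℂ) * cexp (-((0 : ℂ) * lamP N (v, k)))).re) =
      fun k => cP N α (v, k) := by
    funext k
    simp
  rw [e1] at h1
  have e2 : (∑ i, -Complex.log (1 - zv N α v i * xv N v 0)).re = -cv N α v := by
    unfold Pool.Agent.TH942.ES.cv Pool.Agent.TH942.ES.xv
    simp [Finset.sum_neg_distrib]
  rw [e2] at h1
  exact h1

theorem row_close (hreal : ∀ v k, (∑ i, zv N α v i ^ k).im = 0) (v : X) {u : ℝ} (hu : 0 < u) :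
    |(∑' k : ℕ, (open Classical in if lamP N (v, k) ≤ u then cP N α (v, k) else 0)) +
      (open Classical in if Real.log (N v) ≤ u then cv N α v else 0)| ≤
      4 * d * ((N v : ℝ) ^ (-(3 / 2 : ℝ)) +
        2 * Real.exp 1 / u * (Real.log (N v) * (N v : ℝ) ^ (-(1 + 1 / u)))) := by
  classical
  have hN := E.Npos v
  have hl := E.logN v
  have hq0 : 0 ≤ 1 / √(N v : ℝ) := by positivity
  have hq := q_le E v
  have hd0 : (0 : ℝ) ≤ d := Nat.cast_nonneg d
  have hrhs1 : 0 ≤ (N v : ℝ) ^ (-(3 / 2 : ℝ)) := by positivity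
  have hrhs2 : 0 ≤ 2 * Real.exp 1 / u * (Real.log (N v) * (N v : ℝ) ^ (-(1 + 1 / u))) := by positivity
  have e1 : 1 / √(N v : ℝ) = (N v : ℝ) ^ (-(1 / 2 : ℝ)) := by
    rw [Real.rpow_neg hN.le, ← Real.sqrt_eq_rpow, one_div]
  by_cases h1 : Real.log (N v) ≤ u
  · -- the difference
    have hrs := row_sum E hreal v
    have hfa : ∀ j : ℕ, (∀ k < j, lamP N (v, k) ≤ u) →
        |(∑' k : ℕ, (if lamP N (v, k) ≤ u then cP N α (v, k) else 0)) + cv N α v| ≤
          4 * d * (1 / √(N v : ℝ)) ^ (j + 1) := by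
      intro j hj
      set f : ℕ → ℝ := fun k => if lamP N (v, k) ≤ u then 0 else -cP N α (v, k) with hf
      have hfb : ∀ k, |f k| ≤ d * (1 / √(N v : ℝ)) ^ (k + 1) := by
        intro k
        have h2 := E.cP_abs (v, k)
        simp only [hf]
        split_ifs
        · rw [abs_zero]; positivity
        · rw [abs_neg]; exact h2
      obtain ⟨s1, s2⟩ := tail_row hq0 hq hd0 j f hfb (fun k hk => by simp only [hf]; rw [if_pos (hj k hk)])
      have h3 : HasSum (fun k : ℕ => f k + cP N α (v, k)) (∑' k, f k + -cv N α v) := s1.hasSum.add hrs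
      have h4 : (fun k : ℕ => f k + cP N α (v, k)) =
          fun k => if lamP N (v, k) ≤ u then cP N α (v, k) else 0 := by
        funext k
        simp only [hf]
        split_ifs <;> ring
      rw [h4] at h3
      rw [h3.tsum_eq]
      have h5 : ∑' k, f k + -cv N α v + cv N α v = ∑' k, f k := by ring
      rw [h5]
      exact s2
    rw [if_pos h1]
    by_cases h2 : 2 * Real.log (N v) ≤ u
    · refine (hfa 2 fun k hk => ?_).trans ?_
      · unfold lamP
        have : (k : ℝ) ≤ 1 := by exact_mod_cast (show k ≤ 1 by omega)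
        simp only
        nlinarith
      · have e2 : (1 / √(N v : ℝ)) ^ (2 + 1) = (N v : ℝ) ^ (-(3 / 2 : ℝ)) := by
          rw [e1, ← Real.rpow_natCast, ← Real.rpow_mul hN.le]
          norm_num
        rw [e2]
        gcongr
        linarith
    · push Not at h2
      refine (hfa 1 fun k hk => ?_).trans ?_
      · unfold lamP
        have : k = 0 := by omega
        rw [this]
        simpa using h1
      · have e2 : (1 / √(N v : ℝ)) ^ (1 + 1) = (N v : ℝ) ^ (-(1 : ℝ)) := by
          rw [e1, ← Real.rpow_natCast, ← Real.rpow_mul hN.le]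
          norm_num
        have e3 : (N v : ℝ) ^ (-(1 : ℝ)) ≤
            2 * Real.exp 1 / u * (Real.log (N v) * (N v : ℝ) ^ (-(1 + 1 / u))) := by
          have a1 : (N v : ℝ) ^ (-(1 + 1 / u)) = (N v : ℝ) ^ (-(1 : ℝ)) * (N v : ℝ) ^ (-(1 / u)) := by
            rw [← Real.rpow_add hN]; congr 1; ring
          have a2 : Real.exp (-1) ≤ (N v : ℝ) ^ (-(1 / u)) := by
            rw [Real.rpow_def_of_pos hN]
            refine Real.exp_le_exp.2 ?_
            have : Real.log (N v) / u ≤ 1 := by rw [div_le_one hu]; exact h1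
            have e : Real.log (N v) * -(1 / u) = -(Real.log (N v) / u) := by ring
            rw [e]
            linarith
          have a3 : 1 ≤ 2 * Real.log (N v) / u := by
            rw [le_div_iff₀ hu]; linarith
          have a4 : Real.exp 1 * Real.exp (-1) = 1 := by rw [← Real.exp_add]; norm_num
          have a5 : 0 < (N v : ℝ) ^ (-(1 : ℝ)) := by positivity
          rw [a1]
          calc (N v : ℝ) ^ (-(1 : ℝ)) = 1 * (N v : ℝ) ^ (-(1 : ℝ)) * (Real.exp 1 * Real.exp (-1)) := by
                rw [a4]; ring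
            _ ≤ (2 * Real.log (N v) / u) * (N v : ℝ) ^ (-(1 : ℝ)) *
                (Real.exp 1 * (N v : ℝ) ^ (-(1 / u))) := by gcongr
            _ = _ := by ring
        rw [e2]
        gcongr
        linarith
  · rw [if_neg h1, add_zero]
    have h2 : ∀ k : ℕ, (if lamP N (v, k) ≤ u then cP N α (v, k) else 0) = 0 := by
      intro k
      rw [if_neg]
      push Not at h1 ⊢
      unfold lamP
      have : (0 : ℝ) ≤ k := Nat.cast_nonneg k
      simp only
      nlinarith
    simp only [h2, tsum_zero, abs_zero]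
    positivity

/-- **the sums over the prime powers and over the primes differ by a bounded function** -/
theorem prime_close (hreal : ∀ v k, (∑ i, zv N α v i ^ k).im = 0) :
    ∃ K u1 : ℝ, 0 < u1 ∧ ∀ u : ℝ, u1 ≤ u →
      |AA (cP N α) (lamP N) u + AA (cv N α) (fun v => Real.log (N v)) u| ≤ K := by
  classical
  obtain ⟨C, σ₀, hσ₀, hC⟩ := E.log_sum
  refine ⟨4 * d * (∑' v, (N v : ℝ) ^ (-(3 / 2 : ℝ)) + 2 * Real.exp 1 * |C|), 1 / σ₀ + 1,
    by positivity, fun u hu => ?_⟩
  have hu0 : 0 < u := by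
    have : 0 < 1 / σ₀ := by positivity
    linarith
  have hσ : 1 / u < σ₀ := by
    rw [div_lt_iff₀ hu0]
    have h1 : 1 / σ₀ < u := by linarith
    rw [div_lt_iff₀ hσ₀] at h1
    linarith
  obtain ⟨c1, c2⟩ := hC (1 / u) (by positivity) hσ
  have hsum0 : Summable fun v : X => (N v : ℝ) ^ (-(3 / 2 : ℝ)) := E.sum (3 / 2) (by norm_num)
  have hfinP : {p : X × ℕ | lamP N p ≤ u}.Finite := by
    refine (E.finS (Real.exp u)).subset fun p hp => ?_
    show (N p.1 : ℝ) ^ (p.2 + 1) ≤ Real.exp u
    have h2 : Real.exp (lamP N p) = (N p.1 : ℝ) ^ (p.2 + 1) := by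
      unfold lamP
      rw [show ((p.2 : ℝ) + 1) * Real.log (N p.1) = ((p.2 + 1 : ℕ) : ℝ) * Real.log (N p.1) by push_cast; rfl,
        Real.exp_nat_mul, Real.exp_log (E.Npos p.1)]
    rw [← h2]
    exact Real.exp_le_exp.2 hp
  have hfinV : {v : X | Real.log (N v) ≤ u}.Finite := by
    refine (E.fin_le (Real.exp u)).subset fun v hv => ?_
    show (N v : ℝ) ≤ Real.exp u
    rw [← Real.log_le_iff_le_exp (E.Npos v)]
    exact hv
  have hsP : Summable fun p : X × ℕ => (if lamP N p ≤ u then cP N α p else 0) := by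
    refine summable_of_ne_finset_zero (s := hfinP.toFinset) fun p hp => ?_
    rw [Set.Finite.mem_toFinset] at hp
    have hp' : ¬ lamP N p ≤ u := hp
    rw [if_neg hp']
  have hsV : Summable fun v : X => (if Real.log (N v) ≤ u then cv N α v else 0) := by
    refine summable_of_ne_finset_zero (s := hfinV.toFinset) fun p hp => ?_
    rw [Set.Finite.mem_toFinset] at hp
    have hp' : ¬ Real.log (N p) ≤ u := hp
    rw [if_neg hp']
  have h1 : AA (cP N α) (lamP N) u = ∑' v : X, ∑' k : ℕ, (if lamP N (v, k) ≤ u then cP N α (v, k) else 0) := by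
    unfold Pool.Agent.TH949.TX.AA
    exact hsP.tsum_prod
  have hrow : Summable fun v : X => ∑' k : ℕ, (if lamP N (v, k) ≤ u then cP N α (v, k) else 0) := hsP.prod
  have h2 : AA (cv N α) (fun v => Real.log (N v)) u =
      ∑' v : X, (if Real.log (N v) ≤ u then cv N α v else 0) := rfl
  rw [h1, h2, ← hrow.tsum_add hsV]
  have hb : Summable fun v : X => 4 * d * ((N v : ℝ) ^ (-(3 / 2 : ℝ)) +
      2 * Real.exp 1 / u * (Real.log (N v) * (N v : ℝ) ^ (-(1 + 1 / u)))) :=
    (hsum0.add (c1.mul_left _)).mul_left _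
  have h3 := tsum_of_norm_bounded hb.hasSum (fun v => by
    rw [Real.norm_eq_abs]
    exact row_close E hreal v hu0)
  rw [Real.norm_eq_abs] at h3
  refine h3.trans ?_
  rw [tsum_mul_left, hsum0.tsum_add (c1.mul_left _), tsum_mul_left]
  refine mul_le_mul_of_nonneg_left ?_ (by positivity)
  refine add_le_add le_rfl ?_
  have h4 : 2 * Real.exp 1 / u * ∑' v : X, Real.log (N v) * (N v : ℝ) ^ (-(1 + 1 / u)) =
      2 * Real.exp 1 * (1 / u * ∑' v : X, Real.log (N v) * (N v : ℝ) ^ (-(1 + 1 / u))) := by ring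
  rw [h4]
  exact mul_le_mul_of_nonneg_left (c2.trans (le_abs_self C)) (by positivity)

end

end Pool.Agent.Q18.W
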