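import Mathlib
import Pool.Agent.Q5.MS.Gen
import Pool.Agent.Q18.W.Sysw

/-! Euler products of a system of primes: one-sided bounds in one sequence of windows `[Y^(1-δ), Y]`. -/

set_option autoImplicit false

open Complex MeasureTheory Set Filter Topology
open Pool.Agent.W189.TP (DS)
open Pool.Agent.TH949.TX (AA)
open Pool.Agent.TH942.ES (Sys zv cv xv cP lamP LE)
open Pool.Agent.TH270.MS (Pl)
open Pool.Agent.Q5.MS (Pv)

namespace Pool.Agent.Q18.W

variable {X : Type} {d : ℕ} {N : X → ℕ} {α : X → Fin d → ℂ}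

/-- `p` holds throughout the windows `[Y^(1-δ), Y]`, for arbitrarily large `Y` -/
def Win (δ : ℝ) (p : ℝ → Prop) : Prop := ∃ᶠ Y : ℝ in atTop, ∀ x : ℝ, Y ^ (1 - δ) ≤ x → x ≤ Y → p x

theorem Win.mono {δ : ℝ} (hδ : δ < 1) {p q : ℝ → Prop} (h : Win δ p)
    (hpq : ∀ᶠ x : ℝ in atTop, p x → q x) : Win δ q := by
  obtain ⟨x0, hx0⟩ := eventually_atTop.1 hpq
  have h1 : ∀ᶠ Y : ℝ in atTop, x0 ≤ Y ^ (1 - δ) :=
    (tendsto_rpow_atTop (show 0 < 1 - δ by linarith)).eventually_ge_atTop x0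
  exact (h.and_eventually h1).mono fun Y hY x a b => hx0 x (hY.2.trans a) (hY.1 x a b)

theorem Win.log {δ : ℝ} {p : ℝ → Prop} (h : Win δ p) :
    ∃ᶠ U : ℝ in atTop, ∀ u : ℝ, (1 - δ) * U ≤ u → u ≤ U → p (Real.exp u) := by
  refine Real.tendsto_log_atTop.frequently ?_
  refine (h.and_eventually (eventually_gt_atTop 0)).mono ?_
  rintro Y ⟨hY, hY0⟩ u a b
  refine hY (Real.exp u) ?_ ?_
  · rw [Real.rpow_def_of_pos hY0, mul_comm]
    exact Real.exp_le_exp.2 a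
  · rw [← Real.exp_log hY0]
    exact Real.exp_le_exp.2 b

theorem pv_AA (E : Sys N α) (u : ℝ) : Pv N α (Real.exp u) = AA (cv N α) (fun v => Real.log (N v)) u := by
  classical
  rw [Pool.Agent.Q5.MS.pv_eq E]
  unfold Pool.Agent.TH949.TX.AA
  rw [tsum_eq_sum (s := (E.fin_le (Real.exp u)).toFinset)]
  · refine Finset.sum_congr rfl fun v hv => ?_
    rw [Set.Finite.mem_toFinset] at hv
    have h1 : (N v : ℝ) ≤ Real.exp u := hv
    rw [if_pos]
    rwa [Real.log_le_iff_le_exp (E.Npos v)]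
  · intro v hv
    rw [Set.Finite.mem_toFinset] at hv
    have h1 : ¬ (N v : ℝ) ≤ Real.exp u := hv
    rw [if_neg]
    rwa [Real.log_le_iff_le_exp (E.Npos v)]

theorem pl_AA (E : Sys N α) (u : ℝ) : Pl N α (Real.exp u) = AA (cP N α) (lamP N) u := by
  classical
  have h0 : Pl N α (Real.exp u) = ∑ p ∈ (E.finS (Real.exp u)).toFinset, cP N α p :=
    finsum_mem_eq_finite_toFinset_sum (fun p : X × ℕ => cP N α p) (E.finS (Real.exp u))
  have hl : ∀ p : X × ℕ, lamP N p ≤ u ↔ (N p.1 : ℝ) ^ (p.2 + 1) ≤ Real.exp u := by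
    intro p
    have h2 : Real.exp (lamP N p) = (N p.1 : ℝ) ^ (p.2 + 1) := by
      unfold Pool.Agent.TH942.ES.lamP
      rw [show ((p.2 : ℝ) + 1) * Real.log (N p.1) = ((p.2 + 1 : ℕ) : ℝ) * Real.log (N p.1) by push_cast; rfl,
        Real.exp_nat_mul, Real.exp_log (E.Npos p.1)]
    rw [← h2, Real.exp_le_exp]
  rw [h0]
  unfold Pool.Agent.TH949.TX.AA
  rw [tsum_eq_sum (s := (E.finS (Real.exp u)).toFinset)]
  · refine Finset.sum_congr rfl fun p hp => ?_
    rw [Set.Finite.mem_toFinset] at hp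
    have h1 : (N p.1 : ℝ) ^ (p.2 + 1) ≤ Real.exp u := hp
    rw [if_pos ((hl p).2 h1)]
  · intro p hp
    rw [Set.Finite.mem_toFinset] at hp
    have h1 : ¬ (N p.1 : ℝ) ^ (p.2 + 1) ≤ Real.exp u := hp
    rw [if_neg fun h => h1 ((hl p).1 h)]

/-- `Ψ` is a meromorphic continuation of the Euler product to `Re s > 0` and to `0` -/
structure Dw (N : X → ℕ) (α : X → Fin d → ℂ) (Ψ : ℂ → ℂ) : Prop where
  E : Sys N α
  hreal : ∀ v k, (∑ i, zv N α v i ^ k).im = 0
  mer : ∀ s : ℂ, 0 < s.re → MeromorphicAt Ψ s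
  mer0 : MeromorphicAt Ψ 0
  hL : ∀ s : ℂ, 1 / 2 < s.re → Ψ s = LE N α s

namespace Dw

variable {Ψ : ℂ → ℂ} (H : Dw N α Ψ)
include H

theorem exp (s : ℂ) (hs : 1 < s.re) : Ψ s = cexp (DS (cP N α) (lamP N) s) := by
  rw [H.hL s (by linarith), sys_exp H.E H.hreal (by linarith)]

theorem merOn : MeromorphicOn Ψ {s : ℂ | 0 < s.re} := fun s hs => H.mer s hs

theorem cnt : Countable X := H.E.cnt

theorem ord_ne_top : meromorphicOrderAt Ψ 0 ≠ ⊤ := by
  obtain ⟨η, hη, hS, -⟩ := nbhd (lamP_nonneg H.E) (sys_abs H.E) H.exp H.merOn H.mer0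
  exact order_ne_top hS.conn hS.mer hS.hL hS.abs hS.exp (s1 := 2) (by norm_num)
    (Or.inl (show 0 < (2 : ℂ).re by norm_num)) (Or.inr (Metric.mem_ball_self hη))

theorem ord_coe : ∃ m : ℤ, meromorphicOrderAt Ψ 0 = m ∧ (meromorphicOrderAt Ψ 0).untop₀ = m :=
  ⟨_, (WithTop.coe_untop₀_of_ne_top H.ord_ne_top).symm, rfl⟩

/-- from a bound for the product over the primes to a bound for the sums over the prime powers -/
theorem up {δ : ℝ} (hδ : δ < 1) {g : ℝ → ℝ} (h : Win δ fun x => Pv N α x ≤ g x) :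
    ∃ K : ℝ, ∃ᶠ U : ℝ in atTop, ∀ u : ℝ, (1 - δ) * U ≤ u → u ≤ U →
      -(g (Real.exp u) + K) ≤ AA (cP N α) (lamP N) u := by
  obtain ⟨K, u1, hu1, hK⟩ := prime_close H.E H.hreal
  refine ⟨K, ?_⟩
  have h1 : ∀ᶠ U : ℝ in atTop, u1 ≤ (1 - δ) * U :=
    (tendsto_id.const_mul_atTop (show 0 < 1 - δ by linarith)).eventually_ge_atTop u1
  refine (h.log.and_eventually h1).mono fun U hU u a b => ?_
  have h2 := hU.1 u a b
  rw [pv_AA H.E] at h2
  have h3 := (abs_le.1 (hK u (hU.2.trans a))).1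
  linarith

theorem down {δ : ℝ} (hδ : δ < 1) {g : ℝ → ℝ} (h : Win δ fun x => g x ≤ Pv N α x) :
    ∃ K : ℝ, ∃ᶠ U : ℝ in atTop, ∀ u : ℝ, (1 - δ) * U ≤ u → u ≤ U →
      AA (cP N α) (lamP N) u ≤ -g (Real.exp u) + K := by
  obtain ⟨K, u1, hu1, hK⟩ := prime_close H.E H.hreal
  refine ⟨K, ?_⟩
  have h1 : ∀ᶠ U : ℝ in atTop, u1 ≤ (1 - δ) * U :=
    (tendsto_id.const_mul_atTop (show 0 < 1 - δ by linarith)).eventually_ge_atTop u1
  refine (h.log.and_eventually h1).mono fun U hU u a b => ?_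
  have h2 := hU.1 u a b
  rw [pv_AA H.E] at h2
  have h3 := (abs_le.1 (hK u (hU.2.trans a))).2
  linarith

/-- **one-sided bound** for the product over the primes -/
theorem one_sided (hp : ∀ x : ℝ, 0 < x → 0 ≤ meromorphicOrderAt Ψ (x : ℂ)) {δ κ C : ℝ} (h0 : 0 < δ) (h1 : δ < 1)
    (h : Win δ fun x => Pv N α x ≤ κ * Real.log (Real.log x) + C) :
    (∀ s : ℂ, 0 < s.re → meromorphicOrderAt Ψ s = 0) ∧
      ∃ m : ℤ, meromorphicOrderAt Ψ 0 = m ∧ (m : ℝ) ≤ κ := by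
  have := H.cnt
  obtain ⟨K, hK⟩ := H.up h1 h
  obtain ⟨m, hm, hm'⟩ := H.ord_coe
  have h3 := main_win (lamP_nonneg H.E) (sys_abs H.E) H.exp H.merOn H.mer0 hp h0 h1 (κ := κ) (C0 := C + K)
    (hK.mono fun U hU u a b => by
      have := hU u a b
      rw [Real.log_exp] at this
      linarith)
  rw [hm'] at h3
  exact ⟨h3.1, m, hm, h3.2⟩

/-- **two-sided bound** for the product over the primes, real zeros and poles are allowed -/
theorem two_sided {δ κ C δ' κ' C' : ℝ} (h0 : 0 < δ) (h1 : δ < 1)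
    (h : Win δ fun x => Pv N α x ≤ κ * Real.log (Real.log x) + C) (h0' : 0 < δ') (h1' : δ' < 1)
    (h' : Win δ' fun x => κ' * Real.log (Real.log x) + C' ≤ Pv N α x) :
    (∀ s : ℂ, 0 < s.re → meromorphicOrderAt Ψ s = 0) ∧
      ∃ m : ℤ, meromorphicOrderAt Ψ 0 = m ∧ (m : ℝ) ≤ κ ∧ κ' ≤ (m : ℝ) := by
  have := H.cnt
  obtain ⟨K, hK⟩ := H.up h1 h
  obtain ⟨K', hK'⟩ := H.down h1' h'
  obtain ⟨m, hm, hm'⟩ := H.ord_coe
  have h3 := main_two (lamP_nonneg H.E) (sys_abs H.E) H.exp H.merOn H.mer0 h0 h1 (κ := κ) (C0 := C + K)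
    (hK.mono fun U hU u a b => by
      have := hU u a b
      rw [Real.log_exp] at this
      linarith) h0' h1' (κ' := κ') (C0' := -C' + K')
    (hK'.mono fun U hU u a b => by
      have := hU u a b
      rw [Real.log_exp] at this
      linarith)
  rw [hm'] at h3
  exact ⟨h3.1, m, hm, h3.2⟩

omit H in
theorem lead_ne {m : ℤ} (h0 : MeromorphicAt Ψ 0) (hm : meromorphicOrderAt Ψ 0 = m) {c : ℂ}
    (hc : Tendsto (fun s : ℂ => Ψ s / s ^ m) (𝓝[≠] 0) (𝓝 c)) : c ≠ 0 := by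
  obtain ⟨g, hg, hg0, he⟩ := (meromorphicOrderAt_eq_int_iff h0).1 hm
  have h1 : Tendsto g (𝓝[≠] 0) (𝓝 (g 0)) := hg.continuousAt.tendsto.mono_left nhdsWithin_le_nhds
  have h2 : c = g 0 := by
    refine tendsto_nhds_unique hc (h1.congr' ?_)
    filter_upwards [he, self_mem_nhdsWithin] with s hs hs0
    have hs0' : s ≠ 0 := hs0
    rw [hs, sub_zero, smul_eq_mul, mul_div_cancel_left₀ _ (zpow_ne_zero _ hs0')]
  rw [h2]
  exact hg0

/-- **the leading coefficient** and the product over the prime powers -/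
theorem lead {δ C : ℝ} (h0 : 0 < δ) (h1 : δ < 1) {m : ℤ} (hm : meromorphicOrderAt Ψ 0 = m)
    (hz : ∀ s : ℂ, 0 < s.re → meromorphicOrderAt Ψ s = 0) {c : ℂ}
    (hc : Tendsto (fun s : ℂ => Ψ s / s ^ m) (𝓝[≠] 0) (𝓝 c)) :
    ((Win δ fun x => -Pl N α x ≤ m * Real.log (Real.log x) + C) →
      Real.exp (m * Real.eulerMascheroniConstant - C) ≤ ‖c‖) ∧
    ((Win δ fun x => m * Real.log (Real.log x) + C ≤ -Pl N α x) →
      ‖c‖ ≤ Real.exp (m * Real.eulerMascheroniConstant - C)) := by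
  have := H.cnt
  have hc0 : c ≠ 0 := lead_ne H.mer0 hm hc
  have hm' : (meromorphicOrderAt Ψ 0).untop₀ = m := by rw [hm]; rfl
  constructor
  · intro h
    have h2 := lead_low (lamP_nonneg H.E) (sys_abs H.E) H.exp H.merOn H.mer0 hz (c := c) (by rw [hm']; exact hc)
      h0 h1 (C0 := C) (h.log.mono fun U hU u a b => by
        have := hU u a b
        rw [Real.log_exp, pl_AA H.E] at this
        rw [hm']
        linarith)
    rw [hm'] at h2
    exact h2
  · intro h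
    have h2 := lead_up (lamP_nonneg H.E) (sys_abs H.E) H.exp H.merOn H.mer0 hz hc0 (c := c)
      (by rw [hm']; exact hc) h0 h1 (C0 := -C) (h.log.mono fun U hU u a b => by
        have := hU u a b
        rw [Real.log_exp, pl_AA H.E] at this
        rw [hm']
        linarith)
    rw [hm', ← sub_eq_add_neg] at h2
    exact h2

/-- **one-sided bound** for the product over the prime powers -/
theorem one_star (hp : ∀ x : ℝ, 0 < x → 0 ≤ meromorphicOrderAt Ψ (x : ℂ)) {δ κ C : ℝ} (h0 : 0 < δ) (h1 : δ < 1)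
    (h : Win δ fun x => -Pl N α x ≤ κ * Real.log (Real.log x) + C) :
    (∀ s : ℂ, 0 < s.re → meromorphicOrderAt Ψ s = 0) ∧
      ∃ m : ℤ, meromorphicOrderAt Ψ 0 = m ∧ (m : ℝ) ≤ κ := by
  have := H.cnt
  obtain ⟨m, hm, hm'⟩ := H.ord_coe
  have h3 := main_win (lamP_nonneg H.E) (sys_abs H.E) H.exp H.merOn H.mer0 hp h0 h1 (κ := κ) (C0 := C)
    (h.log.mono fun U hU u a b => by
      have := hU u a b
      rw [Real.log_exp, pl_AA H.E] at this
      linarith)
  rw [hm'] at h3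
  exact ⟨h3.1, m, hm, h3.2⟩

/-- **two-sided bound** for the product over the prime powers -/
theorem two_star {δ κ C δ' κ' C' : ℝ} (h0 : 0 < δ) (h1 : δ < 1)
    (h : Win δ fun x => -Pl N α x ≤ κ * Real.log (Real.log x) + C) (h0' : 0 < δ') (h1' : δ' < 1)
    (h' : Win δ' fun x => κ' * Real.log (Real.log x) + C' ≤ -Pl N α x) :
    (∀ s : ℂ, 0 < s.re → meromorphicOrderAt Ψ s = 0) ∧
      ∃ m : ℤ, meromorphicOrderAt Ψ 0 = m ∧ (m : ℝ) ≤ κ ∧ κ' ≤ (m : ℝ) := by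
  have := H.cnt
  obtain ⟨m, hm, hm'⟩ := H.ord_coe
  have h3 := main_two (lamP_nonneg H.E) (sys_abs H.E) H.exp H.merOn H.mer0 h0 h1 (κ := κ) (C0 := C)
    (h.log.mono fun U hU u a b => by
      have := hU u a b
      rw [Real.log_exp, pl_AA H.E] at this
      linarith) h0' h1' (κ' := κ') (C0' := -C')
    (h'.log.mono fun U hU u a b => by
      have := hU u a b
      rw [Real.log_exp, pl_AA H.E] at this
      linarith)
  rw [hm'] at h3
  exact ⟨h3.1, m, hm, h3.2⟩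

/-- **zero-free half planes**: a bound `exp (x^c)` in one sequence of windows -/
theorem half_plane {c : ℝ} (hc : 0 ≤ c) (hp : ∀ x : ℝ, c < x → 0 ≤ meromorphicOrderAt Ψ (x : ℂ)) {δ C : ℝ}
    (h0 : 0 < δ) (h1 : δ < 1) (hC : 0 ≤ C) (h : Win δ fun x => Pv N α x ≤ C * x ^ c) (s : ℂ) (hs : c < s.re) :
    meromorphicOrderAt Ψ s = 0 := by
  have := H.cnt
  by_contra hord
  obtain ⟨K, hK⟩ := H.up h1 h
  have hS : Ser (cP N α) (lamP N) Ψ {s : ℂ | c < s.re} :=
    ⟨lamP_nonneg H.E, sys_abs H.E, H.exp, half_conn c, fun z hz => H.mer z (lt_of_le_of_lt hc hz)⟩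
  obtain ⟨b, hb1, hb2, -⟩ := zero_core hS hc hs hord h0 h1 (W := C + |K|) (by positivity)
    ((hK.and_eventually (eventually_ge_atTop 0)).mono fun U hU u a b => by
      have h2 := hU.1 u a b
      have hu0 : 0 ≤ u := le_trans (mul_nonneg (by linarith) hU.2) a
      have h3 : Real.exp u ^ c = Real.exp (c * u) := by
        rw [Real.rpow_def_of_pos (Real.exp_pos u), Real.log_exp, mul_comm]
      rw [h3] at h2
      have h4 : 1 ≤ Real.exp (c * u) := Real.one_le_exp (mul_nonneg hc hu0)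
      have h5 : K ≤ |K| * Real.exp (c * u) := (le_abs_self K).trans (le_mul_of_one_le_right (abs_nonneg _) h4)
      linarith [add_mul C |K| (Real.exp (c * u))])
  exact absurd (hp b hb1) (not_le.2 hb2)

end Dw

end Pool.Agent.Q18.W
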