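import Mathlib
import Pool.Agent.Q18.W.SysMain

/-! The windows theorems for functions `P`, `P*` with `log P = Pv`, `log P* = -Pl`, centre `c`. -/

set_option autoImplicit false

open Complex MeasureTheory Set Filter Topology
open Pool.Agent.TH942.ES (Sys zv cv xv cP lamP LE)
open Pool.Agent.TH270.MS (Pl)
open Pool.Agent.Q5.MS (Pv)

namespace Pool.Agent.Q18.W

variable {X : Type} {d : ℕ} {N : X → ℕ} {α : X → Fin d → ℂ}

theorem dw_of {c : ℝ} (E : Sys N α) (hreal : ∀ v k, (∑ i, zv N α v i ^ k).im = 0) {F : ℂ → ℂ}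
    (h1 : ∀ s : ℂ, c < s.re → MeromorphicAt F s) (h2 : MeromorphicAt F (c : ℂ))
    (h3 : ∀ s : ℂ, c + 1 / 2 < s.re → HasProd (fun v => ∏ i, (1 - zv N α v i * xv N v (s - c))⁻¹) (F s)) :
    Dw N α (fun s => F (c + s)) := by
  have ha : ∀ s : ℂ, AnalyticAt ℂ (fun s : ℂ => (c : ℂ) + s) s := fun s => by fun_prop
  refine ⟨E, hreal, fun s hs => ?_, ?_, fun s hs => ?_⟩
  · exact MeromorphicAt.comp_analyticAt (h1 (c + s) (by simpa using hs)) (ha s)
  · exact MeromorphicAt.comp_analyticAt (f := F) (g := fun s : ℂ => (c : ℂ) + s) (by simpa using h2) (ha 0)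
  · have h4 := h3 (c + s) (by rw [Complex.add_re, Complex.ofReal_re]; linarith)
    simp only [add_sub_cancel_left] at h4
    exact h4.tprod_eq.symm

theorem ord_shift (F : ℂ → ℂ) (c s : ℂ) :
    meromorphicOrderAt (fun s => F (c + s)) s = meromorphicOrderAt F (c + s) := by
  have h1 : AnalyticAt ℂ (fun s : ℂ => c + s) s := by fun_prop
  have h2 : deriv (fun s : ℂ => c + s) s ≠ 0 := by simp
  exact meromorphicOrderAt_comp_of_deriv_ne_zero (f := F) h1 h2

theorem ord_shift0 (F : ℂ → ℂ) (c : ℂ) :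
    meromorphicOrderAt (fun s => F (c + s)) 0 = meromorphicOrderAt F c := by
  rw [ord_shift, add_zero]

theorem free_shift {F : ℂ → ℂ} {c b : ℝ}
    (h : ∀ s : ℂ, b < s.re → meromorphicOrderAt (fun s => F (c + s)) s = 0) (s : ℂ) (hs : c + b < s.re) :
    meromorphicOrderAt F s = 0 := by
  have h2 := h (s - c) (by rw [Complex.sub_re, Complex.ofReal_re]; linarith)
  rwa [ord_shift, add_sub_cancel] at h2

theorem real_shift {F : ℂ → ℂ} {c b : ℝ} (h : ∀ x : ℝ, c + b < x → 0 ≤ meromorphicOrderAt F (x : ℂ)) (x : ℝ)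
    (hx : b < x) : 0 ≤ meromorphicOrderAt (fun s => F (c + s)) (x : ℂ) := by
  rw [ord_shift]
  have := h (c + x) (by linarith)
  push_cast at this
  exact this

theorem coef_shift {F : ℂ → ℂ} {m : ℤ} {c a : ℂ}
    (h : Tendsto (fun s : ℂ => F s / (s - c) ^ m) (𝓝[≠] c) (𝓝 a)) :
    Tendsto (fun s : ℂ => F (c + s) / s ^ m) (𝓝[≠] 0) (𝓝 a) := by
  have ht : Tendsto (fun s : ℂ => c + s) (𝓝[≠] 0) (𝓝[≠] c) := by
    refine tendsto_nhdsWithin_iff.2 ⟨?_, ?_⟩
    · have : Continuous fun s : ℂ => c + s := by fun_prop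
      have h2 := this.tendsto 0
      rw [add_zero] at h2
      exact h2.mono_left nhdsWithin_le_nhds
    · filter_upwards [self_mem_nhdsWithin] with s hs
      have hs' : s ≠ 0 := hs
      simpa using hs'
  refine (h.comp ht).congr fun s => ?_
  simp

/-- the bounds in logarithmic form -/
theorem log_up {P C κ l : ℝ} (hP : 0 < P) (hl : 0 < l) (h : P ≤ C * l ^ κ) :
    Real.log P ≤ κ * Real.log l + Real.log (max C 1) := by
  have hC : 0 < max C 1 := lt_max_of_lt_right one_pos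
  have hp := Real.rpow_pos_of_pos hl κ
  have h1 : P ≤ max C 1 * l ^ κ := h.trans (mul_le_mul_of_nonneg_right (le_max_left _ _) hp.le)
  have h2 := Real.log_le_log hP h1
  rw [Real.log_mul hC.ne' hp.ne', Real.log_rpow hl] at h2
  linarith

theorem log_up' {P C κ l : ℝ} (hP : 0 < P) (hC : 0 < C) (hl : 0 < l) (h : P ≤ C * l ^ κ) :
    Real.log P ≤ κ * Real.log l + Real.log C := by
  have hp := Real.rpow_pos_of_pos hl κ
  have h2 := Real.log_le_log hP h
  rw [Real.log_mul hC.ne' hp.ne', Real.log_rpow hl] at h2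
  linarith

theorem log_down {P C κ l : ℝ} (hC : 0 < C) (hl : 0 < l) (h : C * l ^ κ ≤ P) :
    κ * Real.log l + Real.log C ≤ Real.log P := by
  have hp := Real.rpow_pos_of_pos hl κ
  have h2 := Real.log_le_log (mul_pos hC hp) h
  rw [Real.log_mul hC.ne' hp.ne', Real.log_rpow hl] at h2
  linarith

section

variable {c : ℝ} {F : ℂ → ℂ} {P Q : ℝ → ℝ}

/-- the product over the primes, one-sided -/
theorem prime_one (H : Dw N α (fun s => F (c + s))) (hP : ∀ x, 0 < P x)
    (hlog : ∀ x, Real.log (P x) = Pv N α x) {δ : ℝ} (h0 : 0 < δ) (h1 : δ < 1) {κ C : ℝ}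
    (hr : ∀ x : ℝ, c < x → 0 ≤ meromorphicOrderAt F (x : ℂ))
    (h : Win δ fun x => P x ≤ C * Real.log x ^ κ) :
    (∀ s : ℂ, c < s.re → meromorphicOrderAt F s = 0) ∧
      ∃ m : ℤ, meromorphicOrderAt F c = m ∧ (m : ℝ) ≤ κ := by
  have hw : Win δ fun x => Pv N α x ≤ κ * Real.log (Real.log x) + Real.log (max C 1) := by
    refine Win.mono h1 h ?_
    filter_upwards [eventually_gt_atTop 1] with x hx h2
    rw [← hlog]
    exact log_up (hP x) (Real.log_pos hx) h2
  obtain ⟨f1, m, f2, f3⟩ := H.one_sided (real_shift (b := 0) (by simpa using hr)) h0 h1 hw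
  rw [ord_shift0] at f2
  exact ⟨fun s hs => free_shift f1 s (by simpa using hs), m, f2, f3⟩

/-- the product over the primes, two-sided -/
theorem prime_two (H : Dw N α (fun s => F (c + s))) (hP : ∀ x, 0 < P x)
    (hlog : ∀ x, Real.log (P x) = Pv N α x) {δ δ' : ℝ} (h0 : 0 < δ) (h1 : δ < 1) (h0' : 0 < δ') (h1' : δ' < 1)
    {κ C κ' C' : ℝ} (hC' : 0 < C')
    (h : Win δ fun x => P x ≤ C * Real.log x ^ κ) (h' : Win δ' fun x => C' * Real.log x ^ κ' ≤ P x) :
    (∀ s : ℂ, c < s.re → meromorphicOrderAt F s = 0) ∧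
      ∃ m : ℤ, meromorphicOrderAt F c = m ∧ κ' ≤ m ∧ (m : ℝ) ≤ κ := by
  have hw : Win δ fun x => Pv N α x ≤ κ * Real.log (Real.log x) + Real.log (max C 1) := by
    refine Win.mono h1 h ?_
    filter_upwards [eventually_gt_atTop 1] with x hx h2
    rw [← hlog]
    exact log_up (hP x) (Real.log_pos hx) h2
  have hw' : Win δ' fun x => κ' * Real.log (Real.log x) + Real.log C' ≤ Pv N α x := by
    refine Win.mono h1' h' ?_
    filter_upwards [eventually_gt_atTop 1] with x hx h2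
    rw [← hlog]
    exact log_down hC' (Real.log_pos hx) h2
  obtain ⟨f1, m, f2, f3, f4⟩ := H.two_sided h0 h1 hw h0' h1' hw'
  rw [ord_shift0] at f2
  exact ⟨fun s hs => free_shift f1 s (by simpa using hs), m, f2, f4, f3⟩

/-- zero-free half planes -/
theorem prime_half (H : Dw N α (fun s => F (c + s))) (hP : ∀ x, 0 < P x)
    (hlog : ∀ x, Real.log (P x) = Pv N α x) {δ : ℝ} (h0 : 0 < δ) (h1 : δ < 1) {b C : ℝ} (hb : 0 ≤ b)
    (hr : ∀ x : ℝ, c + b < x → 0 ≤ meromorphicOrderAt F (x : ℂ))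
    (h : Win δ fun x => P x ≤ Real.exp (C * x ^ b)) (s : ℂ) (hs : c + b < s.re) :
    meromorphicOrderAt F s = 0 := by
  refine free_shift (H.half_plane hb (real_shift hr) h0 h1 (C := |C|) (abs_nonneg _) ?_) s hs
  refine Win.mono h1 h ?_
  filter_upwards [eventually_gt_atTop 0] with x hx h3
  rw [← hlog]
  have h4 := Real.log_le_log (hP x) h3
  rw [Real.log_exp] at h4
  refine h4.trans ?_
  have := Real.rpow_nonneg hx.le b
  gcongr
  exact le_abs_self C

/-- the product over the prime powers, one-sided -/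
theorem star_one (H : Dw N α (fun s => F (c + s))) (hQ : ∀ x, 0 < Q x)
    (hlog : ∀ x, Real.log (Q x) = -Pl N α x) {δ : ℝ} (h0 : 0 < δ) (h1 : δ < 1) {κ C : ℝ} (hC : 0 < C)
    (hr : ∀ x : ℝ, c < x → 0 ≤ meromorphicOrderAt F (x : ℂ))
    (h : Win δ fun x => Q x ≤ C * Real.log x ^ κ) :
    (∀ s : ℂ, c < s.re → meromorphicOrderAt F s = 0) ∧
      ∃ m : ℤ, meromorphicOrderAt F c = m ∧ (m : ℝ) ≤ κ ∧ ((m : ℝ) = κ →
        ∀ a : ℂ, Tendsto (fun s : ℂ => F s / (s - c) ^ m) (𝓝[≠] (c : ℂ)) (𝓝 a) →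
          Real.exp (m * Real.eulerMascheroniConstant) / C ≤ ‖a‖) := by
  have hw : Win δ fun x => -Pl N α x ≤ κ * Real.log (Real.log x) + Real.log C := by
    refine Win.mono h1 h ?_
    filter_upwards [eventually_gt_atTop 1] with x hx h2
    rw [← hlog]
    exact log_up' (hQ x) hC (Real.log_pos hx) h2
  obtain ⟨f1, m, f2, f3⟩ := H.one_star (real_shift (b := 0) (by simpa using hr)) h0 h1 hw
  have f2' := f2
  rw [ord_shift0] at f2'
  refine ⟨fun s hs => free_shift f1 s (by simpa using hs), m, f2', f3, fun hm a ha => ?_⟩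
  rw [← hm] at hw
  have l1 := (H.lead h0 h1 f2 f1 (C := Real.log C) (coef_shift ha)).1 hw
  rwa [Real.exp_sub, Real.exp_log hC] at l1

/-- the product over the prime powers, two-sided -/
theorem star_two (H : Dw N α (fun s => F (c + s))) (hQ : ∀ x, 0 < Q x)
    (hlog : ∀ x, Real.log (Q x) = -Pl N α x) {δ δ' : ℝ} (h0 : 0 < δ) (h1 : δ < 1) (h0' : 0 < δ') (h1' : δ' < 1)
    {ρ C C' : ℝ} (hC : 0 < C) (hC' : 0 < C')
    (h : Win δ fun x => Q x ≤ C * Real.log x ^ ρ) (h' : Win δ' fun x => C' * Real.log x ^ ρ ≤ Q x) :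
    (∀ s : ℂ, c < s.re → meromorphicOrderAt F s = 0) ∧
      ∃ m : ℤ, ρ = m ∧ meromorphicOrderAt F c = m ∧
        ∀ a : ℂ, Tendsto (fun s : ℂ => F s / (s - c) ^ m) (𝓝[≠] (c : ℂ)) (𝓝 a) →
          0 < ‖a‖ ∧ C' ≤ Real.exp (m * Real.eulerMascheroniConstant) / ‖a‖ ∧
            Real.exp (m * Real.eulerMascheroniConstant) / ‖a‖ ≤ C := by
  have hw : Win δ fun x => -Pl N α x ≤ ρ * Real.log (Real.log x) + Real.log C := by
    refine Win.mono h1 h ?_
    filter_upwards [eventually_gt_atTop 1] with x hx h2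
    rw [← hlog]
    exact log_up' (hQ x) hC (Real.log_pos hx) h2
  have hw' : Win δ' fun x => ρ * Real.log (Real.log x) + Real.log C' ≤ -Pl N α x := by
    refine Win.mono h1' h' ?_
    filter_upwards [eventually_gt_atTop 1] with x hx h2
    rw [← hlog]
    exact log_down hC' (Real.log_pos hx) h2
  obtain ⟨f1, m, f2, f3, f4⟩ := H.two_star h0 h1 hw h0' h1' hw'
  have hρ : ρ = m := le_antisymm f4 f3
  have f2' := f2
  rw [ord_shift0] at f2'
  refine ⟨fun s hs => free_shift f1 s (by simpa using hs), m, hρ, f2', fun a ha => ?_⟩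
  have ha0 : a ≠ 0 := Dw.lead_ne H.mer0 f2 (coef_shift ha)
  have hap : 0 < ‖a‖ := norm_pos_iff.2 ha0
  rw [hρ] at hw hw'
  have l1 := (H.lead h0 h1 f2 f1 (C := Real.log C) (coef_shift ha)).1 hw
  have l2 := (H.lead h0' h1' f2 f1 (C := Real.log C') (coef_shift ha)).2 hw'
  rw [Real.exp_sub, Real.exp_log hC, div_le_iff₀ hC] at l1
  rw [Real.exp_sub, Real.exp_log hC', le_div_iff₀ hC'] at l2
  refine ⟨hap, ?_, ?_⟩
  · rw [le_div_iff₀ hap]
    linarith
  · rw [div_le_iff₀ hap]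
    linarith

/-- the limit along one sequence of windows -/
theorem star_lim (H : Dw N α (fun s => F (c + s))) (hQ : ∀ x, 0 < Q x)
    (hlog : ∀ x, Real.log (Q x) = -Pl N α x) {δ : ℝ} (h0 : 0 < δ) (h1 : δ < 1)
    {ρ A : ℝ} (hA : 0 < A) (h : ∀ ε : ℝ, 0 < ε → Win δ fun x => |Q x / Real.log x ^ ρ - A| < ε) :
    (∀ s : ℂ, c < s.re → meromorphicOrderAt F s = 0) ∧
      ∃ m : ℤ, ρ = m ∧ meromorphicOrderAt F c = m ∧
        ∀ a : ℂ, Tendsto (fun s : ℂ => F s / (s - c) ^ m) (𝓝[≠] (c : ℂ)) (𝓝 a) →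
          A = Real.exp (m * Real.eulerMascheroniConstant) / ‖a‖ := by
  have hw : ∀ ε : ℝ, 0 < ε → ε < A → (Win δ fun x => Q x ≤ (A + ε) * Real.log x ^ ρ) ∧
      (Win δ fun x => (A - ε) * Real.log x ^ ρ ≤ Q x) := by
    intro ε hε hεA
    have h3 := h ε hε
    constructor
    · refine Win.mono h1 h3 ?_
      filter_upwards [eventually_gt_atTop 1] with x hx h4
      have hl := Real.log_pos hx
      have hp := Real.rpow_pos_of_pos hl ρ
      have h5 := (abs_lt.1 h4).2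
      rw [← div_le_iff₀ hp]
      linarith
    · refine Win.mono h1 h3 ?_
      filter_upwards [eventually_gt_atTop 1] with x hx h4
      have hl := Real.log_pos hx
      have hp := Real.rpow_pos_of_pos hl ρ
      have h5 := (abs_lt.1 h4).1
      rw [← le_div_iff₀ hp]
      linarith
  have hA2 : A / 2 < A := by linarith
  obtain ⟨f1, m, f2, f3, f4⟩ := star_two H hQ hlog h0 h1 h0 h1 (show 0 < A + A / 2 by linarith)
    (show 0 < A - A / 2 by linarith) (hw (A / 2) (by linarith) hA2).1 (hw (A / 2) (by linarith) hA2).2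
  refine ⟨f1, m, f2, f3, fun a ha => ?_⟩
  set G : ℝ := Real.exp (m * Real.eulerMascheroniConstant) / ‖a‖ with hG
  have key : ∀ ε : ℝ, 0 < ε → ε < A → A - ε ≤ G ∧ G ≤ A + ε := by
    intro ε hε hεA
    obtain ⟨-, m', g2, g3, g4⟩ := star_two H hQ hlog h0 h1 h0 h1 (show 0 < A + ε by linarith)
      (show 0 < A - ε by linarith) (hw ε hε hεA).1 (hw ε hε hεA).2
    have hmm : m' = m := by
      have : (m' : ℝ) = (m : ℝ) := by rw [← g2, ← f2]
      exact_mod_cast this
    subst hmm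
    obtain ⟨-, g5, g6⟩ := g4 a ha
    exact ⟨g5, g6⟩
  refine le_antisymm ?_ ?_
  · refine le_of_forall_pos_le_add fun ε hε => ?_
    rcases lt_or_ge ε A with h | h
    · linarith [(key ε hε h).1]
    · linarith [(key (A / 2) (by linarith) (by linarith)).1]
  · refine le_of_forall_pos_le_add fun ε hε => ?_
    rcases lt_or_ge ε A with h | h
    · linarith [(key ε hε h).2]
    · linarith [(key (A / 2) (by linarith) (by linarith)).2]

/-- the product over the prime powers is not too small in any window -/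
theorem star_omega (H : Dw N α (fun s => F (c + s))) (hQ : ∀ x, 0 < Q x)
    (hlog : ∀ x, Real.log (Q x) = -Pl N α x) {δ : ℝ} (h0 : 0 < δ) (h1 : δ < 1)
    (hr : ∀ x : ℝ, c < x → 0 ≤ meromorphicOrderAt F (x : ℂ)) {m : ℤ} (hm : meromorphicOrderAt F c = m) {a : ℂ}
    (ha : Tendsto (fun s : ℂ => F s / (s - c) ^ m) (𝓝[≠] (c : ℂ)) (𝓝 a)) {ε : ℝ} (hε : 0 < ε) (hε1 : ε < 1) :
    ∀ᶠ Y : ℝ in atTop, ∃ x : ℝ, Y ^ (1 - δ) ≤ x ∧ x ≤ Y ∧
      (1 - ε) * (Real.exp (m * Real.eulerMascheroniConstant) / ‖a‖) * Real.log x ^ (m : ℝ) < Q x := by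
  by_contra hcon
  rw [Filter.not_eventually] at hcon
  have ha0 : a ≠ 0 := by
    refine Dw.lead_ne (Ψ := fun s => F (c + s)) H.mer0 ?_ (coef_shift ha)
    rw [ord_shift0]
    exact hm
  have hap : 0 < ‖a‖ := norm_pos_iff.2 ha0
  set T : ℝ := Real.exp (m * Real.eulerMascheroniConstant) / ‖a‖ with hT
  have hT0 : 0 < T := by positivity
  have hC : 0 < (1 - ε) * T := mul_pos (by linarith) hT0
  have hw : Win δ fun x => Q x ≤ (1 - ε) * T * Real.log x ^ (m : ℝ) := by
    refine hcon.mono fun Y hY x p q => ?_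
    push Not at hY
    exact hY x p q
  obtain ⟨-, m', g1, g2, g3⟩ := star_one H hQ hlog h0 h1 hC hr hw
  have hmm : m' = m := by
    rw [hm] at g1
    exact_mod_cast g1.symm
  subst hmm
  have g4 := g3 rfl a ha
  rw [div_le_iff₀ hC] at g4
  have g5 : T * ‖a‖ = Real.exp (m' * Real.eulerMascheroniConstant) := by
    rw [hT]; field_simp
  have g6 : ‖a‖ * ((1 - ε) * T) = (1 - ε) * Real.exp (m' * Real.eulerMascheroniConstant) := by
    rw [← g5]; ring
  rw [g6] at g4
  have g7 := Real.exp_pos (m' * Real.eulerMascheroniConstant)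
  nlinarith

end

end Pool.Agent.Q18.W
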