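import Mathlib
import Pool.Agent.Q18.W.SysMain

/-! Bounds in the mean in one sequence of windows: tools. -/

set_option autoImplicit false

open Complex MeasureTheory Set Filter Topology
open Pool.Agent.W189.TP (DS)
open Pool.Agent.TH949.TX (AA)

namespace Pool.Agent.Q18.W

variable {ι : Type*} [Countable ι] {d L : ι → ℝ}

/-- the defect in the window `[a, b]` -/
noncomputable def dfn (A : ℝ → ℝ) (κ C0 a b : ℝ) : ℝ → ℝ :=
  (Icc a b).indicator fun u => max (-(A u + (κ * Real.log u + C0))) 0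

theorem dfn_nonneg (A : ℝ → ℝ) (κ C0 a b u : ℝ) : 0 ≤ dfn A κ C0 a b u := by
  unfold dfn
  refine Set.indicator_nonneg (fun u _ => le_max_right _ _) u

theorem dfn_gro {A : ℝ → ℝ} {M : ℝ} (hA : Gro A M) (κ C0 : ℝ) {a : ℝ} (ha : 1 ≤ a) (b : ℝ) :
    Gro (dfn A κ C0 a b) (M + (|κ| + |C0|)) := by
  have hM := hA.pos
  refine ⟨?_, by positivity, fun u hu => ?_⟩
  · unfold dfn
    refine Measurable.indicator ?_ measurableSet_Icc
    exact ((hA.meas.add ((Real.measurable_log.const_mul κ).add_const C0)).neg).max measurable_const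
  · rw [abs_of_nonneg (dfn_nonneg _ _ _ _ _ _)]
    unfold dfn
    by_cases h : u ∈ Icc a b
    · rw [Set.indicator_of_mem h]
      have hu1 : 1 ≤ u := ha.trans h.1
      have h1 := hA.le u hu
      have h2 : 1 + 2 * u ≤ Real.exp (2 * u) := by
        have := Real.add_one_le_exp (2 * u)
        linarith
      have h3 : 0 ≤ Real.log u := Real.log_nonneg hu1
      have h4 : Real.log u ≤ Real.exp (2 * u) := by
        have := Real.log_le_sub_one_of_pos (show 0 < u by linarith)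
        linarith
      have h5 : |κ * Real.log u| ≤ |κ| * Real.exp (2 * u) := by
        rw [abs_mul, abs_of_nonneg h3]
        gcongr
      have h6 : |C0| ≤ |C0| * Real.exp (2 * u) := le_mul_of_one_le_right (abs_nonneg _) (by linarith)
      have h7 : -(A u + (κ * Real.log u + C0)) ≤ |A u| + (|κ * Real.log u| + |C0|) := by
        have a1 := neg_abs_le (A u)
        have a2 := neg_abs_le (κ * Real.log u)
        have a3 := neg_abs_le C0
        linarith
      refine max_le ?_ (by positivity)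
      calc -(A u + (κ * Real.log u + C0)) ≤ |A u| + (|κ * Real.log u| + |C0|) := h7
        _ ≤ M * Real.exp (2 * u) + (|κ| * Real.exp (2 * u) + |C0| * Real.exp (2 * u)) := by gcongr
        _ = _ := by ring
    · rw [Set.indicator_of_notMem h]
      positivity

theorem sum_gro {A E : ℝ → ℝ} {M M' : ℝ} (hA : Gro A M) (hE : Gro E M') : Gro (fun u => A u + E u) (M + M') := by
  refine ⟨hA.meas.add hE.meas, add_nonneg hA.pos hE.pos, fun u hu => ?_⟩
  have h1 := hA.le u hu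
  have h2 := hE.le u hu
  have h3 := abs_add_le (A u) (E u)
  linarith [add_mul M M' (Real.exp (2 * u))]

theorem dfn_low (A : ℝ → ℝ) (κ C0 : ℝ) {a b u : ℝ} (h1 : a ≤ u) (h2 : u ≤ b) :
    -(κ * Real.log u + C0) ≤ A u + dfn A κ C0 a b u := by
  unfold dfn
  rw [Set.indicator_of_mem (show u ∈ Icc a b from ⟨h1, h2⟩)]
  have := le_max_left (-(A u + (κ * Real.log u + C0))) 0
  linarith

theorem dfn_int {A : ℝ → ℝ} {M : ℝ} (hA : Gro A M) (κ C0 : ℝ) {a : ℝ} (ha : 1 ≤ a) (b : ℝ) :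
    IntegrableOn (dfn A κ C0 a b) (Ioi 0) ∧
    ∫ u in Ioi (0 : ℝ), dfn A κ C0 a b u = ∫ u in Icc a b, max (-(A u + (κ * Real.log u + C0))) 0 := by
  have hg := dfn_gro hA κ C0 ha b
  have hsub : Icc a b ⊆ Ioi (0 : ℝ) := fun u hu => lt_of_lt_of_le (by linarith) hu.1
  have e : ∫ u in Ioi (0 : ℝ), dfn A κ C0 a b u = ∫ u in Icc a b, max (-(A u + (κ * Real.log u + C0))) 0 := by
    unfold dfn
    rw [setIntegral_indicator measurableSet_Icc, Set.inter_eq_right.2 hsub]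
  refine ⟨?_, e⟩
  unfold dfn
  rw [IntegrableOn, integrable_indicator_iff measurableSet_Icc, IntegrableOn, Measure.restrict_restrict measurableSet_Icc,
    Set.inter_eq_left.2 hsub]
  have hmeas : Measurable fun u => max (-(A u + (κ * Real.log u + C0))) 0 :=
    ((hA.meas.add ((Real.measurable_log.const_mul κ).add_const C0)).neg).max measurable_const
  refine Measure.integrableOn_of_bounded (s := Icc a b) (M := (M + (|κ| + |C0|)) * Real.exp (2 * b)) ?_
    hmeas.aestronglyMeasurable ?_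
  · exact (measure_Icc_lt_top).ne
  · refine (ae_restrict_iff' measurableSet_Icc).2 (ae_of_all _ fun u hu => ?_)
    have h1 := hg.le u (by linarith [hu.1])
    unfold dfn at h1
    rw [Set.indicator_of_mem hu] at h1
    rw [Real.norm_eq_abs]
    refine h1.trans ?_
    have := hg.pos
    gcongr
    exact hu.2

theorem Sk_add {f g : ℝ → ℝ} {M M' : ℝ} (hf : Gro f M) (hg : Gro g M') {σ : ℝ} (hσ : 4 ≤ σ) (k : ℕ) :
    Sk (fun u => f u + g u) σ k = Sk f σ k + Sk g σ k := by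
  have e : aF (fun u => f u + g u) k σ = aF f k σ + aF g k σ := by
    unfold aF
    rw [← integral_add (F_int hf k hσ) (F_int hg k hσ)]
    refine setIntegral_congr_fun measurableSet_Ioi fun u _ => ?_
    ring
  unfold Sk
  rw [e]
  ring

theorem Nk_add {f g : ℝ → ℝ} {M M' : ℝ} (hf : Gro f M) (hg : Gro g M') (h0 : ∀ u, 0 ≤ g u) {σ : ℝ} (hσ : 4 ≤ σ)
    (k : ℕ) : Nk f σ k ≤ Nk (fun u => f u + g u) σ k + Sk g σ k := by
  have hfg := sum_gro hf hg
  have e : nF f k σ ≤ nF (fun u => f u + g u) k σ + aF g k σ := by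
    unfold nF aF
    rw [← integral_add (N_int hfg k hσ) (F_int hg k hσ)]
    refine setIntegral_mono_on (N_int hf k hσ) ((N_int hfg k hσ).add (F_int hg k hσ)) measurableSet_Ioi
      fun u hu => ?_
    have hu' : (0 : ℝ) < u := hu
    have h3 : 0 ≤ u ^ k * Real.exp (-(σ * u)) := by positivity
    have h4 : max (-f u) 0 ≤ max (-(f u + g u)) 0 + g u := by
      have a1 := h0 u
      have a2 := le_max_left (-(f u + g u)) 0
      have a3 := le_max_right (-(f u + g u)) 0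
      exact max_le (by linarith) (by linarith)
    calc max (-f u) 0 * (u ^ k * Real.exp (-(σ * u))) ≤
        (max (-(f u + g u)) 0 + g u) * (u ^ k * Real.exp (-(σ * u))) := by gcongr
      _ = _ := by ring
  have hk0 : (0 : ℝ) < k.factorial := by positivity
  have hs0 : 0 < σ := by linarith
  unfold Nk Sk
  calc σ ^ (k + 1) * nF f k σ / k.factorial ≤
      σ ^ (k + 1) * (nF (fun u => f u + g u) k σ + aF g k σ) / k.factorial := by gcongr
    _ = _ := by ring

/-- the sum of the weights is at most `σ` -/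
theorem Sk_sum {E : ℝ → ℝ} {M : ℝ} (hE : Gro E M) (h0 : ∀ u, 0 ≤ E u) (hi : IntegrableOn E (Ioi 0)) {σ : ℝ}
    (hσ : 4 ≤ σ) (T : Finset ℕ) : ∑ k ∈ T, Sk E σ k ≤ σ * ∫ u in Ioi (0 : ℝ), E u := by
  classical
  have hs0 : 0 < σ := by linarith
  have e : ∀ k ∈ T, Sk E σ k =
      ∫ u in Ioi (0 : ℝ), σ ^ (k + 1) / k.factorial * (E u * (u ^ k * Real.exp (-(σ * u)))) := by
    intro k _
    rw [integral_const_mul]
    unfold Sk aF
    ring
  rw [Finset.sum_congr rfl e, ← integral_finset_sum _ fun k _ => (F_int hE k hσ).const_mul _, ← integral_const_mul]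
  refine setIntegral_mono_on (integrable_finset_sum _ fun k _ => (F_int hE k hσ).const_mul _) (hi.const_mul σ)
    measurableSet_Ioi fun u hu => ?_
  have hu' : (0 : ℝ) < u := hu
  obtain ⟨n, hn⟩ : ∃ n, T ⊆ Finset.range n := by
    refine ⟨T.sup id + 1, fun k hk => ?_⟩
    rw [Finset.mem_range]
    have : k ≤ T.sup id := Finset.le_sup (f := id) hk
    omega
  have h1 : ∑ k ∈ T, (σ * u) ^ k / (k.factorial : ℝ) ≤ Real.exp (σ * u) :=
    (Finset.sum_le_sum_of_subset_of_nonneg hn fun k _ _ => by positivity).trans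
      (Real.sum_le_exp_of_nonneg (by positivity) n)
  have h2 : ∑ k ∈ T, σ ^ (k + 1) / k.factorial * (E u * (u ^ k * Real.exp (-(σ * u)))) =
      σ * E u * (Real.exp (-(σ * u)) * ∑ k ∈ T, (σ * u) ^ k / (k.factorial : ℝ)) := by
    rw [Finset.mul_sum, Finset.mul_sum]
    refine Finset.sum_congr rfl fun k _ => ?_
    rw [mul_pow, pow_succ]
    ring
  rw [h2]
  have h3 : Real.exp (-(σ * u)) * ∑ k ∈ T, (σ * u) ^ k / (k.factorial : ℝ) ≤ 1 := by
    calc Real.exp (-(σ * u)) * ∑ k ∈ T, (σ * u) ^ k / (k.factorial : ℝ) ≤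
        Real.exp (-(σ * u)) * Real.exp (σ * u) := by gcongr
      _ = 1 := by rw [← Real.exp_add]; simp
  have h4 := h0 u
  calc σ * E u * (Real.exp (-(σ * u)) * ∑ k ∈ T, (σ * u) ^ k / (k.factorial : ℝ)) ≤ σ * E u * 1 := by gcongr
    _ = _ := by ring

/-- a good index -/
theorem pick {E : ℝ → ℝ} {M : ℝ} (hE : Gro E M) (h0' : ∀ u, 0 ≤ E u) (hi : IntegrableOn E (Ioi 0)) {δ U β : ℝ}
    (h0 : 0 < δ) (h1 : δ < 1) (hU : 1 / δ ≤ U) (hβ : ∫ u in Ioi (0 : ℝ), E u ≤ β * U) :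
    ∃ V : ℝ, (1 - δ / 4) * U ≤ V ∧ V ≤ U ∧ Sk E (sg (δ / 2)) (kk (δ / 2) V) ≤ 11 / δ * β := by
  classical
  have hs := sg_ge (δ := δ / 2) (by linarith) (by linarith)
  set σ : ℝ := sg (δ / 2) with hσ
  set a0 : ℝ := σ * (1 - δ / 2 / 2) with ha0
  have ha : 82 ≤ a0 := by rw [ha0]; nlinarith
  have hU0 : 0 < U := lt_of_lt_of_le (by positivity) hU
  have hδU : 1 ≤ δ * U := by
    rw [div_le_iff₀ h0] at hU
    linarith
  set k0 : ℕ := ⌈a0 * (1 - δ / 4) * U⌉₊ with hk0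
  set k1 : ℕ := ⌊a0 * U⌋₊ with hk1
  have hx0 : 0 ≤ a0 * (1 - δ / 4) * U := by
    have : 0 ≤ 1 - δ / 4 := by linarith
    positivity
  have e1 : a0 * (1 - δ / 4) * U ≤ k0 := Nat.le_ceil _
  have e2 : (k0 : ℝ) < a0 * (1 - δ / 4) * U + 1 := Nat.ceil_lt_add_one hx0
  have e3 : (k1 : ℝ) ≤ a0 * U := Nat.floor_le (by positivity)
  have e4 : a0 * U < k1 + 1 := Nat.lt_floor_add_one _
  have hcard : a0 * (δ * U) / 8 ≤ (k1 : ℝ) - k0 := by nlinarith
  have hpos : 0 < (k1 : ℝ) - k0 := lt_of_lt_of_le (by positivity) hcard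
  have hlt : k0 < k1 := by
    have : (k0 : ℝ) < k1 := by linarith
    exact_mod_cast this
  set T : Finset ℕ := Finset.Ico k0 k1 with hT
  have hTc : (T.card : ℝ) = (k1 : ℝ) - k0 := by
    rw [hT, Nat.card_Ico, Nat.cast_sub hlt.le]
  have hTne : T.Nonempty := by rw [hT]; exact Finset.nonempty_Ico.2 hlt
  have hsum := Sk_sum hE h0' hi (show 4 ≤ σ by linarith) T
  obtain ⟨k, hkT, hk⟩ : ∃ k ∈ T, Sk E σ k ≤ 11 / δ * β := by
    by_contra hcon
    push Not at hcon
    have h5 : (T.card : ℝ) * (11 / δ * β) < ∑ k ∈ T, Sk E σ k := by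
      have := Finset.sum_lt_sum_of_nonempty hTne hcon
      rwa [Finset.sum_const, nsmul_eq_mul] at this
    have hI : 0 ≤ ∫ u in Ioi (0 : ℝ), E u := integral_nonneg fun u => h0' u
    have hβ0 : 0 ≤ β := by
      have : 0 ≤ β * U := hI.trans hβ
      by_contra hneg
      push Not at hneg
      nlinarith
    have h6 : (T.card : ℝ) * (11 / δ * β) ≥ σ * (β * U) := by
      rw [hTc]
      have h7 : σ * (δ * U) * (3 / 4) / 8 ≤ (k1 : ℝ) - k0 := by
        refine le_trans ?_ hcard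
        have : σ * (3 / 4) ≤ a0 := by
          rw [ha0]
          nlinarith
        have h8 : σ * (3 / 4) * (δ * U) / 8 ≤ a0 * (δ * U) / 8 := by gcongr
        linarith
      have h8 : 0 ≤ 11 / δ * β := by positivity
      calc σ * (β * U) ≤ σ * (δ * U) * (3 / 4) / 8 * (11 / δ * β) := by
            have e : σ * (δ * U) * (3 / 4) / 8 * (11 / δ * β) = 33 / 32 * (σ * (β * U)) := by
              field_simp
              ring
            rw [e]
            have : 0 ≤ σ * (β * U) := by positivity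
            linarith
        _ ≤ _ := by gcongr
    have h7 : σ * ∫ u in Ioi (0 : ℝ), E u ≤ σ * (β * U) := by gcongr
    linarith
  rw [hT, Finset.mem_Ico] at hkT
  refine ⟨((k : ℝ) + 1 / 2) / a0, ?_, ?_, ?_⟩
  · rw [le_div_iff₀ (by linarith)]
    have : (k0 : ℝ) ≤ k := by exact_mod_cast hkT.1
    calc (1 - δ / 4) * U * a0 = a0 * (1 - δ / 4) * U := by ring
      _ ≤ _ := by linarith
  · rw [div_le_iff₀ (by linarith)]
    have : (k : ℝ) + 1 ≤ k1 := by exact_mod_cast hkT.2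
    calc (k : ℝ) + 1 / 2 ≤ a0 * U := by linarith
      _ = _ := by ring
  · have hkk : kk (δ / 2) (((k : ℝ) + 1 / 2) / a0) = k := by
      unfold kk
      rw [← hσ, ← ha0, mul_div_cancel₀ _ (show a0 ≠ 0 by linarith)]
      rw [Nat.floor_eq_iff (by positivity)]
      constructor <;> linarith
    rw [hkk]
    exact hk

/-- `zero_core` in terms of the negative parts -/
theorem zero_coreN {F : ℂ → ℂ} {c : ℝ} (hS : Ser d L F {s : ℂ | c < s.re}) (hc : 0 ≤ c)
    {ρ : ℂ} (hρ : c < ρ.re) (hord : meromorphicOrderAt F ρ ≠ 0) {σ C : ℝ} (hσ : 110 ≤ σ)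
    (hN : ∃ᶠ n : ℕ in atTop, Nk (AA d L) σ n ≤ C * (σ / (σ - c)) ^ (n + 1) ∧
      Nk (AA d L) σ (n + 1) ≤ C * (σ / (σ - c)) ^ (n + 1 + 1)) :
    ∃ b : ℝ, c < b ∧ meromorphicOrderAt F (b : ℂ) < 0 ∧
      ∀ ρ' : ℂ, c < ρ'.re → meromorphicOrderAt F ρ' ≠ 0 → ρ'.re ≤ b := by
  classical
  have h2 := hS.abs 2 (by norm_num)
  have hre1 : ∀ ρ : ℂ, meromorphicOrderAt F ρ ≠ 0 → ρ.re ≤ 1 := fun ρ hρ => by
    by_contra hlt
    push Not at hlt
    exact hρ (order_zero hS.hL hS.abs hS.exp hlt).2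
  have hc1 : c < 1 := lt_of_lt_of_le hρ (hre1 ρ hord)
  -- the supremum of the real parts
  set Sing : Set ℝ := {x : ℝ | ∃ ρ : ℂ, meromorphicOrderAt F ρ ≠ 0 ∧ c < ρ.re ∧ ρ.re = x} with hSing
  have hSne : Sing.Nonempty := ⟨ρ.re, ρ, hord, hρ, rfl⟩
  have hSb : BddAbove Sing := ⟨1, by rintro x ⟨ρ', a, b, rfl⟩; exact hre1 ρ' a⟩
  set Θ : ℝ := sSup Sing with hΘ
  have hρΘ : ρ.re ≤ Θ := le_csSup hSb ⟨ρ, hord, hρ, rfl⟩
  have hcΘ : c < Θ := lt_of_lt_of_le hρ hρΘ
  have hΘ1 : Θ ≤ 1 := csSup_le hSne (by rintro x ⟨ρ', a, b, rfl⟩; exact hre1 ρ' a)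
  have hleΘ : ∀ ρ' : ℂ, meromorphicOrderAt F ρ' ≠ 0 → c < ρ'.re → ρ'.re ≤ Θ := fun ρ' a b =>
    le_csSup hSb ⟨ρ', a, b, rfl⟩
  set R0 : ℝ := σ - (c + Θ) / 2 with hR0
  have hσ1 : 1 < (σ : ℂ).re := by simpa using (by linarith : (1 : ℝ) < σ)
  obtain ⟨Z, M', hM', z1, z2, z3⟩ := ext_disc hS.hL hS.abs hS.exp hS.conn hS.mer hσ1
    (show 0 < R0 by rw [hR0]; linarith)
    (ball_sub (s1 := (σ : ℂ)) (by rw [hR0]; simp only [Complex.ofReal_re]; linarith))
  have hgap : ∀ ρ' ∈ Z.erase (Θ : ℂ), σ - Θ < ‖(σ : ℂ) - ρ'‖ := by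
    intro ρ' hρ'
    obtain ⟨a1, a2⟩ := Finset.mem_erase.1 hρ'
    obtain ⟨b1, b2⟩ := z1 ρ' a2
    have b3 : c < ρ'.re := ball_sub (c := c) (s1 := (σ : ℂ)) (R := R0)
      (by rw [hR0]; simp only [Complex.ofReal_re]; linarith) b1
    have b4 := hleΘ ρ' b2 b3
    have b5 : ((σ : ℂ) - ρ').re = σ - ρ'.re := by simp
    have b6 := Complex.re_le_norm ((σ : ℂ) - ρ')
    rw [b5] at b6
    refine lt_of_le_of_ne (by linarith) fun heq => a1 ?_
    have b7 : ρ'.re = Θ := by linarith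
    have b8 : ‖(σ : ℂ) - ρ'‖ ^ 2 = (σ - ρ'.re) ^ 2 + ρ'.im ^ 2 := by
      rw [← Complex.normSq_eq_norm_sq, Complex.normSq_apply]
      simp
      ring
    rw [← heq, b7] at b8
    have b9 : ρ'.im = 0 := by
      have : ρ'.im ^ 2 = 0 := by linarith
      exact pow_eq_zero_iff (two_ne_zero) |>.1 this
    exact Complex.ext (by simpa using b7) (by simpa using b9)
  obtain ⟨R, r1, r2, r3⟩ := exists_radius (Z.erase (Θ : ℂ)) (fun ρ' => ‖(σ : ℂ) - ρ'‖)
    (show σ - Θ < R0 by rw [hR0]; linarith) hgap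
  have hun : ∀ ρ' : ℂ, ρ' ∈ Metric.closedBall (σ : ℂ) R → meromorphicOrderAt F ρ' ≠ 0 → ρ' = Θ := by
    intro ρ' a b
    by_contra hne
    have h5 : ρ' ∈ Metric.closedBall (σ : ℂ) R0 := Metric.closedBall_subset_closedBall r2.le a
    have h6 := r3 ρ' (Finset.mem_erase.2 ⟨hne, z2 ρ' h5 b⟩)
    rw [Metric.mem_closedBall, dist_comm, Complex.dist_eq] at a
    linarith
  have hR2 : R < σ - c := by rw [hR0] at r2; linarith
  refine ⟨Θ, hcΘ, ?_, fun ρ' a b => hleΘ ρ' b a⟩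
  by_contra hnn
  push Not at hnn
  by_cases hcase : meromorphicOrderAt F (Θ : ℂ) = 0
  · obtain ⟨x, ⟨ρ0, g1, g2, rfl⟩, g4⟩ := exists_lt_of_lt_csSup hSne (show σ - R < sSup Sing by
      rw [← hΘ]; linarith)
    refine case_complex hS hc (by linarith) (show 0 < R by linarith) hR2 (fun ρ' a => ?_) g1 g2 g4 hN
    by_contra hne
    have := hun ρ' a hne
    rw [this] at hne
    exact hne hcase
  · exact case_real hS hc (by linarith) hcΘ (by linarith) hnn hcase r1 hR2 hun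
      (hN.mono fun n hn => hn.1)

end Pool.Agent.Q18.W
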