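import Mathlib
import Pool.Agent.Q18.W.Mean

/-! Bounds in the mean in one sequence of windows: zeros, poles, the order and the leading coefficient. -/

set_option autoImplicit false

open Complex MeasureTheory Set Filter Topology
open Pool.Agent.W189.TP (DS)
open Pool.Agent.TH949.TX (AA)

namespace Pool.Agent.Q18.W

variable {ι : Type*} [Countable ι] {d L : ι → ℝ}

/-- the integral over the window of the defect is at most `β U`, for arbitrarily large `U` -/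
def Mw (δ : ℝ) (A : ℝ → ℝ) (κ C0 β : ℝ) : Prop :=
  ∃ᶠ U : ℝ in atTop, ∫ u in Icc ((1 - δ) * U) U, max (-(A u + (κ * Real.log u + C0))) 0 ≤ β * U

/-- the negative parts -/
theorem mean_N {A : ℝ → ℝ} {M : ℝ} (hA : Gro A M) {δ κ C0 β : ℝ} (h0 : 0 < δ) (h1 : δ < 1) (h : Mw δ A κ C0 β)
    {c : ℝ} (hc : 0 < c) (hc1 : c < 1) : ∃ C : ℝ, ∃ᶠ n : ℕ in atTop,
      Nk A (sg δ) n ≤ C * (sg δ / (sg δ - c)) ^ (n + 1) ∧
      Nk A (sg δ) (n + 1) ≤ C * (sg δ / (sg δ - c)) ^ (n + 1 + 1) := by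
  have hs := sg_ge h0 h1
  set σ : ℝ := sg δ with hσ
  have hσ0 : 0 < σ := by linarith
  obtain ⟨u0, hu0⟩ := eventually_atTop.1 (log_le_exp κ C0 hc)
  have hd : 0 < 1 - δ := by linarith
  set M2 : ℝ := M + (M + (|κ| + |C0|)) with hM2
  refine ⟨(1 + 2 * Real.exp 1 * M2) + σ * (|β| * (2 / c)), (kk_tendsto h0 h1).frequently ?_⟩
  have hev : ∀ᶠ U : ℝ in atTop, max u0 1 ≤ (1 - δ) * U :=
    (tendsto_id.const_mul_atTop hd).eventually_ge_atTop _
  refine (h.and_eventually (hev.and (eventually_ge_atTop 1))).mono ?_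
  rintro U ⟨hU, hU2, hU1⟩
  have hU0 : 0 < U := by linarith
  have ha1 : 1 ≤ (1 - δ) * U := (le_max_right _ _).trans hU2
  have ha2 : u0 ≤ (1 - δ) * U := (le_max_left _ _).trans hU2
  set E : ℝ → ℝ := dfn A κ C0 ((1 - δ) * U) U with hE
  have hEg := dfn_gro hA κ C0 ha1 U
  obtain ⟨hEi, hEe⟩ := dfn_int hA κ C0 ha1 U
  have hfg := sum_gro hA hEg
  have hz : 1 ≤ σ / (σ - c) := by
    rw [le_div_iff₀ (by linarith)]
    linarith
  have key : ∀ k : ℕ, (k = kk δ U ∨ k = kk δ U + 1) →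
      Nk A σ k ≤ ((1 + 2 * Real.exp 1 * M2) + σ * (|β| * (2 / c))) * (σ / (σ - c)) ^ (k + 1) := by
    intro k hk
    have e1 := Nk_add hA hEg (dfn_nonneg _ _ _ _ _) (show 4 ≤ σ by linarith) k
    have e2 := Nk_win hfg h0 h1 hU0.le zero_le_one hc.le (show c < sg δ by linarith) (c := c) (W := 1)
      (fun u a b => by
        have g1 := dfn_low A κ C0 a b
        have g2 := hu0 u (ha2.trans a)
        rw [one_mul]
        linarith) hk
    have e3 := Sk_sum hEg (dfn_nonneg _ _ _ _ _) hEi (show 4 ≤ σ by linarith) {k}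
    rw [Finset.sum_singleton, hEe] at e3
    obtain ⟨k1, -⟩ := kk_spec h0 h1 hU0.le hk
    have e4 : Real.exp (c * U / 2) ≤ (σ / (σ - c)) ^ (k + 1) := by
      have q1 : Real.exp (c / σ) ≤ σ / (σ - c) := by
        have q2 := Real.add_one_le_exp (-(c / σ))
        have q3 : -(c / σ) + 1 = (σ - c) / σ := by field_simp; ring
        rw [q3] at q2
        have q4 : 0 < (σ - c) / σ := div_pos (by linarith) hσ0
        have q5 := inv_anti₀ q4 q2
        rw [Real.exp_neg, inv_inv, inv_div] at q5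
        exact q5
      refine le_trans ?_ (pow_le_pow_left₀ (Real.exp_pos _).le q1 (k + 1))
      rw [← Real.exp_nat_mul]
      refine Real.exp_le_exp.2 ?_
      push_cast
      have q6 : σ * (1 - δ / 2) * U * (c / σ) ≤ ((k : ℝ) + 1) * (c / σ) := by gcongr
      have q7 : σ * (1 - δ / 2) * U * (c / σ) = (1 - δ / 2) * (c * U) := by field_simp
      rw [q7] at q6
      have q8 : 0 < c * U := by positivity
      nlinarith
    have e5 : U ≤ 2 / c * Real.exp (c * U / 2) := by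
      have q1 := Real.add_one_le_exp (c * U / 2)
      have q2 : c * U / 2 ≤ Real.exp (c * U / 2) := by linarith
      calc U = 2 / c * (c * U / 2) := by field_simp
        _ ≤ _ := by gcongr
    have e6 : σ * (β * U) ≤ σ * (|β| * (2 / c)) * (σ / (σ - c)) ^ (k + 1) := by
      calc σ * (β * U) ≤ σ * (|β| * (2 / c * Real.exp (c * U / 2))) := by
            have q1 : β * U ≤ |β| * (2 / c * Real.exp (c * U / 2)) := by
              calc β * U ≤ |β| * U := by gcongr; exact le_abs_self β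
                _ ≤ _ := by gcongr
            gcongr
        _ ≤ σ * (|β| * (2 / c * (σ / (σ - c)) ^ (k + 1))) := by gcongr
        _ = _ := by ring
    have e7 : σ * ∫ u in Icc ((1 - δ) * U) U, max (-(A u + (κ * Real.log u + C0))) 0 ≤ σ * (β * U) := by gcongr
    rw [add_mul]
    refine e1.trans (add_le_add e2 ?_)
    linarith
  exact ⟨key _ (Or.inl rfl), key _ (Or.inr rfl)⟩

/-- the supremum of the real parts is a real pole -/
theorem sup_poleM {F : ℂ → ℂ} (hL : ∀ i, 0 ≤ L i)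
    (habs : ∀ t : ℝ, 1 < t → Summable fun i => |d i| * Real.exp (-(t * L i)))
    (hE : ∀ s : ℂ, 1 < s.re → F s = cexp (DS d L s))
    (hF : MeromorphicOn F {s : ℂ | 0 < s.re}) {δ κ C0 β : ℝ} (h0 : 0 < δ) (h1 : δ < 1)
    (hw : Mw δ (AA d L) κ C0 β) {ρ : ℂ} (hρ : 0 < ρ.re) (hord : meromorphicOrderAt F ρ ≠ 0) :
    ∃ b : ℝ, 0 < b ∧ meromorphicOrderAt F (b : ℂ) < 0 ∧
      ∀ ρ' : ℂ, meromorphicOrderAt F ρ' ≠ 0 → ρ'.re ≤ b := by
  have hre1 : ρ.re ≤ 1 := by
    by_contra hlt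
    push Not at hlt
    exact hord (order_zero hL habs hE hlt).2
  set c : ℝ := ρ.re / 2 with hc
  have hc0 : 0 < c := by rw [hc]; linarith
  have hS : Ser d L F {s : ℂ | c < s.re} :=
    ⟨hL, habs, hE, half_conn c, fun z hz => hF z (show 0 < z.re from lt_trans hc0 hz)⟩
  obtain ⟨C, hN⟩ := mean_N (AA_gro hL (habs 2 (by norm_num))) h0 h1 hw hc0 (show c < 1 by linarith)
  obtain ⟨b, hb1, hb2, hb3⟩ := zero_coreN hS hc0.le (show c < ρ.re by rw [hc]; linarith) hord (sg_ge h0 h1) hN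
  refine ⟨b, by linarith, hb2, fun ρ' hρ' => ?_⟩
  by_cases hcr : c < ρ'.re
  · exact hb3 ρ' hcr hρ'
  · push Not at hcr
    linarith

theorem no_singM {F : ℂ → ℂ} (hL : ∀ i, 0 ≤ L i)
    (habs : ∀ t : ℝ, 1 < t → Summable fun i => |d i| * Real.exp (-(t * L i)))
    (hE : ∀ s : ℂ, 1 < s.re → F s = cexp (DS d L s))
    (hF : MeromorphicOn F {s : ℂ | 0 < s.re})
    (hreal : ∀ x : ℝ, 0 < x → 0 ≤ meromorphicOrderAt F (x : ℂ)) {δ κ C0 β : ℝ} (h0 : 0 < δ) (h1 : δ < 1)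
    (hw : Mw δ (AA d L) κ C0 β) {ρ : ℂ} (hρ : 0 < ρ.re) : meromorphicOrderAt F ρ = 0 := by
  by_contra hord
  obtain ⟨b, hb1, hb2, hb3⟩ := sup_poleM hL habs hE hF h0 h1 hw hρ hord
  exact absurd (hreal b hb1) (not_le.2 hb2)

theorem no_sing_twoM {F : ℂ → ℂ} (hL : ∀ i, 0 ≤ L i)
    (habs : ∀ t : ℝ, 1 < t → Summable fun i => |d i| * Real.exp (-(t * L i)))
    (hE : ∀ s : ℂ, 1 < s.re → F s = cexp (DS d L s))
    (hF : MeromorphicOn F {s : ℂ | 0 < s.re}) {δ κ C0 β δ' κ' C0' β' : ℝ} (h0 : 0 < δ) (h1 : δ < 1) (h0' : 0 < δ')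
    (h1' : δ' < 1) (hw : Mw δ (AA d L) κ C0 β) (hw' : Mw δ' (fun u => -AA d L u) κ' C0' β')
    {ρ : ℂ} (hρ : 0 < ρ.re) : meromorphicOrderAt F ρ = 0 := by
  by_contra hord
  obtain ⟨habs', hE', hAA⟩ := inv_data hL habs hE
  have hinv : ∀ s : ℂ, meromorphicOrderAt F⁻¹ s = -meromorphicOrderAt F s := fun s => meromorphicOrderAt_inv
  have hord' : meromorphicOrderAt F⁻¹ ρ ≠ 0 := by
    rw [hinv]
    simpa using hord
  obtain ⟨b, hb1, hb2, hb3⟩ := sup_poleM hL habs hE hF h0 h1 hw hρ hord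
  have hAA' : AA (fun i => -d i) L = fun u => -AA d L u := funext hAA
  obtain ⟨b', hb1', hb2', hb3'⟩ := sup_poleM hL habs' hE' (fun z hz => (hF z hz).inv) h0' h1'
    (by rw [hAA']; exact hw') hρ hord'
  have hneg : ∀ s : ℂ, meromorphicOrderAt F⁻¹ s ≠ 0 ↔ meromorphicOrderAt F s ≠ 0 := fun s => by
    rw [hinv]; simp
  have e1 : b ≤ b' := by
    have := hb3' (b : ℂ) ((hneg _).2 hb2.ne)
    simpa using this
  have e2 : b' ≤ b := by
    have := hb3 (b' : ℂ) ((hneg _).1 hb2'.ne)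
    simpa using this
  have e3 : b = b' := le_antisymm e1 e2
  rw [hinv, ← e3] at hb2'
  rcases eq_or_ne (meromorphicOrderAt F (b : ℂ)) ⊤ with h | h
  · rw [h] at hb2
    exact absurd hb2 not_top_lt
  · obtain ⟨n, hn⟩ := WithTop.ne_top_iff_exists.1 h
    rw [← hn] at hb2 hb2'
    have a1 : n < 0 := by exact_mod_cast hb2
    have a2 : ((-n : ℤ) : WithTop ℤ) < 0 := hb2'
    have a3 : -n < 0 := by exact_mod_cast a2
    omega

/-- the sub-window -/
theorem sub_window {δ U V : ℝ} (h0 : 0 < δ) (h1 : δ < 1) (hU : 0 < U) (hV : (1 - δ / 4) * U ≤ V) :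
    (1 - δ) * U ≤ (1 - δ / 2) * V := by
  have h2 : (1 - δ / 2) * ((1 - δ / 4) * U) ≤ (1 - δ / 2) * V := by
    have : 0 ≤ 1 - δ / 2 := by linarith
    gcongr
  have h3 : (1 - δ) * U ≤ (1 - δ / 2) * ((1 - δ / 4) * U) := by nlinarith [mul_pos h0 hU]
  linarith

/-- a good index: the function `A + E` is bounded from below in the window and `S_k(E)` is small -/
theorem good {A : ℝ → ℝ} {M : ℝ} (hA : Gro A M) {δ κ C0 β : ℝ} (h0 : 0 < δ) (h1 : δ < 1) (h : Mw δ A κ C0 β)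
    {p : ℝ → Prop} (hp : ∀ᶠ V : ℝ in atTop, p V) : ∃ (V : ℝ) (f : ℝ → ℝ), 1 ≤ V ∧ p V ∧
      Gro f (M + (M + (|κ| + |C0|))) ∧
      (∀ u : ℝ, (1 - δ / 2) * V ≤ u → u ≤ V → -(κ * Real.log u + C0) ≤ f u) ∧
      Sk f (sg (δ / 2)) (kk (δ / 2) V) ≤ Sk A (sg (δ / 2)) (kk (δ / 2) V) + 11 / δ * β := by
  have hd : 0 < 1 - δ := by linarith
  obtain ⟨V0, hV0⟩ := eventually_atTop.1 hp
  have hev : ∀ᶠ U : ℝ in atTop, max V0 1 ≤ (1 - δ) * U :=
    (tendsto_id.const_mul_atTop hd).eventually_ge_atTop _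
  obtain ⟨U, hU, hU2, hU3⟩ := (h.and_eventually (hev.and (eventually_ge_atTop (1 / δ)))).exists
  have hU0 : 0 < U := lt_of_lt_of_le (by positivity) hU3
  have ha1 : 1 ≤ (1 - δ) * U := (le_max_right _ _).trans hU2
  have hEg := dfn_gro hA κ C0 ha1 U
  obtain ⟨hEi, hEe⟩ := dfn_int hA κ C0 ha1 U
  obtain ⟨V, v1, v2, v3⟩ := pick hEg (dfn_nonneg _ _ _ _ _) hEi h0 h1 hU3 (hEe.le.trans hU)
  have hVU : (1 - δ) * U ≤ V := by nlinarith
  refine ⟨V, fun u => A u + dfn A κ C0 ((1 - δ) * U) U u, ha1.trans hVU,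
    hV0 V ((le_max_left _ _).trans (hU2.trans hVU)), sum_gro hA hEg, fun u a b => ?_, ?_⟩
  · exact dfn_low A κ C0 ((sub_window h0 h1 hU0 v1).trans a) (b.trans v2)
  · rw [Sk_add hA hEg (by have := sg_ge (δ := δ / 2) (by linarith) (by linarith); linarith)]
    linarith

/-- **the order at `0`** -/
theorem rankM {F : ℂ → ℂ} {V : Set ℂ} (hS : Ser d L F V) {δ : ℝ} (h0 : 0 < δ) (h1 : δ < 1) {R : ℝ}
    (hR : sg (δ / 2) < R) (hsub : Metric.closedBall (sg (δ / 2) : ℂ) R ⊆ V)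
    (hun : ∀ ρ : ℂ, ρ ∈ Metric.closedBall (sg (δ / 2) : ℂ) R → ρ ≠ 0 → meromorphicOrderAt F ρ = 0) {κ C0 β : ℝ}
    (hw : Mw δ (AA d L) κ C0 β) : ((meromorphicOrderAt F 0).untop₀ : ℝ) ≤ κ := by
  have h2 := hS.abs 2 (by norm_num)
  have h0' : 0 < δ / 2 := by linarith
  have h1' : δ / 2 < 1 := by linarith
  have hs := sg_ge h0' h1'
  obtain ⟨K, hK⟩ := Sk_harm hS (show 4 ≤ sg (δ / 2) by linarith) hR hsub hun
  have hf0 := AA_gro (d := d) hS.hL h2
  set M0 : ℝ := ∑' i, |d i| * Real.exp (-(2 * L i)) with hM0'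
  set m : ℤ := (meromorphicOrderAt F 0).untop₀ with hm
  set c1 : ℝ := |κ| * |Real.log (1 - δ / 2)| + |C0| with hc1
  set c2 : ℝ := 1 + |Real.log (sg (δ / 2) * (1 - δ / 2 / 2))| + |Real.log (sg (δ / 2) * (1 - δ / 2 / 2) + 2)| with hc2
  by_contra hlt
  push Not at hlt
  set M : ℝ := M0 + (M0 + (|κ| + |C0|)) with hMd
  set C7 : ℝ := K + c1 + 2 * Real.exp 1 * M + 2 * (|κ| + c1) + |(m : ℝ)| * c2 + 11 / δ * β with hC7
  have hev : ∀ᶠ U : ℝ in atTop, C7 < ((m : ℝ) - κ) * Real.log U :=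
    (Real.tendsto_log_atTop.const_mul_atTop (show 0 < (m : ℝ) - κ by linarith)).eventually_gt_atTop C7
  obtain ⟨U, f, hU1, hU7, hf, hU, hSf⟩ := good hf0 h0 h1 hw hev
  have hM0 := hf.pos
  have hU0 : 0 < U := by linarith
  have hlU : 0 ≤ Real.log U := Real.log_nonneg hU1
  set W : ℝ := κ * Real.log U + c1 with hW
  have hw : ∀ u : ℝ, (1 - δ / 2) * U ≤ u → u ≤ U → -W ≤ f u := by
    intro u a b
    refine le_trans ?_ (hU u a b)
    have hd : 0 < 1 - δ / 2 := by linarith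
    have hu0 : 0 < u := lt_of_lt_of_le (by positivity) a
    have g1 : Real.log u ≤ Real.log U := Real.log_le_log hu0 b
    have g2 : Real.log (1 - δ / 2) + Real.log U ≤ Real.log u := by
      rw [← Real.log_mul hd.ne' hU0.ne']
      exact Real.log_le_log (by positivity) a
    have g3 : |κ * (Real.log u - Real.log U)| ≤ |κ| * |Real.log (1 - δ / 2)| := by
      rw [abs_mul]
      refine mul_le_mul_of_nonneg_left ?_ (abs_nonneg _)
      rw [abs_of_nonpos (by linarith : Real.log u - Real.log U ≤ 0),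
        abs_of_nonpos (Real.log_nonpos hd.le (by linarith))]
      linarith
    have g4 := (abs_le.1 g3).2
    have g5 := le_abs_self C0
    rw [hW, hc1]
    linarith [mul_sub κ (Real.log u) (Real.log U)]
  have h3 := Sk_low hf h0' h1' hU0.le hw
  have h4 := (abs_le.1 (hK (kk (δ / 2) U))).2
  have h5 := harm_log h0' h1' hU1
  rw [← hc2] at h5
  have h6 : |(m : ℝ) * ((harmonic (kk (δ / 2) U) : ℝ) - Real.log U)| ≤ |(m : ℝ)| * c2 := by
    rw [abs_mul]; gcongr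
  have h7 := (abs_le.1 h6).1
  have hc10 : 0 ≤ c1 := by positivity
  have hlogU : Real.log U ≤ U := by
    have := Real.log_le_sub_one_of_pos hU0
    linarith
  have h8 : |W| ≤ (|κ| + c1) * U := by
    calc |W| ≤ |κ * Real.log U| + |c1| := abs_add_le _ _
      _ = |κ| * Real.log U + c1 := by rw [abs_mul, abs_of_nonneg hlU, abs_of_nonneg hc10]
      _ ≤ |κ| * U + c1 * U := by
          have : c1 ≤ c1 * U := le_mul_of_one_le_right hc10 hU1
          gcongr
      _ = _ := by ring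
  have h9 : Real.exp (1 - U) * U ≤ 1 := by
    have g1 : U ≤ Real.exp (U - 1) := by
      have := Real.add_one_le_exp (U - 1)
      linarith
    calc Real.exp (1 - U) * U ≤ Real.exp (1 - U) * Real.exp (U - 1) := by gcongr
      _ = 1 := by rw [← Real.exp_add]; simp
  have h10 : 2 * Real.exp (1 - U) * (M + |W|) ≤ 2 * Real.exp 1 * M + 2 * (|κ| + c1) := by
    have g1 : Real.exp (1 - U) ≤ Real.exp 1 := Real.exp_le_exp.2 (by linarith)
    have g2 : 2 * Real.exp (1 - U) * M ≤ 2 * Real.exp 1 * M := by gcongr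
    have g3 : 2 * Real.exp (1 - U) * |W| ≤ 2 * (|κ| + c1) := by
      calc 2 * Real.exp (1 - U) * |W| ≤ 2 * Real.exp (1 - U) * ((|κ| + c1) * U) := by gcongr
        _ = 2 * (|κ| + c1) * (Real.exp (1 - U) * U) := by ring
        _ ≤ 2 * (|κ| + c1) * 1 := by gcongr
        _ = _ := by ring
    linarith [mul_add (2 * Real.exp (1 - U)) M |W|]
  have h11 : ((m : ℝ) - κ) * Real.log U ≤ C7 := by
    rw [hC7]
    have e : (m : ℝ) * ((harmonic (kk (δ / 2) U) : ℝ) - Real.log U) =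
      (m : ℝ) * (harmonic (kk (δ / 2) U) : ℝ) - (m : ℝ) * Real.log U := by ring
    rw [e] at h7
    have e2 : ((m : ℝ) - κ) * Real.log U = (m : ℝ) * Real.log U - κ * Real.log U := by ring
    rw [e2]
    linarith
  linarith

/-- **the order at `0` from above** -/
theorem rank_upM {F : ℂ → ℂ} (hL : ∀ i, 0 ≤ L i)
    (habs : ∀ t : ℝ, 1 < t → Summable fun i => |d i| * Real.exp (-(t * L i)))
    (hE : ∀ s : ℂ, 1 < s.re → F s = cexp (DS d L s))
    (hF : MeromorphicOn F {s : ℂ | 0 < s.re}) (hF0 : MeromorphicAt F 0)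
    (hz : ∀ ρ : ℂ, 0 < ρ.re → meromorphicOrderAt F ρ = 0) {δ κ C0 β : ℝ} (h0 : 0 < δ) (h1 : δ < 1)
    (hw : Mw δ (AA d L) κ C0 β) : ((meromorphicOrderAt F 0).untop₀ : ℝ) ≤ κ := by
  obtain ⟨η, hη, hS, hun⟩ := nbhd hL habs hE hF hF0
  have hs := sg_ge (δ := δ / 2) (by linarith) (by linarith)
  obtain ⟨R, hR, hsub⟩ := disc_sub (η := η) (σ := sg (δ / 2)) hη (by linarith)
  refine rankM hS h0 h1 hR hsub (fun ρ hρ hne => ?_) hw
  rcases hsub hρ with h | h
  · exact hz ρ h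
  · exact hun ρ h hne

/-- **the order at `0` from below** -/
theorem rank_lowM {F : ℂ → ℂ} (hL : ∀ i, 0 ≤ L i)
    (habs : ∀ t : ℝ, 1 < t → Summable fun i => |d i| * Real.exp (-(t * L i)))
    (hE : ∀ s : ℂ, 1 < s.re → F s = cexp (DS d L s))
    (hF : MeromorphicOn F {s : ℂ | 0 < s.re}) (hF0 : MeromorphicAt F 0)
    (hz : ∀ ρ : ℂ, 0 < ρ.re → meromorphicOrderAt F ρ = 0) {δ κ C0 β : ℝ} (h0 : 0 < δ) (h1 : δ < 1)
    (hw : Mw δ (fun u => -AA d L u) (-κ) C0 β) : κ ≤ ((meromorphicOrderAt F 0).untop₀ : ℝ) := by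
  obtain ⟨habs', hE', hAA⟩ := inv_data hL habs hE
  have hinv : ∀ s : ℂ, meromorphicOrderAt F⁻¹ s = -meromorphicOrderAt F s := fun s => meromorphicOrderAt_inv
  have hAA' : AA (fun i => -d i) L = fun u => -AA d L u := funext hAA
  have h2 := rank_upM (d := fun i => -d i) hL habs' hE' (fun z hz => (hF z hz).inv) hF0.inv
    (fun ρ hρ => by rw [hinv, hz ρ hρ]; simp) h0 h1 (by rw [hAA']; exact hw)
  rw [hinv] at h2
  have h3 : ((-meromorphicOrderAt F 0).untop₀ : ℤ) = -(meromorphicOrderAt F 0).untop₀ := by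
    rcases hh : meromorphicOrderAt F 0 with _ | n
    · rfl
    · rfl
  rw [h3] at h2
  push_cast at h2
  linarith

/-- the lower bound of `S_k` from a lower bound in the window, with the sharp constant -/
theorem Sk_low3 {M : ℝ} (hM0 : 0 ≤ M) {δ : ℝ} (h0 : 0 < δ) (h1 : δ < 1) (κ C0 : ℝ) {ε : ℝ}
    (hε : 0 < ε) : ∀ᶠ U : ℝ in atTop, ∀ f : ℝ → ℝ, Gro f M →
      (∀ u : ℝ, (1 - δ) * U ≤ u → u ≤ U → -(κ * Real.log u + C0) ≤ f u) →
        -(κ * Real.log (((kk δ U : ℝ) + 1) / sg δ)) - C0 - ε ≤ Sk f (sg δ) (kk δ U) := by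
  have hs := sg_ge h0 h1
  have hs0 : 0 < sg δ := by linarith
  set c2 : ℝ := 2 / (1 - δ) with hc2
  have hd : 0 < 1 - δ := by linarith
  have hc20 : 0 < c2 := by positivity
  set B : ℝ := M + (3 * |κ| + |C0| + |κ| * c2 + (2 * |κ| + 4 * |κ| * c2) + 4 * |κ| * c2) with hB
  have hB0 : 0 ≤ B := by positivity
  -- the errors
  have t1 : Tendsto (fun U : ℝ => 2 * (B * (U * Real.exp (1 - U)))) atTop (𝓝 0) := by
    have h5 := Real.tendsto_pow_mul_exp_neg_atTop_nhds_zero 1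
    have h6 := (h5.const_mul (2 * (B * Real.exp 1)))
    rw [mul_zero] at h6
    refine h6.congr fun U => ?_
    rw [show (1 : ℝ) - U = 1 + -U by ring, Real.exp_add]
    ring
  have t2 : Tendsto (fun U : ℝ => |κ| * c2 / ((kk δ U : ℝ) + 1)) atTop (𝓝 0) := by
    have h5 : Tendsto (fun U : ℝ => ((kk δ U : ℝ) + 1)) atTop atTop :=
      (tendsto_natCast_atTop_atTop.comp (kk_tendsto h0 h1)).atTop_add tendsto_const_nhds
    exact h5.const_div_atTop _
  filter_upwards [t1.eventually (eventually_lt_nhds (half_pos hε)),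
    t2.eventually (eventually_lt_nhds (half_pos hε)), eventually_ge_atTop 1] with U hU1 hU2 hU f hf hwin
  have hU0 : 0 < U := by linarith
  obtain ⟨k1, k2⟩ := kk_spec h0 h1 hU0.le (Or.inl rfl : kk δ U = kk δ U ∨ _)
  set k : ℕ := kk δ U with hk
  set a : ℝ := ((k : ℝ) + 1) / sg δ with ha
  have ha1 : (1 - δ / 2) * U ≤ a := by
    rw [ha, le_div_iff₀ hs0]
    calc (1 - δ / 2) * U * sg δ = sg δ * (1 - δ / 2) * U := by ring
      _ ≤ _ := k1
  have ha2 : a ≤ 2 * U := by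
    rw [ha, div_le_iff₀ hs0]
    refine k2.trans ?_
    have : 0 ≤ sg δ * (δ / 2) * U := by positivity
    nlinarith
  have ha3 : 1 / 2 ≤ a := by nlinarith
  have ha0 : 0 < a := by linarith
  set w2 : ℝ := |κ| * c2 / a ^ 2 with hw2
  set w1 : ℝ := κ / a - 2 * (|κ| * c2) / a with hw1
  set w0 : ℝ := κ * Real.log a - κ + C0 + |κ| * c2 with hw0
  have hW : ∀ u : ℝ, w0 + w1 * u + w2 * u ^ 2 =
      κ * Real.log a + κ * (u / a - 1) + C0 + |κ| * c2 * (u / a - 1) ^ 2 := by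
    intro u
    rw [hw0, hw1, hw2]
    field_simp
    ring
  have hg := Gro_quad hf w0 w1 w2
  have hw : ∀ u : ℝ, (1 - δ) * U ≤ u → u ≤ U →
      -(f u + (w0 + w1 * u + w2 * u ^ 2)) ≤ 0 * Real.exp (0 * u) := by
    intro u b1 b2
    have b3 := hwin u b1 b2
    have hu0 : 0 < u := lt_of_lt_of_le (by positivity) b1
    have ht0 : 0 < u / a := by positivity
    obtain ⟨q1, q2⟩ := log_quad ht0
    have q3 : (u / a - 1) ^ 2 / (u / a) ≤ c2 * (u / a - 1) ^ 2 := by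
      rw [div_le_iff₀ ht0]
      have q4 : 1 ≤ c2 * (u / a) := by
        rw [hc2, div_mul_div_comm, le_div_iff₀ (by positivity), one_mul]
        nlinarith
      calc (u / a - 1) ^ 2 ≤ (u / a - 1) ^ 2 * (c2 * (u / a)) := le_mul_of_one_le_right (sq_nonneg _) q4
        _ = _ := by ring
    have q5 : κ * (u / a - 1 - Real.log (u / a)) ≤ |κ| * (c2 * (u / a - 1) ^ 2) := by
      calc κ * (u / a - 1 - Real.log (u / a)) ≤ |κ| * (u / a - 1 - Real.log (u / a)) := by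
            gcongr; exact le_abs_self κ
        _ ≤ |κ| * (c2 * (u / a - 1) ^ 2) := by
            gcongr
            exact q2.trans q3
    have q5' : -(|κ| * (c2 * (u / a - 1) ^ 2)) ≤ κ * (u / a - 1 - Real.log (u / a)) := by
      have r1 : -(|κ| * (u / a - 1 - Real.log (u / a))) ≤ κ * (u / a - 1 - Real.log (u / a)) := by
        rw [← neg_mul]
        gcongr
        exact neg_abs_le κ
      have r2 : |κ| * (u / a - 1 - Real.log (u / a)) ≤ |κ| * (c2 * (u / a - 1) ^ 2) := by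
        gcongr
        exact q2.trans q3
      linarith
    rw [Real.log_div hu0.ne' ha0.ne'] at q5'
    rw [zero_mul, hW u]
    linarith
  have h3 := N_win hg h0 h1 hU0.le le_rfl (show (0 : ℝ) < sg δ by linarith) hw (k := k) (Or.inl rfl)
  have h4 := Sk_zero_le (fun u => f u + (w0 + w1 * u + w2 * u ^ 2)) hg (show 4 ≤ sg δ by linarith) k
  rw [aF_quad hf w0 w1 w2 k (show 4 ≤ sg δ by linarith)] at h4
  have hk0 : (0 : ℝ) < k.factorial := by positivity
  have h5 : Nk (fun u => f u + (w0 + w1 * u + w2 * u ^ 2)) (sg δ) k ≤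
      2 * Real.exp (1 - U) * (M + (|w0| + |w1| + |w2|)) := by
    unfold Nk
    rw [div_le_iff₀ hk0]
    calc sg δ ^ (k + 1) * nF (fun u => f u + (w0 + w1 * u + w2 * u ^ 2)) k (sg δ) ≤
        sg δ ^ (k + 1) * (k.factorial * (0 / (sg δ - 0) ^ (k + 1) +
          (M + (|w0| + |w1| + |w2|)) * (2 * Real.exp (1 - U) / sg δ ^ (k + 1)))) := by gcongr
      _ = _ := by
          have : sg δ ^ (k + 1) ≠ 0 := by positivity
          field_simp
          ring
  have h6 : w0 + w1 * ((k + 1) / sg δ) + w2 * (((k + 1) * (k + 2)) / sg δ ^ 2) =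
      κ * Real.log a + C0 + |κ| * c2 / ((k : ℝ) + 1) := by
    have e1 : (((k : ℝ) + 1) * (k + 2)) / sg δ ^ 2 = a ^ 2 + a ^ 2 / (k + 1) := by
      rw [ha]
      have : (k : ℝ) + 1 ≠ 0 := by positivity
      field_simp
      ring
    rw [e1, ← ha, hw0, hw1, hw2]
    have : (k : ℝ) + 1 ≠ 0 := by positivity
    field_simp
    ring
  rw [h6] at h4
  have h7 : M + (|w0| + |w1| + |w2|) ≤ B * U := by
    have l1 : |Real.log a| ≤ 2 * U := by
      rw [abs_le]
      constructor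
      · have := Real.log_le_sub_one_of_pos (inv_pos.2 ha0)
        rw [Real.log_inv] at this
        have h8 : a⁻¹ ≤ 2 := by
          rw [inv_le_comm₀ ha0 (by norm_num)]
          linarith
        nlinarith
      · have := Real.log_le_sub_one_of_pos ha0
        linarith
    have l2 : |w0| ≤ |κ| * (2 * U) + |κ| + |C0| + |κ| * c2 := by
      rw [hw0]
      have r1 : |κ * Real.log a| ≤ |κ| * (2 * U) := by rw [abs_mul]; gcongr
      have r2 := abs_add_le (κ * Real.log a - κ + C0) (|κ| * c2)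
      have r3 := abs_add_le (κ * Real.log a - κ) C0
      have r4 := abs_sub (κ * Real.log a) κ
      have r5 : |(|κ| * c2)| = |κ| * c2 := abs_of_nonneg (by positivity)
      linarith
    have hinv : 1 / a ≤ 2 := by
      rw [div_le_iff₀ ha0]
      linarith
    have l3 : |w1| ≤ 2 * |κ| + 4 * |κ| * c2 := by
      have e1 : w1 = (κ - 2 * (|κ| * c2)) * (1 / a) := by rw [hw1]; ring
      rw [e1, abs_mul, abs_of_pos (show 0 < 1 / a by positivity)]
      have r1 := abs_sub κ (2 * (|κ| * c2))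
      have r2 : |2 * (|κ| * c2)| = 2 * (|κ| * c2) := abs_of_nonneg (by positivity)
      calc |κ - 2 * (|κ| * c2)| * (1 / a) ≤ (|κ| + 2 * (|κ| * c2)) * 2 := by
            gcongr
            linarith
        _ = _ := by ring
    have l4 : |w2| ≤ 4 * |κ| * c2 := by
      rw [abs_of_nonneg (by positivity)]
      have e1 : w2 = |κ| * c2 * (1 / a) ^ 2 := by rw [hw2]; ring
      rw [e1]
      calc |κ| * c2 * (1 / a) ^ 2 ≤ |κ| * c2 * 2 ^ 2 := by gcongr
        _ = _ := by ring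
    have r0 : M ≤ M * U := le_mul_of_one_le_right hM0 hU
    have r1 : |κ| ≤ |κ| * U := le_mul_of_one_le_right (abs_nonneg _) hU
    have r2 : |C0| ≤ |C0| * U := le_mul_of_one_le_right (abs_nonneg _) hU
    have r3 : |κ| * c2 ≤ |κ| * c2 * U := le_mul_of_one_le_right (by positivity) hU
    rw [hB]
    nlinarith
  have h8 : 2 * Real.exp (1 - U) * (M + (|w0| + |w1| + |w2|)) ≤ 2 * (B * (U * Real.exp (1 - U))) := by
    calc 2 * Real.exp (1 - U) * (M + (|w0| + |w1| + |w2|)) ≤ 2 * Real.exp (1 - U) * (B * U) := by gcongr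
      _ = _ := by ring
  linarith

/-- **a lower bound for the leading coefficient** -/
theorem lead_lowM {F : ℂ → ℂ} (hL : ∀ i, 0 ≤ L i)
    (habs : ∀ t : ℝ, 1 < t → Summable fun i => |d i| * Real.exp (-(t * L i)))
    (hE : ∀ s : ℂ, 1 < s.re → F s = cexp (DS d L s))
    (hF : MeromorphicOn F {s : ℂ | 0 < s.re}) (hF0 : MeromorphicAt F 0)
    (hz : ∀ ρ : ℂ, 0 < ρ.re → meromorphicOrderAt F ρ = 0) {c : ℂ}
    (hc : Tendsto (fun s : ℂ => F s / s ^ (meromorphicOrderAt F 0).untop₀) (𝓝[≠] 0) (𝓝 c))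
    {δ C0 : ℝ} (h0 : 0 < δ) (h1 : δ < 1)
    (hw : ∀ β : ℝ, 0 < β → Mw δ (AA d L) ((meromorphicOrderAt F 0).untop₀ : ℝ) C0 β) :
    Real.exp (((meromorphicOrderAt F 0).untop₀ : ℝ) * Real.eulerMascheroniConstant - C0) ≤ ‖c‖ := by
  have h2 := habs 2 (by norm_num)
  have h0' : 0 < δ / 2 := by linarith
  have h1' : δ / 2 < 1 := by linarith
  obtain ⟨η, hη, hS, hun⟩ := nbhd hL habs hE hF hF0
  have hs := sg_ge h0' h1'
  have hs0 : 0 < sg (δ / 2) := by linarith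
  obtain ⟨R, hR, hsub⟩ := disc_sub (η := η) (σ := sg (δ / 2)) hη (by linarith)
  obtain ⟨hcp, ht⟩ := Sk_lead hS (show 4 ≤ sg (δ / 2) by linarith) hR hsub (fun ρ hρ hne => by
    rcases hsub hρ with h | h
    · exact hz ρ h
    · exact hun ρ h hne) hc
  set m : ℤ := (meromorphicOrderAt F 0).untop₀ with hm
  rw [← Real.le_log_iff_exp_le hcp]
  refine le_of_forall_pos_le_add fun ε hε => ?_
  have hε3 : 0 < ε / 4 := by positivity
  have hf0 := AA_gro (d := d) hL h2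
  set M0 : ℝ := ∑' i, |d i| * Real.exp (-(2 * L i)) with hM0'
  have hM0 := hf0.pos
  set M : ℝ := M0 + (M0 + (|(m : ℝ)| + |C0|)) with hMd
  have e1 := Sk_low3 (show 0 ≤ M by positivity) h0' h1' (m : ℝ) C0 hε3
  have e2 : ∀ᶠ n : ℕ in atTop, Sk (AA d L) (sg (δ / 2)) n + (m : ℝ) * ((harmonic n : ℝ) - Real.log (sg (δ / 2))) <
      Real.log ‖c‖ + ε / 4 := ht.eventually (eventually_lt_nhds (by linarith))
  have e3 : ∀ᶠ n : ℕ in atTop, (m : ℝ) * Real.eulerMascheroniConstant - ε / 4 <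
      (m : ℝ) * ((harmonic n : ℝ) - Real.log ((n : ℝ) + 1)) := by
    have := (Real.tendsto_harmonic_sub_log_add_one.const_mul (m : ℝ))
    exact this.eventually (eventually_gt_nhds (by linarith))
  have hk := kk_tendsto h0' h1'
  have hβ : 0 < ε / 4 * (δ / 11) := by positivity
  obtain ⟨U, f, hU1, ⟨hU2, hU3, hU4⟩, hf, hU, hSf⟩ := good hf0 h0 h1 (hw _ hβ)
    (e1.and ((hk.eventually e2).and (hk.eventually e3)))
  have hU5 := hU2 f hf hU
  have hl : Real.log (((kk (δ / 2) U : ℝ) + 1) / sg (δ / 2)) =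
      Real.log ((kk (δ / 2) U : ℝ) + 1) - Real.log (sg (δ / 2)) := Real.log_div (by positivity) hs0.ne'
  rw [hl] at hU5
  have hβ' : 11 / δ * (ε / 4 * (δ / 11)) = ε / 4 := by field_simp
  rw [hβ'] at hSf
  linarith [mul_sub (m : ℝ) (harmonic (kk (δ / 2) U) : ℝ) (Real.log (sg (δ / 2))),
    mul_sub (m : ℝ) (harmonic (kk (δ / 2) U) : ℝ) (Real.log ((kk (δ / 2) U : ℝ) + 1)),
    mul_sub (m : ℝ) (Real.log ((kk (δ / 2) U : ℝ) + 1)) (Real.log (sg (δ / 2)))]

/-- **an upper bound for the leading coefficient** -/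
theorem lead_upM {F : ℂ → ℂ} (hL : ∀ i, 0 ≤ L i)
    (habs : ∀ t : ℝ, 1 < t → Summable fun i => |d i| * Real.exp (-(t * L i)))
    (hE : ∀ s : ℂ, 1 < s.re → F s = cexp (DS d L s))
    (hF : MeromorphicOn F {s : ℂ | 0 < s.re}) (hF0 : MeromorphicAt F 0)
    (hz : ∀ ρ : ℂ, 0 < ρ.re → meromorphicOrderAt F ρ = 0) {c : ℂ} (hc0 : c ≠ 0)
    (hc : Tendsto (fun s : ℂ => F s / s ^ (meromorphicOrderAt F 0).untop₀) (𝓝[≠] 0) (𝓝 c))
    {δ C0 : ℝ} (h0 : 0 < δ) (h1 : δ < 1)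
    (hw : ∀ β : ℝ, 0 < β → Mw δ (fun u => -AA d L u) (-((meromorphicOrderAt F 0).untop₀ : ℝ)) C0 β) :
    ‖c‖ ≤ Real.exp (((meromorphicOrderAt F 0).untop₀ : ℝ) * Real.eulerMascheroniConstant + C0) := by
  obtain ⟨habs', hE', hAA⟩ := inv_data hL habs hE
  have hinv : ∀ s : ℂ, meromorphicOrderAt F⁻¹ s = -meromorphicOrderAt F s := fun s => meromorphicOrderAt_inv
  have hAA' : AA (fun i => -d i) L = fun u => -AA d L u := funext hAA
  have hm : (meromorphicOrderAt F⁻¹ 0).untop₀ = -(meromorphicOrderAt F 0).untop₀ := by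
    rw [hinv, untop_neg]
  have hc' : Tendsto (fun s : ℂ => F⁻¹ s / s ^ (meromorphicOrderAt F⁻¹ 0).untop₀) (𝓝[≠] 0) (𝓝 c⁻¹) := by
    refine (hc.inv₀ hc0).congr fun s => ?_
    rw [hm, Pi.inv_apply, zpow_neg, inv_div, div_eq_mul_inv, div_eq_mul_inv, inv_inv, mul_comm]
  have h2 := lead_lowM (d := fun i => -d i) hL habs' hE' (fun z hz => (hF z hz).inv) hF0.inv
    (fun ρ hρ => by rw [hinv, hz ρ hρ]; simp) hc' h0 h1 (C0 := C0) (fun β hβ => by
      rw [hAA', hm]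
      push_cast
      exact hw β hβ)
  rw [hm, norm_inv] at h2
  have hcp : 0 < ‖c‖ := norm_pos_iff.2 hc0
  rw [le_inv_comm₀ (Real.exp_pos _) hcp, ← Real.exp_neg] at h2
  refine h2.trans_eq ?_
  congr 1
  push_cast
  ring

end Pool.Agent.Q18.W
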