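import Mathlib
import Pool.Agent.Q18.W.Mean2

/-! Bounds in logarithmic mean in one sequence of windows `[Y^(1-δ), Y]`. -/

set_option autoImplicit false

open Complex MeasureTheory Set Filter Topology
open Pool.Agent.W189.TP (DS)
open Pool.Agent.TH949.TX (AA)
open Pool.Agent.TH942.ES (Sys zv cv xv cP lamP LE)
open Pool.Agent.TH270.MS (Pl BM LI)
open Pool.Agent.Q5.MS (Pv)

namespace Pool.Agent.Q18.W

/-- change of variables -/
theorem cov {δ Y : ℝ} (h0 : 0 < δ) (hY : 1 < Y) (G : ℝ → ℝ) :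
    ∫ y in Y ^ (1 - δ)..Y, G y / y = ∫ u in Icc ((1 - δ) * Real.log Y) (Real.log Y), G (Real.exp u) := by
  have hY0 : 0 < Y := by linarith
  have hl : 0 < Real.log Y := Real.log_pos hY
  set a : ℝ := (1 - δ) * Real.log Y with ha
  set b : ℝ := Real.log Y with hb
  have hab : a ≤ b := by rw [ha]; nlinarith
  have e1 : Y ^ (1 - δ) = Real.exp a := by
    rw [Real.rpow_def_of_pos hY0, ha, mul_comm]
  have e2 : Y = Real.exp b := (Real.exp_log hY0).symm
  have himg : Real.exp '' Ioc a b = Ioc (Real.exp a) (Real.exp b) := by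
    ext x
    constructor
    · rintro ⟨t, ht, rfl⟩
      exact ⟨Real.exp_lt_exp.2 ht.1, Real.exp_le_exp.2 ht.2⟩
    · intro hx
      have h0 : 0 < x := (Real.exp_pos a).trans hx.1
      refine ⟨Real.log x, ⟨?_, ?_⟩, Real.exp_log h0⟩
      · rw [← Real.log_exp a]
        exact Real.log_lt_log (Real.exp_pos a) hx.1
      · rw [← Real.log_exp b]
        exact Real.log_le_log h0 hx.2
  rw [e1, integral_Icc_eq_integral_Ioc]
  conv_lhs => rw [e2]
  rw [intervalIntegral.integral_of_le (Real.exp_le_exp.2 hab), ← himg,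
    integral_image_eq_integral_abs_deriv_smul measurableSet_Ioc
      (fun x _ => (Real.hasDerivAt_exp x).hasDerivWithinAt) Real.exp_injective.injOn]
  refine setIntegral_congr_fun measurableSet_Ioc fun u _ => ?_
  simp only [abs_of_pos (Real.exp_pos u), smul_eq_mul]
  have := Real.exp_pos u
  field_simp

theorem bm_log {A : ℝ → ℝ} {M : ℝ} (hA : Gro A M) : BM fun y => A (Real.log y) := by
  refine ⟨(hA.meas.comp Real.measurable_log).aestronglyMeasurable, fun Y => ⟨M * Real.exp (2 * Real.log Y), ?_⟩⟩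
  intro y h1 h2
  have h3 := hA.pos
  have h4 : 0 < y := (Real.exp_pos 1).trans_le h1
  have h5 : 0 ≤ Real.log y := by
    rw [Real.le_log_iff_exp_le h4]
    exact (Real.exp_le_exp.2 zero_le_one).trans h1
  refine (hA.le _ h5).trans ?_
  gcongr

theorem BM.congr' {f g : ℝ → ℝ} (hf : BM f) (h : ∀ y : ℝ, Real.exp 1 ≤ y → f y = g y) : BM g := by
  refine BM.of_close (M := 0) hf ?_ fun y hy => by rw [h y hy, sub_self, abs_zero]
  refine hf.1.congr ?_
  filter_upwards [ae_restrict_mem measurableSet_Ioi] with y hy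
  exact h y (le_of_lt hy)

/-- the logarithmic integral over the window `[Y^(1-δ), Y]` of the positive part of `G` is at most `B log Y`, for
arbitrarily large `Y` -/
def Mx (δ : ℝ) (G : ℝ → ℝ) (B : ℝ) : Prop :=
  ∃ᶠ Y : ℝ in atTop, ∫ y in Y ^ (1 - δ)..Y, max (G y) 0 / y ≤ B * Real.log Y

theorem LI.max0 {f : ℝ → ℝ} (hf : LI f) : LI fun y => max (f y) 0 := by
  have h1 : (fun y => max (f y) 0) = fun y => (1 / 2) * (f y + |f y|) := by
    funext y
    rcases le_total 0 (f y) with h | h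
    · rw [max_eq_left h, abs_of_nonneg h]; ring
    · rw [max_eq_right h, abs_of_nonpos h]; ring
  rw [h1]
  exact fun Y hY => ((hf.add hf.abs) Y hY).const_mul _

/-- comparison of the integrals over a window -/
theorem win_mono {f g : ℝ → ℝ} (hf : LI f) (hg : LI g) (h : ∀ y : ℝ, Real.exp 1 ≤ y → f y ≤ g y) {δ : ℝ}
    (h0 : 0 < δ) (h1 : δ < 1) : ∀ᶠ Y : ℝ in atTop,
      ∫ y in Y ^ (1 - δ)..Y, f y / y ≤ ∫ y in Y ^ (1 - δ)..Y, g y / y := by
  have ht := (tendsto_rpow_atTop (show 0 < 1 - δ by linarith)).eventually_ge_atTop (Real.exp 1)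
  filter_upwards [ht, eventually_ge_atTop 1] with Y hY hY1
  have hle : Y ^ (1 - δ) ≤ Y := by
    conv_rhs => rw [← Real.rpow_one Y]
    exact Real.rpow_le_rpow_of_exponent_le hY1 (by linarith)
  have hi : ∀ {φ : ℝ → ℝ}, LI φ → IntervalIntegrable (fun y => φ y / y) volume (Y ^ (1 - δ)) Y := by
    intro φ hφ
    exact ((hφ.div _ hY).symm).trans (hφ.div Y (hY.trans hle))
  refine intervalIntegral.integral_mono_on hle (hi hf) (hi hg) fun y hy => ?_
  have hy0 : 0 < y := (Real.exp_pos 1).trans_le (hY.trans hy.1)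
  have := h y (hY.trans hy.1)
  gcongr

theorem loglog_li (κ C : ℝ) : LI fun y : ℝ => κ * Real.log (Real.log y) + C :=
  (((BM.const κ).mul BM.loglog).add (BM.const C)).li

/-- from `y` to `u = log y` -/
theorem gen_mw {A T : ℝ → ℝ} {M : ℝ} (hA : Gro A M) (hT : LI T) {K : ℝ}
    (hK : ∀ y : ℝ, Real.exp 1 ≤ y → |A (Real.log y) + T y| ≤ K) {δ κ C B : ℝ} (h0 : 0 < δ) (h1 : δ < 1)
    (h : Mx δ (fun y => T y - (κ * Real.log (Real.log y) + C)) B) : Mw δ A κ (C + K) B := by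
  have h2 : LI fun y => -(A (Real.log y) + (κ * Real.log (Real.log y) + (C + K))) :=
    (((bm_log hA).add (((BM.const κ).mul BM.loglog).add (BM.const (C + K)))).neg).li
  have h3 : LI fun y => T y - (κ * Real.log (Real.log y) + C) := by
    intro Y hY
    exact (hT Y hY).sub (loglog_li κ C Y hY)
  have h4 := win_mono (LI.max0 h2) (LI.max0 h3) (fun y hy => by
    have := (abs_le.1 (hK y hy)).1
    exact max_le_max (by linarith) le_rfl) h0 h1
  refine Real.tendsto_log_atTop.frequently ?_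
  refine (h.and_eventually (h4.and (eventually_gt_atTop 1))).mono ?_
  rintro Y ⟨a1, a2, a3⟩
  have a4 := a2.trans a1
  rw [cov h0 a3 (fun y => max (-(A (Real.log y) + (κ * Real.log (Real.log y) + (C + K)))) 0)] at a4
  simpa only [Real.log_exp] using a4

theorem neg_gro {A : ℝ → ℝ} {M : ℝ} (hA : Gro A M) : Gro (fun u => -A u) M :=
  ⟨hA.meas.neg, hA.pos, fun u hu => by rw [abs_neg]; exact hA.le u hu⟩

theorem gen_mw' {A T : ℝ → ℝ} {M : ℝ} (hA : Gro A M) (hT : LI T) {K : ℝ}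
    (hK : ∀ y : ℝ, Real.exp 1 ≤ y → |A (Real.log y) + T y| ≤ K) {δ κ C B : ℝ} (h0 : 0 < δ) (h1 : δ < 1)
    (h : Mx δ (fun y => κ * Real.log (Real.log y) + C - T y) B) : Mw δ (fun u => -A u) (-κ) (-C + K) B := by
  refine gen_mw (A := fun u => -A u) (T := fun y => -T y) (neg_gro hA) (fun Y hY => (hT Y hY).neg) (fun y hy => ?_)
    h0 h1 ?_
  · have := hK y hy
    rw [← abs_neg] at this
    refine le_of_eq_of_le ?_ this
    congr 1
    ring
  · refine h.mono fun Y hY => ?_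
    refine le_of_eq_of_le ?_ hY
    refine intervalIntegral.integral_congr fun y _ => ?_
    simp only
    congr 2
    ring

variable {ι : Type*} [Countable ι] {D Λ : ι → ℝ} {F : ℂ → ℂ}

/-- a general Dirichlet series with a meromorphic continuation to `Re s > 0` and to `0` -/
structure Gd (D Λ : ι → ℝ) (F : ℂ → ℂ) : Prop where
  hL : ∀ i, 0 ≤ Λ i
  abs : ∀ t : ℝ, 1 < t → Summable fun i => |D i| * Real.exp (-(t * Λ i))
  exp : ∀ s : ℂ, 1 < s.re → F s = cexp (DS D Λ s)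
  mer : MeromorphicOn F {s : ℂ | 0 < s.re}
  mer0 : MeromorphicAt F 0

namespace Gd

theorem gro (H : Gd D Λ F) : Gro (AA D Λ) (∑' i, |D i| * Real.exp (-(2 * Λ i))) :=
  AA_gro H.hL (H.abs 2 (by norm_num))

theorem ord_ne_top (H : Gd D Λ F) : meromorphicOrderAt F 0 ≠ ⊤ := by
  obtain ⟨η, hη, hS, -⟩ := nbhd H.hL H.abs H.exp H.mer H.mer0
  exact order_ne_top hS.conn hS.mer hS.hL hS.abs hS.exp (s1 := 2) (by norm_num)
    (Or.inl (show 0 < (2 : ℂ).re by norm_num)) (Or.inr (Metric.mem_ball_self hη))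

theorem ord_ne_top' (H : Gd D Λ F) {s : ℂ} (hs : 0 < s.re) : meromorphicOrderAt F s ≠ ⊤ := by
  obtain ⟨η, hη, hS, -⟩ := nbhd H.hL H.abs H.exp H.mer H.mer0
  exact order_ne_top hS.conn hS.mer hS.hL hS.abs hS.exp (s1 := 2) (by norm_num)
    (Or.inl (show 0 < (2 : ℂ).re by norm_num)) (Or.inl hs)

theorem ord_coe (H : Gd D Λ F) : ∃ m : ℤ, meromorphicOrderAt F 0 = m ∧ (meromorphicOrderAt F 0).untop₀ = m :=
  ⟨_, (WithTop.coe_untop₀_of_ne_top H.ord_ne_top).symm, rfl⟩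

variable {T : ℝ → ℝ} {K : ℝ}

/-- **one-sided bound in the mean** -/
theorem one (H : Gd D Λ F) (hT : LI T) (hK : ∀ y : ℝ, Real.exp 1 ≤ y → |AA D Λ (Real.log y) + T y| ≤ K)
    (hp : ∀ x : ℝ, 0 < x → 0 ≤ meromorphicOrderAt F (x : ℂ)) {δ κ C B : ℝ} (h0 : 0 < δ) (h1 : δ < 1)
    (h : Mx δ (fun y => T y - (κ * Real.log (Real.log y) + C)) B) :
    (∀ s : ℂ, 0 < s.re → meromorphicOrderAt F s = 0) ∧ ∃ m : ℤ, meromorphicOrderAt F 0 = m ∧ (m : ℝ) ≤ κ := by
  have hw := gen_mw H.gro hT hK h0 h1 h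
  have hz : ∀ s : ℂ, 0 < s.re → meromorphicOrderAt F s = 0 := fun s hs =>
    no_singM H.hL H.abs H.exp H.mer hp h0 h1 hw hs
  obtain ⟨m, hm, hm'⟩ := H.ord_coe
  have h3 := rank_upM H.hL H.abs H.exp H.mer H.mer0 hz h0 h1 hw
  rw [hm'] at h3
  exact ⟨hz, m, hm, h3⟩

/-- **two-sided bound in the mean** -/
theorem two (H : Gd D Λ F) (hT : LI T) (hK : ∀ y : ℝ, Real.exp 1 ≤ y → |AA D Λ (Real.log y) + T y| ≤ K)
    {δ κ C B δ' κ' C' B' : ℝ} (h0 : 0 < δ) (h1 : δ < 1)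
    (h : Mx δ (fun y => T y - (κ * Real.log (Real.log y) + C)) B) (h0' : 0 < δ') (h1' : δ' < 1)
    (h' : Mx δ' (fun y => κ' * Real.log (Real.log y) + C' - T y) B') :
    (∀ s : ℂ, 0 < s.re → meromorphicOrderAt F s = 0) ∧
      ∃ m : ℤ, meromorphicOrderAt F 0 = m ∧ (m : ℝ) ≤ κ ∧ κ' ≤ (m : ℝ) := by
  have hw := gen_mw H.gro hT hK h0 h1 h
  have hw' := gen_mw' H.gro hT hK h0' h1' h'
  have hz : ∀ s : ℂ, 0 < s.re → meromorphicOrderAt F s = 0 := fun s hs =>
    no_sing_twoM H.hL H.abs H.exp H.mer h0 h1 h0' h1' hw hw' hs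
  obtain ⟨m, hm, hm'⟩ := H.ord_coe
  have h3 := rank_upM H.hL H.abs H.exp H.mer H.mer0 hz h0 h1 hw
  have h4 := rank_lowM H.hL H.abs H.exp H.mer H.mer0 hz h0' h1' hw'
  rw [hm'] at h3 h4
  exact ⟨hz, m, hm, h3, h4⟩

theorem lead_ne {m : ℤ} (h0 : MeromorphicAt F 0) (hm : meromorphicOrderAt F 0 = m) {c : ℂ}
    (hc : Tendsto (fun s : ℂ => F s / s ^ m) (𝓝[≠] 0) (𝓝 c)) : c ≠ 0 := by
  obtain ⟨g, hg, hg0, he⟩ := (meromorphicOrderAt_eq_int_iff h0).1 hm
  have h1 : Tendsto g (𝓝[≠] 0) (𝓝 (g 0)) := hg.continuousAt.tendsto.mono_left nhdsWithin_le_nhds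
  have h2 : c = g 0 := by
    refine tendsto_nhds_unique hc (h1.congr' ?_)
    filter_upwards [he, self_mem_nhdsWithin] with s hs hs0
    have hs0' : s ≠ 0 := hs0
    rw [hs, sub_zero, smul_eq_mul, mul_div_cancel_left₀ _ (zpow_ne_zero _ hs0')]
  rw [h2]
  exact hg0

/-- **the leading coefficient from below** -/
theorem lead_low (H : Gd D Λ F) (hT : LI T) (hK : ∀ y : ℝ, Real.exp 1 ≤ y → AA D Λ (Real.log y) + T y = 0)
    (hz : ∀ s : ℂ, 0 < s.re → meromorphicOrderAt F s = 0) {m : ℤ} (hm : meromorphicOrderAt F 0 = m) {c : ℂ}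
    (hc : Tendsto (fun s : ℂ => F s / s ^ m) (𝓝[≠] 0) (𝓝 c)) {δ C : ℝ} (h0 : 0 < δ) (h1 : δ < 1)
    (h : ∀ β : ℝ, 0 < β → Mx δ (fun y => T y - (m * Real.log (Real.log y) + C)) β) :
    Real.exp (m * Real.eulerMascheroniConstant - C) ≤ ‖c‖ := by
  have hm' : (meromorphicOrderAt F 0).untop₀ = m := by rw [hm]; rfl
  have h3 := lead_lowM H.hL H.abs H.exp H.mer H.mer0 hz (c := c) (by rw [hm']; exact hc) h0 h1 (C0 := C + 0)
    (fun β hβ => by
      rw [hm']
      exact gen_mw H.gro hT (fun y hy => by rw [hK y hy, abs_zero]) h0 h1 (h β hβ))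
  rw [hm', add_zero] at h3
  exact h3

/-- **the leading coefficient from above** -/
theorem lead_up (H : Gd D Λ F) (hT : LI T) (hK : ∀ y : ℝ, Real.exp 1 ≤ y → AA D Λ (Real.log y) + T y = 0)
    (hz : ∀ s : ℂ, 0 < s.re → meromorphicOrderAt F s = 0) {m : ℤ} (hm : meromorphicOrderAt F 0 = m) {c : ℂ}
    (hc : Tendsto (fun s : ℂ => F s / s ^ m) (𝓝[≠] 0) (𝓝 c)) {δ C : ℝ} (h0 : 0 < δ) (h1 : δ < 1)
    (h : ∀ β : ℝ, 0 < β → Mx δ (fun y => m * Real.log (Real.log y) + C - T y) β) :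
    ‖c‖ ≤ Real.exp (m * Real.eulerMascheroniConstant - C) := by
  have hm' : (meromorphicOrderAt F 0).untop₀ = m := by rw [hm]; rfl
  have hc0 := lead_ne H.mer0 hm hc
  have h3 := lead_upM H.hL H.abs H.exp H.mer H.mer0 hz hc0 (c := c) (by rw [hm']; exact hc) h0 h1 (C0 := -C + 0)
    (fun β hβ => by
      rw [hm']
      exact gen_mw' H.gro hT (fun y hy => by rw [hK y hy, abs_zero]) h0 h1 (h β hβ))
  rw [hm', add_zero, ← sub_eq_add_neg] at h3
  exact h3

/-- **the limit in the mean along one sequence of windows** -/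
theorem lim (H : Gd D Λ F) (hT : LI T) (hK : ∀ y : ℝ, Real.exp 1 ≤ y → AA D Λ (Real.log y) + T y = 0)
    {δ ρ C : ℝ} (h0 : 0 < δ) (h1 : δ < 1)
    (h : ∀ ε : ℝ, 0 < ε → ∃ᶠ Y : ℝ in atTop,
      ∫ y in Y ^ (1 - δ)..Y, |T y - (ρ * Real.log (Real.log y) + C)| / y ≤ ε * Real.log Y) :
    (∀ s : ℂ, 0 < s.re → meromorphicOrderAt F s = 0) ∧ ∃ m : ℤ, ρ = m ∧ meromorphicOrderAt F 0 = m ∧
      ∀ c : ℂ, Tendsto (fun s : ℂ => F s / s ^ m) (𝓝[≠] 0) (𝓝 c) →
        ‖c‖ = Real.exp (m * Real.eulerMascheroniConstant - C) := by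
  have l1 : LI fun y => T y - (ρ * Real.log (Real.log y) + C) := fun Y hY => (hT Y hY).sub (loglog_li ρ C Y hY)
  have l2 : LI fun y => ρ * Real.log (Real.log y) + C - T y := fun Y hY => (loglog_li ρ C Y hY).sub (hT Y hY)
  have e1 : ∀ ε : ℝ, 0 < ε → Mx δ (fun y => T y - (ρ * Real.log (Real.log y) + C)) ε := fun ε hε =>
    ((h ε hε).and_eventually (win_mono (LI.max0 l1) l1.abs
      (fun y _ => max_le (le_abs_self _) (abs_nonneg _)) h0 h1)).mono fun Y hY => hY.2.trans hY.1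
  have e2 : ∀ ε : ℝ, 0 < ε → Mx δ (fun y => ρ * Real.log (Real.log y) + C - T y) ε := fun ε hε =>
    ((h ε hε).and_eventually (win_mono (LI.max0 l2) l1.abs
      (fun y _ => max_le (by rw [← neg_sub (T y)]; exact neg_le_abs _) (abs_nonneg _)) h0 h1)).mono
      fun Y hY => hY.2.trans hY.1
  obtain ⟨f1, m, f2, f3, f4⟩ := H.two hT (fun y hy => by rw [hK y hy, abs_zero]) h0 h1 (e1 1 one_pos) h0 h1
    (e2 1 one_pos)
  have hρ : ρ = m := le_antisymm f4 f3
  refine ⟨f1, m, hρ, f2, fun c hc => le_antisymm ?_ ?_⟩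
  · exact H.lead_up hT hK f1 f2 hc h0 h1 (fun β hβ => by rw [← hρ]; exact e2 β hβ)
  · exact H.lead_low hT hK f1 f2 hc h0 h1 (fun β hβ => by rw [← hρ]; exact e1 β hβ)

end Gd

end Pool.Agent.Q18.W
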