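import Mathlib
import Pool.Agent.Q18.W.Mean3
import Pool.Agent.Q18.W.Wrap

/-! Finite families of Euler products with integer weights. -/

set_option autoImplicit false

open Complex MeasureTheory Set Filter Topology
open Pool.Agent.W189.TP (DS)
open Pool.Agent.TH949.TX (AA)
open Pool.Agent.TH942.ES (Sys zv cv xv cP lamP LE)
open Pool.Agent.TH270.MS (Pl BM LI)
open Pool.Agent.Q5.MS (Pv)

namespace Pool.Agent.Q18.W

variable {J : Type} [Fintype J]

/-- a real function on a finite disjoint union is summable if the parts are -/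
theorem summable_sig {β : J → Type} {f : (Σ j, β j) → ℝ} (h : ∀ j, Summable fun y => f ⟨j, y⟩) : Summable f := by
  have h1 : Summable fun x => |f x| := by
    rw [summable_sigma_of_nonneg fun x => abs_nonneg _]
    exact ⟨fun j => (h j).abs, (hasSum_fintype _).summable⟩
  exact h1.of_abs

theorem tsum_sig {β : J → Type} {f : (Σ j, β j) → ℝ} (h : ∀ j, Summable fun y => f ⟨j, y⟩) :
    ∑' x, f x = ∑ j, ∑' y, f ⟨j, y⟩ := by
  rw [(summable_sig h).tsum_sigma' h, tsum_fintype]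

theorem tsum_sigC {β : J → Type} {f : (Σ j, β j) → ℂ} (h : ∀ j, Summable fun y => f ⟨j, y⟩) :
    ∑' x, f x = ∑ j, ∑' y, f ⟨j, y⟩ := by
  have hs : Summable f := by
    rw [← summable_norm_iff]
    exact summable_sig fun j => (h j).norm
  rw [hs.tsum_sigma' h, tsum_fintype]

variable {X : J → Type} {dd : J → ℕ} {N : ∀ j, X j → ℕ} {α : ∀ j, X j → Fin (dd j) → ℂ} {Ψ : J → ℂ → ℂ}

/-- the coefficients of the family -/
noncomputable def fD (N : ∀ j, X j → ℕ) (α : ∀ j, X j → Fin (dd j) → ℂ) (w : J → ℤ) (i : Σ j, X j × ℕ) : ℝ :=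
  (w i.1 : ℝ) * cP (N i.1) (α i.1) i.2

/-- the logarithms of the norms -/
noncomputable def fL (N : ∀ j, X j → ℕ) (i : Σ j, X j × ℕ) : ℝ := lamP (N i.1) i.2

/-- the product of the functions -/
noncomputable def fF (Ψ : J → ℂ → ℂ) (w : J → ℤ) (s : ℂ) : ℂ := ∏ j, Ψ j s ^ w j

theorem fF_eq (Ψ : J → ℂ → ℂ) (w : J → ℤ) : fF Ψ w = ∏ j, (Ψ j) ^ w j := by
  funext s
  unfold fF
  rw [Finset.prod_apply]
  rfl

theorem fam_cnt (H : ∀ j, Dw (N j) (α j) (Ψ j)) : Countable (Σ j, X j × ℕ) := by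
  have := fun j => (H j).cnt
  infer_instance

theorem fam_gd (H : ∀ j, Dw (N j) (α j) (Ψ j)) (w : J → ℤ) : Gd (fD N α w) (fL N) (fF Ψ w) := by
  have habs : ∀ t : ℝ, 1 < t → Summable fun i => |fD N α w i| * Real.exp (-(t * fL N i)) := by
    intro t ht
    refine summable_sig fun j => ?_
    have h1 := (sys_abs (H j).E t ht).mul_left |(w j : ℝ)|
    refine h1.congr fun p => ?_
    unfold fD fL
    rw [abs_mul]
    ring
  refine ⟨fun i => lamP_nonneg (H i.1).E i.2, habs, fun s hs => ?_, ?_, ?_⟩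
  · have h1 : ∀ j, Summable fun p : X j × ℕ => (cP (N j) (α j) p : ℂ) * cexp (-(s * lamP (N j) p)) := by
      intro j
      refine Summable.of_norm_bounded (sys_abs (H j).E s.re hs) fun p => ?_
      rw [norm_mul, Complex.norm_real, Real.norm_eq_abs, Complex.norm_exp, Complex.neg_re, Complex.re_mul_ofReal]
    have h2 : DS (fD N α w) (fL N) s = ∑ j, (w j : ℂ) * DS (cP (N j) (α j)) (lamP (N j)) s := by
      unfold Pool.Agent.W189.TP.DS
      rw [tsum_sigC (fun j => ?_)]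
      · refine Finset.sum_congr rfl fun j _ => ?_
        rw [← tsum_mul_left]
        refine tsum_congr fun p => ?_
        unfold fD fL
        push_cast
        ring
      · refine ((h1 j).mul_left (w j : ℂ)).congr fun p => ?_
        unfold fD fL
        push_cast
        ring
    rw [h2, Complex.exp_sum]
    unfold fF
    refine Finset.prod_congr rfl fun j _ => ?_
    rw [(H j).exp s hs, Complex.exp_int_mul]
  · rw [fF_eq]
    exact MeromorphicOn.prod fun j _ z hz => ((H j).mer z hz).zpow _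
  · rw [fF_eq]
    exact MeromorphicAt.prod fun j _ => ((H j).mer0).zpow _

theorem fam_AA (H : ∀ j, Dw (N j) (α j) (Ψ j)) (w : J → ℤ) (u : ℝ) :
    AA (fD N α w) (fL N) u = ∑ j, (w j : ℝ) * AA (cP (N j) (α j)) (lamP (N j)) u := by
  classical
  have hfin : ∀ j, {p : X j × ℕ | lamP (N j) p ≤ u}.Finite := by
    intro j
    refine ((H j).E.finS (Real.exp u)).subset fun p hp => ?_
    show (N j p.1 : ℝ) ^ (p.2 + 1) ≤ Real.exp u
    have h2 : Real.exp (lamP (N j) p) = (N j p.1 : ℝ) ^ (p.2 + 1) := by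
      unfold lamP
      rw [show ((p.2 : ℝ) + 1) * Real.log (N j p.1) = ((p.2 + 1 : ℕ) : ℝ) * Real.log (N j p.1) by push_cast; rfl,
        Real.exp_nat_mul, Real.exp_log ((H j).E.Npos p.1)]
    rw [← h2]
    exact Real.exp_le_exp.2 hp
  have hs : ∀ j, Summable fun p : X j × ℕ => (if lamP (N j) p ≤ u then (w j : ℝ) * cP (N j) (α j) p else 0) := by
    intro j
    refine summable_of_ne_finset_zero (s := (hfin j).toFinset) fun p hp => ?_
    rw [Set.Finite.mem_toFinset] at hp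
    have hp' : ¬ lamP (N j) p ≤ u := hp
    rw [if_neg hp']
  have h0 : AA (fD N α w) (fL N) u =
      ∑' i : (Σ j, X j × ℕ), (if fL N i ≤ u then fD N α w i else 0) := rfl
  rw [h0, tsum_sig (fun j => hs j)]
  refine Finset.sum_congr rfl fun j _ => ?_
  have h1 : AA (cP (N j) (α j)) (lamP (N j)) u =
      ∑' p : X j × ℕ, (if lamP (N j) p ≤ u then cP (N j) (α j) p else 0) := rfl
  rw [h1, ← tsum_mul_left]
  refine tsum_congr fun p => ?_
  show (if lamP (N j) p ≤ u then (w j : ℝ) * cP (N j) (α j) p else 0) = _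
  split_ifs
  · rfl
  · rw [mul_zero]

theorem fam_ord {w : J → ℤ} {m : J → ℤ} {s : ℂ} (h : ∀ j, MeromorphicAt (Ψ j) s)
    (hm : ∀ j, meromorphicOrderAt (Ψ j) s = m j) : meromorphicOrderAt (fF Ψ w) s = ((∑ j, w j * m j : ℤ) : WithTop ℤ) := by
  rw [fF_eq, meromorphicOrderAt_prod fun j _ => (h j).zpow _]
  have h1 : ∀ j ∈ (Finset.univ : Finset J), meromorphicOrderAt ((Ψ j) ^ w j) s = ((w j * m j : ℤ) : WithTop ℤ) := by
    intro j _
    rw [meromorphicOrderAt_zpow (h j), hm j]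
    rfl
  rw [Finset.sum_congr rfl h1]
  exact (map_sum (⟨⟨WithTop.some, rfl⟩, fun _ _ => rfl⟩ : ℤ →+ WithTop ℤ) _ _).symm

theorem li_sum {w : J → ℤ} {T : J → ℝ → ℝ} (hT : ∀ j, LI (T j)) : LI fun y => ∑ j, (w j : ℝ) * T j y := by
  intro Y hY
  have h1 := IntervalIntegrable.sum (Finset.univ : Finset J) (f := fun j y => (w j : ℝ) * T j y)
    (fun j _ => (hT j Y hY).const_mul (w j : ℝ))
  refine h1.congr fun y _ => ?_
  simp

theorem pl_log (H : ∀ j, Dw (N j) (α j) (Ψ j)) (j : J) {y : ℝ} (hy : Real.exp 1 ≤ y) :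
    Pl (N j) (α j) y = AA (cP (N j) (α j)) (lamP (N j)) (Real.log y) := by
  rw [← pl_AA (H j).E, Real.exp_log ((Real.exp_pos 1).trans_le hy)]

/-- the products over the primes -/
theorem fam_pv (H : ∀ j, Dw (N j) (α j) (Ψ j)) (w : J → ℤ) :
    (LI fun y => ∑ j, (w j : ℝ) * Pv (N j) (α j) y) ∧ ∃ K : ℝ, ∀ y : ℝ, Real.exp 1 ≤ y →
      |AA (fD N α w) (fL N) (Real.log y) + ∑ j, (w j : ℝ) * Pv (N j) (α j) y| ≤ K := by
  refine ⟨li_sum fun j => (Pool.Agent.Q5.MS.bm_pv (H j).E).li, ?_⟩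
  have h1 : ∀ j, ∃ K : ℝ, ∀ y : ℝ, Real.exp 1 ≤ y → |Pv (N j) (α j) y + Pl (N j) (α j) y| ≤ K := fun j =>
    Pool.Agent.Q5.MS.close (H j).E
  choose K hK using h1
  refine ⟨∑ j, |(w j : ℝ)| * K j, fun y hy => ?_⟩
  rw [fam_AA H, ← Finset.sum_add_distrib]
  refine (Finset.abs_sum_le_sum_abs _ _).trans (Finset.sum_le_sum fun j _ => ?_)
  have h2 := hK j y hy
  rw [pl_log H j hy] at h2
  rw [← mul_add, abs_mul, add_comm]
  gcongr

/-- the products over the prime powers -/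
theorem fam_pl (H : ∀ j, Dw (N j) (α j) (Ψ j)) (w : J → ℤ) :
    (LI fun y => ∑ j, (w j : ℝ) * -Pl (N j) (α j) y) ∧ ∀ y : ℝ, Real.exp 1 ≤ y →
      AA (fD N α w) (fL N) (Real.log y) + ∑ j, (w j : ℝ) * -Pl (N j) (α j) y = 0 := by
  refine ⟨li_sum fun j => ?_, fun y hy => ?_⟩
  · have := (H j).cnt
    have h1 := bm_log (AA_gro (d := cP (N j) (α j)) (lamP_nonneg (H j).E) (sys_abs (H j).E 2 (by norm_num)))
    exact (BM.neg (BM.congr' h1 fun y hy => (pl_log H j hy).symm)).li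
  · rw [fam_AA H, ← Finset.sum_add_distrib]
    refine Finset.sum_eq_zero fun j _ => ?_
    rw [pl_log H j hy]
    ring

/-! ### one Euler product -/

section single

variable {X : Type} {d : ℕ} {N : X → ℕ} {α : X → Fin d → ℂ} {Ψ : ℂ → ℂ}

theorem dw_gd (H : Dw N α Ψ) : Gd (cP N α) (lamP N) Ψ :=
  ⟨lamP_nonneg H.E, sys_abs H.E, H.exp, H.merOn, H.mer0⟩

theorem one_pv (H : Dw N α Ψ) : (LI (Pv N α)) ∧ ∃ K : ℝ, ∀ y : ℝ, Real.exp 1 ≤ y →
    |AA (cP N α) (lamP N) (Real.log y) + Pv N α y| ≤ K := by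
  refine ⟨(Pool.Agent.Q5.MS.bm_pv H.E).li, ?_⟩
  obtain ⟨K, hK⟩ := Pool.Agent.Q5.MS.close H.E
  refine ⟨K, fun y hy => ?_⟩
  rw [← pl_AA H.E, Real.exp_log ((Real.exp_pos 1).trans_le hy), add_comm]
  exact hK y hy

theorem one_pl (H : Dw N α Ψ) : (LI fun y => -Pl N α y) ∧ ∀ y : ℝ, Real.exp 1 ≤ y →
    AA (cP N α) (lamP N) (Real.log y) + -Pl N α y = 0 := by
  have := H.cnt
  have e : ∀ y : ℝ, Real.exp 1 ≤ y → Pl N α y = AA (cP N α) (lamP N) (Real.log y) := fun y hy => by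
    rw [← pl_AA H.E, Real.exp_log ((Real.exp_pos 1).trans_le hy)]
  refine ⟨?_, fun y hy => by rw [e y hy]; ring⟩
  have h1 := bm_log (AA_gro (d := cP N α) (lamP_nonneg H.E) (sys_abs H.E 2 (by norm_num)))
  exact (BM.neg (BM.congr' h1 fun y hy => (e y hy).symm)).li

end single

end Pool.Agent.Q18.W
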