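import Mathlib
import Pool.Agent.Q18.W.Mean4

/-! Bounds in logarithmic mean on one sequence of windows: the theorems with centre `c`. -/

set_option autoImplicit false

open Complex MeasureTheory Set Filter Topology
open Pool.Agent.TH949.TX (AA)
open Pool.Agent.TH942.ES (Sys zv cv xv cP lamP LE)
open Pool.Agent.TH270.MS (Pl BM LI)
open Pool.Agent.Q5.MS (Pv)

namespace Pool.Agent.Q18.W

/-- `∫_{Y^(1-δ)}^Y G(y) dy/y ≤ B log Y` for arbitrarily large `Y` -/
def Wm (δ : ℝ) (G : ℝ → ℝ) (B : ℝ) : Prop :=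
  ∃ᶠ Y : ℝ in atTop, ∫ y in Y ^ (1 - δ)..Y, G y / y ≤ B * Real.log Y

theorem Wm.congr {δ : ℝ} (h0 : 0 < δ) (h1 : δ < 1) {G G' : ℝ → ℝ} {B : ℝ} (h : Wm δ G B)
    (hG : ∀ y : ℝ, Real.exp 1 ≤ y → G y = G' y) : Wm δ G' B := by
  have ht := (tendsto_rpow_atTop (show 0 < 1 - δ by linarith)).eventually_ge_atTop (Real.exp 1)
  refine (h.and_eventually (ht.and (eventually_ge_atTop 1))).mono ?_
  rintro Y ⟨hY, hY2, hY1⟩
  refine le_of_eq_of_le ?_ hY
  have hle : Y ^ (1 - δ) ≤ Y := by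
    conv_rhs => rw [← Real.rpow_one Y]
    exact Real.rpow_le_rpow_of_exponent_le hY1 (by linarith)
  refine intervalIntegral.integral_congr fun y hy => ?_
  rw [uIcc_of_le hle] at hy
  rw [hG y (hY2.trans hy.1)]

theorem Wm.mono {δ : ℝ} (h0 : 0 < δ) (h1 : δ < 1) {G G' : ℝ → ℝ} {B : ℝ} (hG1 : LI G) (hG2 : LI G') (h : Wm δ G B)
    (hG : ∀ y : ℝ, Real.exp 1 ≤ y → G' y ≤ G y) : Wm δ G' B :=
  (h.and_eventually (win_mono hG2 hG1 hG h0 h1)).mono fun _ hY => hY.2.trans hY.1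

/-- a bounded change of the function -/
theorem Wm.add_const {δ : ℝ} (h0 : 0 < δ) (h1 : δ < 1) {G G' : ℝ → ℝ} {B K : ℝ} (hG1 : LI G) (hG2 : LI G')
    (hK : 0 ≤ K) (h : Wm δ G B) (hG : ∀ y : ℝ, Real.exp 1 ≤ y → G' y ≤ G y + K) : Wm δ G' (B + K) := by
  have l1 : LI fun y => G y + K := hG1.add (Pool.Agent.TH270.MS.LI.const K)
  have ht := (tendsto_rpow_atTop (show 0 < 1 - δ by linarith)).eventually_ge_atTop (Real.exp 1)
  refine (h.and_eventually ((win_mono hG2 l1 hG h0 h1).and (ht.and (eventually_gt_atTop 1)))).mono ?_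
  rintro Y ⟨hY, hY3, hY2, hY1⟩
  have hle : Y ^ (1 - δ) ≤ Y := by
    conv_rhs => rw [← Real.rpow_one Y]
    exact Real.rpow_le_rpow_of_exponent_le hY1.le (by linarith)
  have hi : ∀ {φ : ℝ → ℝ}, LI φ → IntervalIntegrable (fun y => φ y / y) volume (Y ^ (1 - δ)) Y := by
    intro φ hφ
    exact ((hφ.div _ hY2).symm).trans (hφ.div Y (hY2.trans hle))
  have e1 : ∫ y in Y ^ (1 - δ)..Y, (G y + K) / y = (∫ y in Y ^ (1 - δ)..Y, G y / y) +
      ∫ y in Y ^ (1 - δ)..Y, K / y := by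
    rw [← intervalIntegral.integral_add (hi hG1) (hi (Pool.Agent.TH270.MS.LI.const K))]
    refine intervalIntegral.integral_congr fun y _ => ?_
    ring
  have e2 : ∫ y in Y ^ (1 - δ)..Y, K / y = K * (δ * Real.log Y) := by
    have hY0 : 0 < Y := by linarith
    have hp : 0 < Y ^ (1 - δ) := Real.rpow_pos_of_pos hY0 _
    have e3 : (fun y : ℝ => K / y) = fun y => K * (1 / y) := by funext y; ring
    rw [e3, intervalIntegral.integral_const_mul, integral_one_div_of_pos hp hY0, Real.log_div hY0.ne' hp.ne',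
      Real.log_rpow hY0]
    ring
  have hl : 0 < Real.log Y := Real.log_pos hY1
  have e4 : K * (δ * Real.log Y) ≤ K * Real.log Y := by
    have : δ * Real.log Y ≤ 1 * Real.log Y := by gcongr
    rw [one_mul] at this
    gcongr
  linarith [add_mul B K (Real.log Y)]

section

variable {X : Type} {d : ℕ} {N : X → ℕ} {α : X → Fin d → ℂ} {c : ℝ} {F : ℂ → ℂ} {P Q : ℝ → ℝ}

/-- the product over the primes, one-sided -/
theorem mean_one (H : Dw N α (fun s => F (c + s))) (hlog : ∀ x, Real.log (P x) = Pv N α x) {δ : ℝ} (h0 : 0 < δ)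
    (h1 : δ < 1) {κ B : ℝ} (hr : ∀ x : ℝ, c < x → 0 ≤ meromorphicOrderAt F (x : ℂ))
    (h : Wm δ (fun y => max (Real.log (P y) - κ * Real.log (Real.log y)) 0) B) :
    (∀ s : ℂ, c < s.re → meromorphicOrderAt F s = 0) ∧
      ∃ m : ℤ, meromorphicOrderAt F c = m ∧ (m : ℝ) ≤ κ := by
  have := H.cnt
  obtain ⟨l1, K, hK⟩ := one_pv H
  have hw : Mx δ (fun y => Pv N α y - (κ * Real.log (Real.log y) + 0)) B := by
    simpa only [Mx, Wm, hlog, add_zero] using h
  obtain ⟨f1, m, f2, f3⟩ := (dw_gd H).one l1 hK (real_shift (b := 0) (by simpa using hr)) h0 h1 hw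
  rw [ord_shift0] at f2
  exact ⟨fun s hs => free_shift f1 s (by simpa using hs), m, f2, f3⟩

/-- the product over the primes, two-sided -/
theorem mean_two (H : Dw N α (fun s => F (c + s))) (hlog : ∀ x, Real.log (P x) = Pv N α x) {δ : ℝ} (h0 : 0 < δ)
    (h1 : δ < 1) {ρ B : ℝ} (h : Wm δ (fun y => |Real.log (P y) - ρ * Real.log (Real.log y)|) B) :
    (∀ s : ℂ, c < s.re → meromorphicOrderAt F s = 0) ∧
      ∃ m : ℤ, ρ = m ∧ meromorphicOrderAt F c = m := by
  have := H.cnt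
  obtain ⟨l1, K, hK⟩ := one_pv H
  have l2 : LI fun y => Pv N α y - (ρ * Real.log (Real.log y) + 0) := fun Y hY =>
    (l1 Y hY).sub (loglog_li ρ 0 Y hY)
  have l3 : LI fun y => ρ * Real.log (Real.log y) + 0 - Pv N α y := fun Y hY =>
    (loglog_li ρ 0 Y hY).sub (l1 Y hY)
  have h' : Wm δ (fun y => |Pv N α y - (ρ * Real.log (Real.log y) + 0)|) B := by
    simpa only [Wm, hlog, add_zero] using h
  have hw : Mx δ (fun y => Pv N α y - (ρ * Real.log (Real.log y) + 0)) B :=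
    Wm.mono h0 h1 l2.abs (LI.max0 l2) h' fun y _ => max_le (le_abs_self _) (abs_nonneg _)
  have hw' : Mx δ (fun y => ρ * Real.log (Real.log y) + 0 - Pv N α y) B :=
    Wm.mono h0 h1 l2.abs (LI.max0 l3) h' fun y _ =>
      max_le (by
        show ρ * Real.log (Real.log y) + 0 - Pv N α y ≤ _
        rw [← neg_sub (Pv N α y)]; exact neg_le_abs _) (abs_nonneg _)
  obtain ⟨f1, m, f2, f3, f4⟩ := (dw_gd H).two l1 hK h0 h1 hw h0 h1 hw'
  rw [ord_shift0] at f2
  exact ⟨fun s hs => free_shift f1 s (by simpa using hs), m, le_antisymm f4 f3, f2⟩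

theorem log_form {A Q y ρ : ℝ} (hA : 0 < A) (hQ : 0 < Q) (hy : Real.exp 1 ≤ y) :
    Real.log (A * Q / (Real.exp Real.eulerMascheroniConstant * Real.log y) ^ ρ) =
      Real.log Q - (ρ * Real.log (Real.log y) + (ρ * Real.eulerMascheroniConstant - Real.log A)) := by
  have hy0 : 0 < y := (Real.exp_pos 1).trans_le hy
  have hl : 0 < Real.log y := by
    have : 1 ≤ Real.log y := by rwa [Real.le_log_iff_exp_le hy0]
    linarith
  have hg : 0 < Real.exp Real.eulerMascheroniConstant * Real.log y := mul_pos (Real.exp_pos _) hl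
  rw [Real.log_div (mul_pos hA hQ).ne' (Real.rpow_pos_of_pos hg ρ).ne', Real.log_mul hA.ne' hQ.ne',
    Real.log_rpow hg, Real.log_mul (Real.exp_pos _).ne' hl.ne', Real.log_exp]
  ring

/-- the product over the prime powers, the limit in the mean -/
theorem mean_lim (H : Dw N α (fun s => F (c + s))) (hQ : ∀ x, 0 < Q x)
    (hlog : ∀ x, Real.log (Q x) = -Pl N α x) {δ : ℝ} (h0 : 0 < δ) (h1 : δ < 1) {ρ A : ℝ} (hA : 0 < A)
    (h : ∀ ε : ℝ, 0 < ε → Wm δ (fun y => |Real.log (A * Q y /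
      (Real.exp Real.eulerMascheroniConstant * Real.log y) ^ ρ)|) ε) :
    (∀ s : ℂ, c < s.re → meromorphicOrderAt F s = 0) ∧
      ∃ m : ℤ, ρ = m ∧ meromorphicOrderAt F c = m ∧
        ∀ a : ℂ, Tendsto (fun s : ℂ => F s / (s - c) ^ m) (𝓝[≠] (c : ℂ)) (𝓝 a) → ‖a‖ = A := by
  have := H.cnt
  obtain ⟨l1, hK⟩ := one_pl H
  obtain ⟨f1, m, f2, f3, f4⟩ := (dw_gd H).lim l1 hK (C := ρ * Real.eulerMascheroniConstant - Real.log A) h0 h1
    (fun ε hε => Wm.congr h0 h1 (h ε hε) fun y hy => by rw [log_form hA (hQ y) hy, hlog])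
  have f3' := f3
  rw [ord_shift0] at f3'
  refine ⟨fun s hs => free_shift f1 s (by simpa using hs), m, f2, f3', fun a ha => ?_⟩
  rw [f4 a (coef_shift ha), f2, sub_sub_cancel, Real.exp_log hA]

/-- **large values in the mean** in every window -/
theorem mean_omega (H : Dw N α (fun s => F (c + s))) (hQ : ∀ x, 0 < Q x)
    (hlog : ∀ x, Real.log (Q x) = -Pl N α x) {δ : ℝ} (h0 : 0 < δ) (h1 : δ < 1)
    (hr : ∀ x : ℝ, c < x → 0 ≤ meromorphicOrderAt F (x : ℂ)) {m : ℤ} (hm : meromorphicOrderAt F c = m) {a : ℂ}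
    (ha : Tendsto (fun s : ℂ => F s / (s - c) ^ m) (𝓝[≠] (c : ℂ)) (𝓝 a)) {A : ℝ} (hA : ‖a‖ < A) :
    ∃ β : ℝ, 0 < β ∧ ∀ᶠ Y : ℝ in atTop, β * Real.log Y < ∫ y in Y ^ (1 - δ)..Y,
      max (Real.log (A * Q y / (Real.exp Real.eulerMascheroniConstant * Real.log y) ^ (m : ℝ))) 0 / y := by
  have := H.cnt
  have hA0 : 0 < A := lt_of_le_of_lt (norm_nonneg _) hA
  obtain ⟨l1, hK⟩ := one_pl H
  by_contra hcon
  push Not at hcon
  have h5 : ∀ β : ℝ, 0 < β → Mx δ (fun y => -Pl N α y - ((m : ℝ) * Real.log (Real.log y) +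
      (m * Real.eulerMascheroniConstant - Real.log A))) β := by
    intro β hβ
    refine Wm.congr h0 h1 (hcon β hβ) fun y hy => ?_
    rw [log_form hA0 (hQ y) hy, hlog]
  obtain ⟨f1, m', f2, -⟩ := (dw_gd H).one l1 (fun y hy => by rw [hK y hy, abs_zero])
    (real_shift (b := 0) (by simpa using hr)) h0 h1 (h5 1 one_pos)
  have hm' : meromorphicOrderAt (fun s => F (c + s)) 0 = m := by rw [ord_shift0]; exact hm
  have h6 := (dw_gd H).lead_low l1 hK f1 hm' (coef_shift ha) h0 h1 h5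
  rw [sub_sub_cancel, Real.exp_log hA0] at h6
  linarith

end

end Pool.Agent.Q18.W
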