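import Mathlib
import Pool.Agent.Q18.W.Mean5

/-! Finite families of Euler products with integer weights: bounds in logarithmic mean on one sequence of windows. -/

set_option autoImplicit false

open Complex MeasureTheory Set Filter Topology
open Pool.Agent.TH949.TX (AA)
open Pool.Agent.TH942.ES (Sys zv cv xv cP lamP LE)
open Pool.Agent.TH270.MS (Pl BM LI)
open Pool.Agent.Q5.MS (Pv)

namespace Pool.Agent.Q18.W

variable {J : Type} [Fintype J] {X : J → Type} {dd : J → ℕ} {N : ∀ j, X j → ℕ} {α : ∀ j, X j → Fin (dd j) → ℂ}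
  {Ψ : J → ℂ → ℂ} {w : J → ℤ} {P Q : J → ℝ → ℝ}

theorem log_weighted (w : J → ℤ) {P : J → ℝ → ℝ} (hP : ∀ j x, 0 < P j x) (y : ℝ) :
    Real.log (∏ j, P j y ^ w j) = ∑ j, (w j : ℝ) * Real.log (P j y) := by
  rw [Real.log_prod fun j _ => (zpow_pos (hP j y) _).ne']
  exact Finset.sum_congr rfl fun j _ => Real.log_zpow _ _

theorem fam_orders (H : ∀ j, Dw (N j) (α j) (Ψ j)) (w : J → ℤ) : ∃ m : J → ℤ,
    (∀ j, meromorphicOrderAt (Ψ j) 0 = m j) ∧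
      meromorphicOrderAt (fF Ψ w) 0 = ((∑ j, w j * m j : ℤ) : WithTop ℤ) := by
  have h1 : ∀ j, ∃ m : ℤ, meromorphicOrderAt (Ψ j) 0 = m := fun j => by
    obtain ⟨m, hm, -⟩ := (H j).ord_coe
    exact ⟨m, hm⟩
  choose m hm using h1
  exact ⟨m, hm, fam_ord (fun j => (H j).mer0) hm⟩

/-- one-sided -/
theorem fam_one (H : ∀ j, Dw (N j) (α j) (Ψ j)) (w : J → ℤ) (hP : ∀ j x, 0 < P j x)
    (hlog : ∀ j x, Real.log (P j x) = Pv (N j) (α j) x) {δ : ℝ} (h0 : 0 < δ) (h1 : δ < 1)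
    (hr : ∀ x : ℝ, 0 < x → 0 ≤ meromorphicOrderAt (fF Ψ w) (x : ℂ)) {κ B : ℝ}
    (h : Wm δ (fun y => max (Real.log (∏ j, P j y ^ w j) - κ * Real.log (Real.log y)) 0) B) :
    (∀ s : ℂ, 0 < s.re → meromorphicOrderAt (fF Ψ w) s = 0) ∧
      ∃ m : J → ℤ, (∀ j, meromorphicOrderAt (Ψ j) 0 = m j) ∧ ((∑ j, w j * m j : ℤ) : ℝ) ≤ κ := by
  have := fam_cnt H
  obtain ⟨l1, K, hK⟩ := fam_pv H w
  have hw : Mx δ (fun y => ∑ j, (w j : ℝ) * Pv (N j) (α j) y - (κ * Real.log (Real.log y) + 0)) B := by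
    simpa only [Mx, Wm, log_weighted w hP, hlog, add_zero] using h
  obtain ⟨f1, m0, f2, f3⟩ := (fam_gd H w).one l1 hK hr h0 h1 hw
  obtain ⟨m, g1, g2⟩ := fam_orders H w
  refine ⟨f1, m, g1, ?_⟩
  rw [g2] at f2
  have : (∑ j, w j * m j : ℤ) = m0 := by exact_mod_cast f2
  rw [this]
  exact f3

/-- two-sided -/
theorem fam_two (H : ∀ j, Dw (N j) (α j) (Ψ j)) (w : J → ℤ) (hP : ∀ j x, 0 < P j x)
    (hlog : ∀ j x, Real.log (P j x) = Pv (N j) (α j) x) {δ : ℝ} (h0 : 0 < δ) (h1 : δ < 1) {ρ B : ℝ}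
    (h : Wm δ (fun y => |Real.log (∏ j, P j y ^ w j) - ρ * Real.log (Real.log y)|) B) :
    (∀ s : ℂ, 0 < s.re → meromorphicOrderAt (fF Ψ w) s = 0) ∧
      ∃ m : J → ℤ, (∀ j, meromorphicOrderAt (Ψ j) 0 = m j) ∧ ρ = ((∑ j, w j * m j : ℤ) : ℝ) := by
  have := fam_cnt H
  obtain ⟨l1, K, hK⟩ := fam_pv H w
  set T : ℝ → ℝ := fun y => ∑ j, (w j : ℝ) * Pv (N j) (α j) y with hT
  have l2 : LI fun y => T y - (ρ * Real.log (Real.log y) + 0) := fun Y hY =>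
    (l1 Y hY).sub (loglog_li ρ 0 Y hY)
  have l3 : LI fun y => ρ * Real.log (Real.log y) + 0 - T y := fun Y hY =>
    (loglog_li ρ 0 Y hY).sub (l1 Y hY)
  have h' : Wm δ (fun y => |T y - (ρ * Real.log (Real.log y) + 0)|) B := by
    simpa only [Wm, log_weighted w hP, hlog, add_zero] using h
  have hw : Mx δ (fun y => T y - (ρ * Real.log (Real.log y) + 0)) B :=
    Wm.mono h0 h1 l2.abs (LI.max0 l2) h' fun y _ => max_le (le_abs_self _) (abs_nonneg _)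
  have hw' : Mx δ (fun y => ρ * Real.log (Real.log y) + 0 - T y) B :=
    Wm.mono h0 h1 l2.abs (LI.max0 l3) h' fun y _ =>
      max_le (by
        show ρ * Real.log (Real.log y) + 0 - T y ≤ _
        rw [← neg_sub (T y)]; exact neg_le_abs _) (abs_nonneg _)
  obtain ⟨f1, m0, f2, f3, f4⟩ := (fam_gd H w).two l1 hK h0 h1 hw h0 h1 hw'
  obtain ⟨m, g1, g2⟩ := fam_orders H w
  refine ⟨f1, m, g1, ?_⟩
  rw [g2] at f2
  have : (∑ j, w j * m j : ℤ) = m0 := by exact_mod_cast f2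
  rw [this]
  exact le_antisymm f4 f3

theorem fam_lead (H : ∀ j, Dw (N j) (α j) (Ψ j)) (w : J → ℤ) {m : J → ℤ}
    (hm : ∀ j, meromorphicOrderAt (Ψ j) 0 = m j) {c : J → ℂ}
    (hc : ∀ j, Tendsto (fun s : ℂ => Ψ j s / s ^ m j) (𝓝[≠] 0) (𝓝 (c j))) :
    Tendsto (fun s : ℂ => fF Ψ w s / s ^ (∑ j, w j * m j)) (𝓝[≠] 0) (𝓝 (∏ j, c j ^ w j)) := by
  classical
  have h1 : Tendsto (fun s : ℂ => ∏ j, (Ψ j s / s ^ m j) ^ w j) (𝓝[≠] 0) (𝓝 (∏ j, c j ^ w j)) :=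
    tendsto_finsetProd _ fun j _ => (hc j).zpow₀ (w j) (Or.inl (Gd.lead_ne (H j).mer0 (hm j) (hc j)))
  refine h1.congr' ?_
  filter_upwards [self_mem_nhdsWithin] with s hs
  have hs' : s ≠ 0 := hs
  unfold fF
  have h2 : s ^ (∑ j, w j * m j) = ∏ j, (s ^ m j) ^ w j := by
    rw [← Finset.prod_congr rfl fun j _ => (zpow_mul s (m j) (w j))]
    rw [← Finset.prod_congr rfl fun j _ => by rw [mul_comm (m j) (w j)]]
    induction (Finset.univ : Finset J) using Finset.induction_on with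
    | empty => simp
    | insert j T hj ih => rw [Finset.sum_insert hj, Finset.prod_insert hj, zpow_add₀ hs', ih]
  rw [h2, ← Finset.prod_div_distrib]
  exact Finset.prod_congr rfl fun j _ => div_zpow _ _ _

theorem prod_norm (w : J → ℤ) (c : J → ℂ) : ‖∏ j, c j ^ w j‖ = ∏ j, ‖c j‖ ^ w j := by
  rw [norm_prod]
  exact Finset.prod_congr rfl fun j _ => norm_zpow _ _

/-- the limit in the mean -/
theorem fam_lim (H : ∀ j, Dw (N j) (α j) (Ψ j)) (w : J → ℤ) (hQ : ∀ j x, 0 < Q j x)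
    (hlog : ∀ j x, Real.log (Q j x) = -Pl (N j) (α j) x) {δ : ℝ} (h0 : 0 < δ) (h1 : δ < 1) {ρ A : ℝ} (hA : 0 < A)
    (h : ∀ ε : ℝ, 0 < ε → Wm δ (fun y => |Real.log (A * (∏ j, Q j y ^ w j) /
      (Real.exp Real.eulerMascheroniConstant * Real.log y) ^ ρ)|) ε) :
    (∀ s : ℂ, 0 < s.re → meromorphicOrderAt (fF Ψ w) s = 0) ∧
      ∃ m : J → ℤ, (∀ j, meromorphicOrderAt (Ψ j) 0 = m j) ∧ ρ = ((∑ j, w j * m j : ℤ) : ℝ) ∧
        ∀ c : J → ℂ, (∀ j, Tendsto (fun s : ℂ => Ψ j s / s ^ m j) (𝓝[≠] 0) (𝓝 (c j))) →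
          ∏ j, ‖c j‖ ^ w j = A := by
  have := fam_cnt H
  obtain ⟨l1, hK⟩ := fam_pl H w
  have hpos : ∀ y, 0 < ∏ j, Q j y ^ w j := fun y => Finset.prod_pos fun j _ => zpow_pos (hQ j y) _
  obtain ⟨f1, m0, f2, f3, f4⟩ := (fam_gd H w).lim l1 hK (ρ := ρ) (C := ρ * Real.eulerMascheroniConstant - Real.log A) h0 h1
    (fun ε hε => Wm.congr h0 h1 (h ε hε) fun y hy => by
      rw [log_form hA (hpos y) hy, log_weighted w hQ]
      simp only [hlog])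
  obtain ⟨m, g1, g2⟩ := fam_orders H w
  have hmm : (∑ j, w j * m j : ℤ) = m0 := by
    rw [g2] at f3
    exact_mod_cast f3
  refine ⟨f1, m, g1, by rw [hmm]; exact f2, fun c hc => ?_⟩
  have h5 := f4 (∏ j, c j ^ w j) (by rw [← hmm]; exact fam_lead H w g1 hc)
  rw [prod_norm, f2, sub_sub_cancel, Real.exp_log hA] at h5
  exact h5

/-- large values in the mean in every window -/
theorem fam_omega (H : ∀ j, Dw (N j) (α j) (Ψ j)) (w : J → ℤ) (hQ : ∀ j x, 0 < Q j x)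
    (hlog : ∀ j x, Real.log (Q j x) = -Pl (N j) (α j) x) {δ : ℝ} (h0 : 0 < δ) (h1 : δ < 1)
    (hr : ∀ x : ℝ, 0 < x → 0 ≤ meromorphicOrderAt (fF Ψ w) (x : ℂ)) {m : J → ℤ}
    (hm : ∀ j, meromorphicOrderAt (Ψ j) 0 = m j) {c : J → ℂ}
    (hc : ∀ j, Tendsto (fun s : ℂ => Ψ j s / s ^ m j) (𝓝[≠] 0) (𝓝 (c j))) {A : ℝ}
    (hA : ∏ j, ‖c j‖ ^ w j < A) :
    ∃ β : ℝ, 0 < β ∧ ∀ᶠ Y : ℝ in atTop, β * Real.log Y < ∫ y in Y ^ (1 - δ)..Y,
      max (Real.log (A * (∏ j, Q j y ^ w j) / (Real.exp Real.eulerMascheroniConstant * Real.log y) ^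
        ((∑ j, w j * m j : ℤ) : ℝ))) 0 / y := by
  have := fam_cnt H
  have hpos : ∀ y, 0 < ∏ j, Q j y ^ w j := fun y => Finset.prod_pos fun j _ => zpow_pos (hQ j y) _
  rw [← prod_norm] at hA
  have hA0 : 0 < A := lt_of_le_of_lt (norm_nonneg _) hA
  obtain ⟨l1, hK⟩ := fam_pl H w
  by_contra hcon
  push Not at hcon
  have hm0 := fam_ord (w := w) (fun j => (H j).mer0) hm
  have h5 : ∀ β : ℝ, 0 < β → Mx δ (fun y => ∑ j, (w j : ℝ) * -Pl (N j) (α j) y -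
      (((∑ j, w j * m j : ℤ) : ℝ) * Real.log (Real.log y) +
      (((∑ j, w j * m j : ℤ) : ℝ) * Real.eulerMascheroniConstant - Real.log A))) β := by
    intro β hβ
    refine Wm.congr h0 h1 (hcon β hβ) fun y hy => ?_
    rw [log_form hA0 (hpos y) hy, log_weighted w hQ]
    simp only [hlog]
  obtain ⟨f1, m', f2, -⟩ := (fam_gd H w).one l1 (fun y hy => by rw [hK y hy, abs_zero]) hr h0 h1 (h5 1 one_pos)
  have h6 := (fam_gd H w).lead_low l1 hK f1 hm0 (fam_lead H w hm hc) h0 h1 h5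
  rw [sub_sub_cancel, Real.exp_log hA0] at h6
  linarith

end Pool.Agent.Q18.W
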